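import Mathlib
import Pool.Agent.Lib.SQF4.Red

/-!
# Bezout relations for polynomials in two variables

`P : ℤ[X][X]`, the outer variable is `y`, the inner variable is `x`.
-/

set_option autoImplicit false

open Polynomial

namespace Pool.Agent.SQF2

/-- clearing denominators in a Bezout relation -/
lemma exists_bezout_gen {R K : Type*} [CommRing R] [IsDomain R] [Field K] [Algebra R K]
    [IsFractionRing R K] (f g : R[X])
    (h : IsCoprime (f.map (algebraMap R K)) (g.map (algebraMap R K))) :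
    ∃ (a b : R[X]) (D : R), D ≠ 0 ∧ a * f + b * g = C D := by
  obtain ⟨a, b, hab⟩ := h
  obtain ⟨Da, hDa0, hDa⟩ := IsLocalization.integerNormalization_spec (nonZeroDivisors R) a
  obtain ⟨Db, hDb0, hDb⟩ := IsLocalization.integerNormalization_spec (nonZeroDivisors R) b
  set a' := IsLocalization.integerNormalization (nonZeroDivisors R) a
  set b' := IsLocalization.integerNormalization (nonZeroDivisors R) b
  refine ⟨C Db * a', C Da * b', Da * Db, ?_, ?_⟩
  · exact mul_ne_zero (nonZeroDivisors.ne_zero hDa0) (nonZeroDivisors.ne_zero hDb0)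
  · apply Polynomial.map_injective (algebraMap R K) (IsFractionRing.injective R K)
    have e1 : a'.map (algebraMap R K) = C (algebraMap R K Da) * a := by
      rw [hDa, Algebra.smul_def, Polynomial.algebraMap_apply]
    have e2 : b'.map (algebraMap R K) = C (algebraMap R K Db) * b := by
      rw [hDb, Algebra.smul_def, Polynomial.algebraMap_apply]
    simp only [Polynomial.map_add, Polynomial.map_mul, Polynomial.map_C, e1, e2]
    have : C (algebraMap R K Db) * (C (algebraMap R K Da) * a) * (f.map (algebraMap R K)) +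
        C (algebraMap R K Da) * (C (algebraMap R K Db) * b) * (g.map (algebraMap R K)) =
        C (algebraMap R K Da) * C (algebraMap R K Db) * (a * (f.map (algebraMap R K)) +
          b * (g.map (algebraMap R K))) := by
      ring
    rw [this, hab, mul_one, ← C_mul, ← map_mul]

/-- an irreducible polynomial of positive degree and one that it does not divide -/
lemma bezout_pair {R : Type*} [CommRing R] [IsDomain R] [UniqueFactorizationMonoid R]
    (P g : R[X]) (hP : Irreducible P) (hd : P.natDegree ≠ 0) (hg : ¬ P ∣ g) :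
    ∃ (a b : R[X]) (D : R), D ≠ 0 ∧ a * P + b * g = C D := by
  classical
  let _ : NormalizedGCDMonoid R := Classical.arbitrary _
  have hprim : P.IsPrimitive := hP.isPrimitive hd
  have h1 : Irreducible (P.map (algebraMap R (FractionRing R))) :=
    (hprim.irreducible_iff_irreducible_map_fraction_map (K := FractionRing R)).1 hP
  have h2 : ¬ P.map (algebraMap R (FractionRing R)) ∣ g.map (algebraMap R (FractionRing R)) := by
    intro h
    exact hg (hprim.dvd_of_fraction_map_dvd_fraction_map h)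
  exact exists_bezout_gen (K := FractionRing R) P g ((h1.coprime_iff_not_dvd).2 h2)

/-- an irreducible polynomial of positive degree and its derivative -/
lemma bezout_deriv {R : Type*} [CommRing R] [IsDomain R] [UniqueFactorizationMonoid R] [CharZero R]
    (P : R[X]) (hP : Irreducible P) (hd : P.natDegree ≠ 0) :
    ∃ (a b : R[X]) (D : R), D ≠ 0 ∧ a * P + b * derivative P = C D := by
  refine bezout_pair P (derivative P) hP hd ?_
  intro h
  have h0 : derivative P ≠ 0 := by
    intro h1
    exact hd (derivative_eq_zero.1 h1)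
  have h1 := natDegree_le_of_dvd h h0
  have h2 := natDegree_derivative_lt hd
  omega

/-- a factor of the coefficients -/
lemma not_C_dvd {R : Type*} [CommRing R] [IsDomain R] (P : R[X]) (hP : Irreducible P)
    (hd : P.natDegree ≠ 0) (π : R) (hπ : Irreducible π) : ¬ C π ∣ P := by
  rintro ⟨Q, hQ⟩
  rcases hP.isUnit_or_isUnit hQ with h | h
  · exact hπ.not_isUnit (isUnit_C.1 h)
  · apply hd
    rw [hQ]
    have h1 : π ≠ 0 := hπ.ne_zero
    rw [natDegree_C_mul h1]
    exact natDegree_eq_zero_of_isUnit h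

/-- a nonconstant irreducible integer polynomial or a prime number, not dividing `c` -/
lemma bezout_int (π c : ℤ[X]) (hπ : Irreducible π) (hc : ¬ π ∣ c) :
    ∃ r : ℤ, r ≠ 0 ∧ ∀ p : ℕ, p.Prime → ¬ (p : ℤ) ∣ r → ∀ x : ℤ,
      (p : ℤ) ∣ π.eval x → ¬ (p : ℤ) ∣ c.eval x := by
  by_cases hd : π.natDegree = 0
  · obtain ⟨l, rfl⟩ := natDegree_eq_zero.1 hd
    refine ⟨l, ?_, ?_⟩
    · rintro rfl
      exact hπ.ne_zero (by simp)
    · intro p _ h x hx
      rw [eval_C] at hx
      exact absurd hx h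
  · obtain ⟨a, b, r, hr, hab⟩ := bezout_pair π c hπ hd hc
    refine ⟨r, hr, ?_⟩
    intro p _ h x hx hx'
    apply h
    have h3 : r = a.eval x * π.eval x + b.eval x * c.eval x := by
      have := congrArg (fun q => Polynomial.eval x q) hab
      simpa using this.symm
    rw [h3]
    exact dvd_add (Dvd.dvd.mul_left hx _) (Dvd.dvd.mul_left hx' _)

/-- a polynomial without factor in `ℤ[x]` does not vanish on a vertical line modulo large primes -/
lemma nonvan (P : ℤ[X][X]) (hP0 : P ≠ 0) (hP : ∀ π : ℤ[X], Irreducible π → ¬ C π ∣ P) :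
    ∃ r : ℤ, r ≠ 0 ∧ ∀ p : ℕ, p.Prime → ¬ (p : ℤ) ∣ r → ∀ x : ℤ,
      ∃ i, ¬ (p : ℤ) ∣ (P.coeff i).eval x := by
  classical
  have key : ∀ c : ℤ[X], c ≠ 0 → ∃ r : ℤ, r ≠ 0 ∧ ∀ p : ℕ, p.Prime → ¬ (p : ℤ) ∣ r → ∀ x : ℤ,
      (p : ℤ) ∣ c.eval x → ∃ i, ¬ (p : ℤ) ∣ (P.coeff i).eval x := by
    intro c
    induction c using UniqueFactorizationMonoid.induction_on_prime with
    | h₁ => intro h; exact absurd rfl h
    | h₂ u hu =>
      intro _
      refine ⟨1, one_ne_zero, ?_⟩
      intro p hp h x hx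
      exfalso
      obtain ⟨v, hv⟩ := hu.exists_right_inv
      have h1 : u.eval x * v.eval x = 1 := by rw [← eval_mul, hv, eval_one]
      exact h (h1 ▸ Dvd.dvd.mul_right hx _)
    | h₃ c π hc hπ ih =>
      intro _
      obtain ⟨r1, hr1, h1⟩ := ih hc
      have hπ' := hπ.irreducible
      have h2 := hP π hπ'
      rw [C_dvd_iff_dvd_coeff] at h2
      push Not at h2
      obtain ⟨i, hi⟩ := h2
      obtain ⟨r2, hr2, h3⟩ := bezout_int π (P.coeff i) hπ' hi
      refine ⟨r1 * r2, mul_ne_zero hr1 hr2, ?_⟩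
      intro p hp h x hx
      have hr1' : ¬ (p : ℤ) ∣ r1 := fun h' => h (Dvd.dvd.mul_right h' _)
      have hr2' : ¬ (p : ℤ) ∣ r2 := fun h' => h (Dvd.dvd.mul_left h' _)
      rw [eval_mul] at hx
      rcases (Nat.prime_iff_prime_int.1 hp).dvd_or_dvd hx with h4 | h4
      · exact ⟨i, h3 p hp hr2' x h4⟩
      · exact h1 p hp hr1' x h4
  obtain ⟨r, hr, h⟩ := key P.leadingCoeff (leadingCoeff_ne_zero.2 hP0)
  refine ⟨r, hr, ?_⟩
  intro p hp hpr x
  by_cases h1 : (p : ℤ) ∣ P.leadingCoeff.eval x
  · exact h p hp hpr x h1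
  · exact ⟨P.natDegree, h1⟩

/-- roots modulo `p` -/
lemma rho_p_le (f : ℤ[X]) (p : ℕ) (hp : p.Prime) (hf : ∃ i, ¬ (p : ℤ) ∣ f.coeff i) :
    Pool.Agent.SQF4.rho f p ≤ f.natDegree := by
  classical
  have : Fact p.Prime := ⟨hp⟩
  have : NeZero p := ⟨hp.ne_zero⟩
  set g : (ZMod p)[X] := f.map (Int.castRingHom (ZMod p)) with hg
  have hg0 : g ≠ 0 := by
    intro h0
    obtain ⟨i, hi⟩ := hf
    apply hi
    have h1 : g.coeff i = 0 := by rw [h0, coeff_zero]
    rw [hg, coeff_map, eq_intCast] at h1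
    exact (ZMod.intCast_zmod_eq_zero_iff_dvd _ p).1 h1
  have hle : g.roots.toFinset.card ≤ f.natDegree :=
    (Multiset.toFinset_card_le _).trans ((card_roots' g).trans (natDegree_map_le))
  refine le_trans ?_ hle
  rw [← Pool.Agent.SQF4.card_Bd]
  have : (Pool.Agent.SQF4.Bd f p) = (g.roots.toFinset : Set (ZMod p)) := by
    ext x
    rw [Finset.mem_coe, Multiset.mem_toFinset, mem_roots hg0]
    exact Iff.rfl
  rw [this, Nat.card_coe_set_eq, Set.ncard_coe_finset]

/-- the polynomial in `y` above `x` -/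
noncomputable def fib (P : ℤ[X][X]) (x : ℤ) : ℤ[X] := P.map (evalRingHom x)

lemma fib_eval (P : ℤ[X][X]) (x y : ℤ) : (fib P x).eval y = P.evalEval x y := by
  rw [fib, eval_map, evalEval, eval₂_eq_sum_range, eval_eq_sum_range (p := P), eval_finsetSum]
  refine Finset.sum_congr rfl ?_
  intro i _
  simp

lemma fib_natDegree (P : ℤ[X][X]) (x : ℤ) : (fib P x).natDegree ≤ P.natDegree := natDegree_map_le

lemma fib_coeff (P : ℤ[X][X]) (x : ℤ) (i : ℕ) : (fib P x).coeff i = (P.coeff i).eval x := by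
  rw [fib, coeff_map, coe_evalRingHom]

end Pool.Agent.SQF2
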