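import Mathlib

/-!
# SQF2: energies

`quad_card`: the number of solutions of `a b = c d` in `[1, M]` is at most `2 M² (1 + log M)`.
`energy_quadratic`: the number of pairs of points of `[1, N]²` at which a quadratic polynomial, which
is not invariant under a nonzero translation, takes the same value, is at most `K N² (1 + log N)`.
-/

set_option autoImplicit false

open Finset

namespace Pool.Agent.SQF2

/-- solutions of `a b = c d` -/
def quad (M : ℕ) : Finset (ℕ × ℕ × ℕ × ℕ) :=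
  ((Icc 1 M) ×ˢ (Icc 1 M) ×ˢ (Icc 1 M) ×ˢ (Icc 1 M)).filter
    (fun q => q.1 * q.2.1 = q.2.2.1 * q.2.2.2)

lemma harm_le (M : ℕ) : ∑ h ∈ Icc 1 M, (1 : ℝ) / h ≤ 1 + Real.log M := by
  have h := harmonic_le_one_add_log M
  rw [harmonic_eq_sum_Icc] at h
  refine le_trans (le_of_eq ?_) h
  push_cast
  refine Finset.sum_congr rfl fun i _ => ?_
  rw [one_div]

/-- half of the double sum -/
lemma half_sum (M : ℕ) : ∑ h ∈ Icc 1 M, ∑ k ∈ Icc 1 M, (if k ≤ h then (1 : ℝ) / (h : ℝ) ^ 2 else 0) ≤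
    1 + Real.log M := by
  classical
  refine le_trans ?_ (harm_le M)
  refine Finset.sum_le_sum fun h hh => ?_
  rw [mem_Icc] at hh
  have hh0 : (0 : ℝ) < h := by exact_mod_cast hh.1
  rw [← Finset.sum_filter, Finset.sum_const, nsmul_eq_mul]
  have h1 : ((Icc 1 M).filter (fun k => k ≤ h)).card ≤ h := by
    have : (Icc 1 M).filter (fun k => k ≤ h) ⊆ Icc 1 h := by
      intro k hk
      rw [mem_filter, mem_Icc] at hk
      exact mem_Icc.2 ⟨hk.1.1, hk.2⟩
    refine (Finset.card_le_card this).trans ?_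
    simp
  calc (((Icc 1 M).filter (fun k => k ≤ h)).card : ℝ) * (1 / (h : ℝ) ^ 2)
      ≤ (h : ℝ) * (1 / (h : ℝ) ^ 2) := by
        refine mul_le_mul_of_nonneg_right (by exact_mod_cast h1) (by positivity)
    _ = 1 / (h : ℝ) := by field_simp

lemma quad_card (M : ℕ) : ((quad M).card : ℝ) ≤ 2 * (M : ℝ) ^ 2 * (1 + Real.log M) := by
  classical
  set T : Finset ((_ : ℕ × ℕ) × ℕ × ℕ) := ((Icc 1 M) ×ˢ (Icc 1 M)).sigma
    (fun hk => (Icc 1 (M / max hk.1 hk.2)) ×ˢ (Icc 1 (M / max hk.1 hk.2))) with hT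
  have hcov : quad M ⊆ T.image (fun z => (z.1.1 * z.2.1, z.1.2 * z.2.2, z.1.2 * z.2.1,
      z.1.1 * z.2.2)) := by
    rintro ⟨a, b, c, d⟩ hq
    rw [quad, mem_filter, mem_product, mem_product, mem_product, mem_Icc, mem_Icc, mem_Icc,
      mem_Icc] at hq
    obtain ⟨⟨⟨ha1, ha2⟩, ⟨hb1, hb2⟩, ⟨hc1, hc2⟩, ⟨hd1, hd2⟩⟩, hab⟩ := hq
    simp only at ha1 ha2 hb1 hb2 hc1 hc2 hd1 hd2 hab
    have hg : 0 < Nat.gcd a c := Nat.gcd_pos_of_pos_left _ ha1
    obtain ⟨g, h, k, hg0, hcop, rfl, rfl⟩ := Nat.exists_coprime' hg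
    have hh : 0 < h := Nat.pos_of_ne_zero (by rintro rfl; simp at ha1)
    have hk : 0 < k := Nat.pos_of_ne_zero (by rintro rfl; simp at hc1)
    have h2 : h * b = k * d := by
      have : g * (h * b) = g * (k * d) := by
        calc g * (h * b) = h * g * b := by ring
          _ = k * g * d := hab
          _ = g * (k * d) := by ring
      exact Nat.eq_of_mul_eq_mul_left hg0 this
    have h3 : k ∣ b := hcop.symm.dvd_of_dvd_mul_left ⟨d, h2⟩
    obtain ⟨l, rfl⟩ := h3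
    have h4 : d = h * l := by
      have : k * (h * l) = k * d := by rw [← h2]; ring
      exact (Nat.eq_of_mul_eq_mul_left hk this).symm
    subst h4
    have hl : 0 < l := Nat.pos_of_ne_zero (by rintro rfl; simp at hb1)
    rw [mem_image]
    refine ⟨⟨(h, k), (g, l)⟩, ?_, rfl⟩
    rw [hT, mem_sigma, mem_product, mem_product, mem_Icc, mem_Icc, mem_Icc, mem_Icc]
    simp only
    have hm : 0 < max h k := lt_max_of_lt_left hh
    refine ⟨⟨⟨hh, ?_⟩, hk, ?_⟩, ⟨hg0, ?_⟩, hl, ?_⟩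
    · exact (Nat.le_mul_of_pos_right h hg0).trans ha2
    · exact (Nat.le_mul_of_pos_right k hg0).trans hc2
    · rw [Nat.le_div_iff_mul_le hm]
      rcases le_total h k with h5 | h5
      · rw [max_eq_right h5, mul_comm]; exact hc2
      · rw [max_eq_left h5, mul_comm]; exact ha2
    · rw [Nat.le_div_iff_mul_le hm]
      rcases le_total h k with h5 | h5
      · rw [max_eq_right h5, mul_comm]; exact hb2
      · rw [max_eq_left h5, mul_comm]; exact hd2
  have h1 : (quad M).card ≤ T.card := (Finset.card_le_card hcov).trans Finset.card_image_le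
  have h2 : (T.card : ℝ) ≤ ∑ h ∈ Icc 1 M, ∑ k ∈ Icc 1 M,
      ((M : ℝ) ^ 2 * (if k ≤ h then (1 : ℝ) / (h : ℝ) ^ 2 else 0) +
        (M : ℝ) ^ 2 * (if h ≤ k then (1 : ℝ) / (k : ℝ) ^ 2 else 0)) := by
    rw [hT, Finset.card_sigma, ← Finset.sum_product' (Icc 1 M) (Icc 1 M) (fun h k =>
      ((M : ℝ) ^ 2 * (if k ≤ h then (1 : ℝ) / (h : ℝ) ^ 2 else 0) +
        (M : ℝ) ^ 2 * (if h ≤ k then (1 : ℝ) / (k : ℝ) ^ 2 else 0)))]
    push_cast
    refine Finset.sum_le_sum fun z hz => ?_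
    rw [mem_product, mem_Icc, mem_Icc] at hz
    obtain ⟨⟨hz1, hz2⟩, hz3, hz4⟩ := hz
    have hz1' : (0 : ℝ) < (z.1 : ℝ) := by exact_mod_cast hz1
    have hz3' : (0 : ℝ) < (z.2 : ℝ) := by exact_mod_cast hz3
    rw [Finset.card_product, Nat.card_Icc, Nat.add_sub_cancel]
    push_cast
    have h3 : ((M / max z.1 z.2 : ℕ) : ℝ) ≤ (M : ℝ) / ((max z.1 z.2 : ℕ) : ℝ) := Nat.cast_div_le
    have h4 : ((M / max z.1 z.2 : ℕ) : ℝ) * ((M / max z.1 z.2 : ℕ) : ℝ) ≤
        (M : ℝ) ^ 2 * (1 / (((max z.1 z.2 : ℕ) : ℝ)) ^ 2) := by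
      calc ((M / max z.1 z.2 : ℕ) : ℝ) * ((M / max z.1 z.2 : ℕ) : ℝ)
          ≤ ((M : ℝ) / ((max z.1 z.2 : ℕ) : ℝ)) * ((M : ℝ) / ((max z.1 z.2 : ℕ) : ℝ)) :=
            mul_le_mul h3 h3 (Nat.cast_nonneg _) (by positivity)
        _ = _ := by ring
    refine h4.trans ?_
    rcases le_total z.1 z.2 with h5 | h5
    · rw [max_eq_right h5, if_pos h5]
      have : 0 ≤ (M : ℝ) ^ 2 * (if z.2 ≤ z.1 then (1 : ℝ) / (z.1 : ℝ) ^ 2 else 0) := by
        split_ifs <;> positivity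
      linarith
    · rw [max_eq_left h5, if_pos h5]
      have : 0 ≤ (M : ℝ) ^ 2 * (if z.1 ≤ z.2 then (1 : ℝ) / (z.2 : ℝ) ^ 2 else 0) := by
        split_ifs <;> positivity
      linarith
  have h3 := half_sum M
  have h4 : ∑ h ∈ Icc 1 M, ∑ k ∈ Icc 1 M, (if h ≤ k then (1 : ℝ) / (k : ℝ) ^ 2 else 0) =
      ∑ h ∈ Icc 1 M, ∑ k ∈ Icc 1 M, (if k ≤ h then (1 : ℝ) / (h : ℝ) ^ 2 else 0) := by
    rw [Finset.sum_comm]
  have h5 : ((quad M).card : ℝ) ≤ T.card := by exact_mod_cast h1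
  refine (h5.trans h2).trans ?_
  simp only [Finset.sum_add_distrib, ← Finset.mul_sum]
  rw [h4]
  have hM : (0 : ℝ) ≤ (M : ℝ) ^ 2 := by positivity
  nlinarith

/-- integral solutions of `a b = c d` -/
noncomputable def quadZ (M : ℕ) : Finset (ℤ × ℤ × ℤ × ℤ) :=
  ((Icc (-(M : ℤ)) M) ×ˢ (Icc (-(M : ℤ)) M) ×ˢ (Icc (-(M : ℤ)) M) ×ˢ (Icc (-(M : ℤ)) M)).filter
    (fun q => q.1 * q.2.1 = q.2.2.1 * q.2.2.2)

lemma zero_pairs (M : ℕ) (hM : 1 ≤ M) :
    (((Icc (-(M : ℤ)) M) ×ˢ (Icc (-(M : ℤ)) M)).filter (fun q => q.1 * q.2 = 0)).card ≤ 6 * M := by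
  classical
  have h1 : ((Icc (-(M : ℤ)) M) ×ˢ (Icc (-(M : ℤ)) M)).filter (fun q => q.1 * q.2 = 0) ⊆
      (({0} : Finset ℤ) ×ˢ (Icc (-(M : ℤ)) M)) ∪ ((Icc (-(M : ℤ)) M) ×ˢ ({0} : Finset ℤ)) := by
    rintro ⟨a, b⟩ h
    rw [mem_filter, mem_product] at h
    rw [mem_union, mem_product, mem_product, mem_singleton, mem_singleton]
    rcases mul_eq_zero.1 h.2 with h2 | h2
    · exact Or.inl ⟨h2, h.1.2⟩
    · exact Or.inr ⟨h.1.1, h2⟩
  refine (Finset.card_le_card h1).trans ((Finset.card_union_le _ _).trans ?_)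
  rw [Finset.card_product, Finset.card_product, Int.card_Icc, Finset.card_singleton]
  have : ((M : ℤ) + 1 - -(M : ℤ)).toNat = 2 * M + 1 := by omega
  rw [this]
  omega

lemma quadZ_card (M : ℕ) (hM : 1 ≤ M) :
    ((quadZ M).card : ℝ) ≤ 68 * (M : ℝ) ^ 2 * (1 + Real.log M) := by
  classical
  set I : Finset ℤ := Icc (-(M : ℤ)) M with hI
  set Z : Finset (ℤ × ℤ) := (I ×ˢ I).filter (fun q => q.1 * q.2 = 0) with hZ
  set S0 : Finset (ℤ × ℤ × ℤ × ℤ) := (Z ×ˢ Z).image (fun q => (q.1.1, q.1.2, q.2.1, q.2.2)) with hS0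
  set S1 : Finset (ℤ × ℤ × ℤ × ℤ) := (quadZ M).filter (fun q => q.1 * q.2.1 ≠ 0) with hS1
  have hsub : quadZ M ⊆ S0 ∪ S1 := by
    rintro ⟨a, b, c, d⟩ hq
    by_cases h0 : a * b = 0
    · refine mem_union_left _ ?_
      rw [quadZ, mem_filter, mem_product, mem_product, mem_product] at hq
      obtain ⟨⟨h1, h2, h3, h4⟩, h5⟩ := hq
      simp only at h1 h2 h3 h4 h5
      rw [hS0, mem_image]
      refine ⟨((a, b), (c, d)), ?_, rfl⟩
      rw [mem_product, hZ, mem_filter, mem_filter, mem_product, mem_product]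
      exact ⟨⟨⟨h1, h2⟩, h0⟩, ⟨h3, h4⟩, by simp only; rw [← h5]; exact h0⟩
    · refine mem_union_right _ ?_
      rw [hS1, mem_filter]
      exact ⟨hq, h0⟩
  have hS0c : S0.card ≤ 36 * M ^ 2 := by
    have h1 := zero_pairs M hM
    calc S0.card ≤ (Z ×ˢ Z).card := Finset.card_image_le
      _ = Z.card * Z.card := Finset.card_product _ _
      _ ≤ (6 * M) * (6 * M) := Nat.mul_le_mul h1 h1
      _ = 36 * M ^ 2 := by ring
  have hS1c : S1.card ≤ 16 * (quad M).card := by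
    set F : ℤ × ℤ × ℤ × ℤ → ℕ × ℕ × ℕ × ℕ := fun q =>
      (q.1.natAbs, q.2.1.natAbs, q.2.2.1.natAbs, q.2.2.2.natAbs) with hF
    have h1 : S1.image F ⊆ quad M := by
      intro z hz
      rw [mem_image] at hz
      obtain ⟨⟨a, b, c, d⟩, hq, rfl⟩ := hz
      rw [hS1, mem_filter, quadZ, mem_filter, mem_product, mem_product, mem_product, mem_Icc,
        mem_Icc, mem_Icc, mem_Icc] at hq
      obtain ⟨⟨⟨h1, h2, h3, h4⟩, h5⟩, h0⟩ := hq
      simp only at h1 h2 h3 h4 h5 h0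
      have h6 : c * d ≠ 0 := by rw [← h5]; exact h0
      have ha := left_ne_zero_of_mul h0
      have hb := right_ne_zero_of_mul h0
      have hc := left_ne_zero_of_mul h6
      have hd := right_ne_zero_of_mul h6
      rw [quad, mem_filter, mem_product, mem_product, mem_product, mem_Icc, mem_Icc, mem_Icc,
        mem_Icc]
      simp only [hF]
      refine ⟨⟨⟨?_, ?_⟩, ⟨?_, ?_⟩, ⟨?_, ?_⟩, ⟨?_, ?_⟩⟩, ?_⟩
      · exact Int.natAbs_pos.2 ha
      · omega
      · exact Int.natAbs_pos.2 hb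
      · omega
      · exact Int.natAbs_pos.2 hc
      · omega
      · exact Int.natAbs_pos.2 hd
      · omega
      · rw [← Int.natAbs_mul, ← Int.natAbs_mul, h5]
    have h2 : S1.card ≤ 16 * (S1.image F).card := by
      refine Finset.card_le_mul_card_image S1 16 ?_
      rintro ⟨a, b, c, d⟩ _
      have h3 : S1.filter (fun q => F q = (a, b, c, d)) ⊆
          (({(a : ℤ), -(a : ℤ)} : Finset ℤ) ×ˢ ({(b : ℤ), -(b : ℤ)} : Finset ℤ) ×ˢ
            ({(c : ℤ), -(c : ℤ)} : Finset ℤ) ×ˢ ({(d : ℤ), -(d : ℤ)} : Finset ℤ)) := by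
        rintro ⟨a', b', c', d'⟩ h
        rw [mem_filter] at h
        have h4 := h.2
        simp only [hF, Prod.mk.injEq] at h4
        obtain ⟨h5, h6, h7, h8⟩ := h4
        simp only [mem_product, mem_insert, mem_singleton]
        refine ⟨?_, ?_, ?_, ?_⟩ <;> omega
      refine (Finset.card_le_card h3).trans ?_
      rw [Finset.card_product, Finset.card_product, Finset.card_product]
      have := Finset.card_le_two (a := (a : ℤ)) (b := -(a : ℤ))
      have := Finset.card_le_two (a := (b : ℤ)) (b := -(b : ℤ))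
      have := Finset.card_le_two (a := (c : ℤ)) (b := -(c : ℤ))
      have := Finset.card_le_two (a := (d : ℤ)) (b := -(d : ℤ))
      calc _ ≤ 2 * (2 * (2 * 2)) := by gcongr
        _ = 16 := by norm_num
    exact h2.trans (Nat.mul_le_mul_left _ (Finset.card_le_card h1))
  have h1 : (quadZ M).card ≤ 36 * M ^ 2 + 16 * (quad M).card :=
    (Finset.card_le_card hsub).trans ((Finset.card_union_le _ _).trans (Nat.add_le_add hS0c hS1c))
  have h2 : ((quadZ M).card : ℝ) ≤ 36 * (M : ℝ) ^ 2 + 16 * ((quad M).card : ℝ) := by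
    exact_mod_cast h1
  have h3 := quad_card M
  have h4 : 0 ≤ Real.log M := Real.log_nonneg (by exact_mod_cast hM)
  have h5 : 0 ≤ (M : ℝ) ^ 2 := by positivity
  nlinarith

end Pool.Agent.SQF2
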