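import Mathlib
import Pool.Agent.Lib.SQF2.Energy

/-!
# SQF2: energies of quadratic polynomials

`energy_quadratic`: the number of pairs of points of `[1, N]²` at which a quadratic polynomial, which
is not invariant under a nonzero translation, takes the same value, is at most `K N² (1 + log N)`.
-/

set_option autoImplicit false

open Finset

namespace Pool.Agent.SQF2

/-- a quadratic polynomial -/
def qv (A B C D E F x y : ℤ) : ℤ := A * x ^ 2 + B * x * y + C * y ^ 2 + D * x + E * y + F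

/-- pairs of points of the box with equal values -/
noncomputable def en (q : ℤ → ℤ → ℤ) (N : ℕ) : Finset (ℤ × ℤ × ℤ × ℤ) :=
  ((Icc 1 (N : ℤ)) ×ˢ (Icc 1 (N : ℤ)) ×ˢ (Icc 1 (N : ℤ)) ×ˢ (Icc 1 (N : ℤ))).filter
    (fun v => q v.1 v.2.1 = q v.2.2.1 v.2.2.2)

lemma mem_en {q : ℤ → ℤ → ℤ} {N : ℕ} {x y x' y' : ℤ} : (x, y, x', y') ∈ en q N ↔
    ((1 ≤ x ∧ x ≤ N) ∧ (1 ≤ y ∧ y ≤ N) ∧ (1 ≤ x' ∧ x' ≤ N) ∧ (1 ≤ y' ∧ y' ≤ N)) ∧
      q x y = q x' y' := by
  rw [en, mem_filter, mem_product, mem_product, mem_product, mem_Icc, mem_Icc, mem_Icc, mem_Icc]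

/-- the energy is `O(N² log N)` -/
def EnergyBound (q : ℤ → ℤ → ℤ) : Prop :=
  ∃ K : ℝ, ∀ N : ℕ, 1 ≤ N → ((en q N).card : ℝ) ≤ K * (N : ℝ) ^ 2 * (1 + Real.log N)

lemma mem_quadZ {M : ℕ} {a b c d : ℤ} : (a, b, c, d) ∈ quadZ M ↔
    (|a| ≤ M ∧ |b| ≤ M ∧ |c| ≤ M ∧ |d| ≤ M) ∧ a * b = c * d := by
  rw [quadZ, mem_filter, mem_product, mem_product, mem_product, mem_Icc, mem_Icc, mem_Icc, mem_Icc,
    abs_le, abs_le, abs_le, abs_le]

lemma log_mul_le (M0 N : ℕ) (hM0 : 1 ≤ M0) (hN : 1 ≤ N) :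
    1 + Real.log ((M0 * N : ℕ) : ℝ) ≤ (1 + Real.log M0) * (1 + Real.log N) := by
  have h1 : (0 : ℝ) < M0 := by exact_mod_cast hM0
  have h2 : (0 : ℝ) < N := by exact_mod_cast hN
  have h3 : 0 ≤ Real.log M0 := Real.log_nonneg (by exact_mod_cast hM0)
  have h4 : 0 ≤ Real.log N := Real.log_nonneg (by exact_mod_cast hN)
  push_cast
  rw [Real.log_mul h1.ne' h2.ne']
  nlinarith [mul_nonneg h3 h4]

/-- an injection into the solutions of `a b = c d` -/
lemma energyBound_of_inj (q : ℤ → ℤ → ℤ) (M0 : ℕ) (hM0 : 1 ≤ M0)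
    (φ : ℤ × ℤ × ℤ × ℤ → ℤ × ℤ × ℤ × ℤ) (hφ : Function.Injective φ)
    (h : ∀ N : ℕ, 1 ≤ N → ∀ v ∈ en q N, φ v ∈ quadZ (M0 * N)) : EnergyBound q := by
  classical
  refine ⟨68 * (M0 : ℝ) ^ 2 * (1 + Real.log M0), fun N hN => ?_⟩
  have h1 : (en q N).card ≤ (quadZ (M0 * N)).card :=
    Finset.card_le_card_of_injOn φ (fun v hv => h N hN v hv) hφ.injOn
  have h2 := quadZ_card (M0 * N) (Nat.mul_pos hM0 hN)
  have h3 := log_mul_le M0 N hM0 hN
  have h4 : ((en q N).card : ℝ) ≤ ((quadZ (M0 * N)).card : ℝ) := by exact_mod_cast h1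
  have h5 : (0 : ℝ) ≤ 68 * ((M0 * N : ℕ) : ℝ) ^ 2 := by positivity
  calc ((en q N).card : ℝ) ≤ 68 * ((M0 * N : ℕ) : ℝ) ^ 2 * (1 + Real.log ((M0 * N : ℕ) : ℝ)) :=
        h4.trans h2
    _ ≤ 68 * ((M0 * N : ℕ) : ℝ) ^ 2 * ((1 + Real.log M0) * (1 + Real.log N)) :=
        mul_le_mul_of_nonneg_left h3 h5
    _ = _ := by push_cast; ring

/-- pairs with small product -/
noncomputable def hyp (M T : ℕ) : Finset (ℤ × ℤ) :=
  ((Icc (-(M : ℤ)) M) ×ˢ (Icc (-(M : ℤ)) M)).filter (fun q => |q.1 * q.2| ≤ T)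

/-- positive pairs with small product -/
lemma hyp_pos (T : ℕ) : ((((Icc 1 T) ×ˢ (Icc 1 T)).filter (fun q : ℕ × ℕ => q.1 * q.2 ≤ T)).card : ℝ) ≤
    (T : ℝ) * (1 + Real.log T) := by
  classical
  have h1 : ((Icc 1 T) ×ˢ (Icc 1 T)).filter (fun q : ℕ × ℕ => q.1 * q.2 ≤ T) ⊆
      ((Icc 1 T).sigma (fun x => Icc 1 (T / x))).image (fun z => (z.1, z.2)) := by
    rintro ⟨x, y⟩ h
    rw [mem_filter, mem_product, mem_Icc, mem_Icc] at h
    rw [mem_image]
    refine ⟨⟨x, y⟩, ?_, rfl⟩
    rw [mem_sigma, mem_Icc, mem_Icc]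
    refine ⟨h.1.1, h.1.2.1, ?_⟩
    rw [Nat.le_div_iff_mul_le h.1.1.1, mul_comm]
    exact h.2
  have h2 : (((Icc 1 T).sigma (fun x => Icc 1 (T / x))).card : ℝ) ≤ (T : ℝ) * (1 + Real.log T) := by
    rw [Finset.card_sigma]
    push_cast
    refine le_trans ?_ (mul_le_mul_of_nonneg_left (harm_le T) (Nat.cast_nonneg T))
    rw [Finset.mul_sum]
    refine Finset.sum_le_sum fun x _ => ?_
    rw [Nat.card_Icc, Nat.add_sub_cancel]
    refine (Nat.cast_div_le).trans (le_of_eq ?_)
    ring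
  refine le_trans ?_ h2
  exact_mod_cast (Finset.card_le_card h1).trans Finset.card_image_le

lemma hyp_card (M T : ℕ) (hM : 1 ≤ M) : ((hyp M T).card : ℝ) ≤
    6 * (M : ℝ) + 4 * ((T : ℝ) * (1 + Real.log T)) := by
  classical
  set S1 : Finset (ℤ × ℤ) := (hyp M T).filter (fun q => q.1 * q.2 ≠ 0) with hS1
  have hsub : hyp M T ⊆ (((Icc (-(M : ℤ)) M) ×ˢ (Icc (-(M : ℤ)) M)).filter
      (fun q => q.1 * q.2 = 0)) ∪ S1 := by
    rintro ⟨a, b⟩ hq
    by_cases h0 : a * b = 0
    · refine mem_union_left _ ?_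
      rw [hyp, mem_filter] at hq
      rw [mem_filter]
      exact ⟨hq.1, h0⟩
    · refine mem_union_right _ ?_
      rw [hS1, mem_filter]
      exact ⟨hq, h0⟩
  set P : Finset (ℕ × ℕ) := ((Icc 1 T) ×ˢ (Icc 1 T)).filter (fun q : ℕ × ℕ => q.1 * q.2 ≤ T) with hP
  have hS1c : S1.card ≤ 4 * P.card := by
    set F : ℤ × ℤ → ℕ × ℕ := fun q => (q.1.natAbs, q.2.natAbs) with hF
    have h1 : S1.image F ⊆ P := by
      intro z hz
      rw [mem_image] at hz
      obtain ⟨⟨a, b⟩, hq, rfl⟩ := hz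
      rw [hS1, mem_filter, hyp, mem_filter] at hq
      obtain ⟨⟨_, h5⟩, h0⟩ := hq
      simp only at h5 h0
      have ha := left_ne_zero_of_mul h0
      have hb := right_ne_zero_of_mul h0
      have ha' := Int.natAbs_pos.2 ha
      have hb' := Int.natAbs_pos.2 hb
      have h6 : a.natAbs * b.natAbs ≤ T := by
        rw [← Int.natAbs_mul]
        have : ((a * b).natAbs : ℤ) ≤ T := by rw [Int.natCast_natAbs]; exact h5
        exact_mod_cast this
      rw [hP, mem_filter, mem_product, mem_Icc, mem_Icc]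
      simp only [hF]
      exact ⟨⟨⟨ha', (Nat.le_mul_of_pos_right _ hb').trans h6⟩,
        ⟨hb', (Nat.le_mul_of_pos_left _ ha').trans h6⟩⟩, h6⟩
    have h2 : S1.card ≤ 4 * (S1.image F).card := by
      refine Finset.card_le_mul_card_image S1 4 ?_
      rintro ⟨a, b⟩ _
      have h3 : S1.filter (fun q => F q = (a, b)) ⊆
          (({(a : ℤ), -(a : ℤ)} : Finset ℤ) ×ˢ ({(b : ℤ), -(b : ℤ)} : Finset ℤ)) := by
        rintro ⟨a', b'⟩ h
        rw [mem_filter] at h
        have h4 := h.2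
        simp only [hF, Prod.mk.injEq] at h4
        obtain ⟨h5, h6⟩ := h4
        simp only [mem_product, mem_insert, mem_singleton]
        refine ⟨?_, ?_⟩ <;> omega
      refine (Finset.card_le_card h3).trans ?_
      rw [Finset.card_product]
      have := Finset.card_le_two (a := (a : ℤ)) (b := -(a : ℤ))
      have := Finset.card_le_two (a := (b : ℤ)) (b := -(b : ℤ))
      calc _ ≤ 2 * 2 := by gcongr
        _ = 4 := by norm_num
    exact h2.trans (Nat.mul_le_mul_left _ (Finset.card_le_card h1))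
  have h1 : (hyp M T).card ≤ 6 * M + 4 * P.card :=
    (Finset.card_le_card hsub).trans ((Finset.card_union_le _ _).trans
      (Nat.add_le_add (zero_pairs M hM) hS1c))
  have h2 : ((hyp M T).card : ℝ) ≤ 6 * (M : ℝ) + 4 * (P.card : ℝ) := by exact_mod_cast h1
  have h3 := hyp_pos T
  rw [← hP] at h3
  linarith

/-- the case of a nonzero coefficient of `y²` and nonzero discriminant -/
lemma energy_case1 (A B C D E F : ℤ) (hC : C ≠ 0) (hΔ : 4 * A * C - B ^ 2 ≠ 0) :
    EnergyBound (qv A B C D E F) := by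
  classical
  set Δ : ℤ := 4 * A * C - B ^ 2 with hΔdef
  set κ : ℤ := 2 * B * E - 4 * C * D with hκ
  set M0 : ℕ := (4 * |C| + 2 * |B| + 2 * |E| + 2 * |Δ| + |κ| + 1).toNat with hM0
  have hM0' : (M0 : ℤ) = 4 * |C| + 2 * |B| + 2 * |E| + 2 * |Δ| + |κ| + 1 := by
    rw [hM0, Int.toNat_of_nonneg (by positivity)]
  have hM01 : 1 ≤ M0 := by
    have h1 : (1 : ℤ) ≤ M0 := by
      rw [hM0']
      have := abs_nonneg C
      have := abs_nonneg B
      have := abs_nonneg E
      have := abs_nonneg Δ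
      have := abs_nonneg κ
      linarith
    exact_mod_cast h1
  refine energyBound_of_inj _ M0 hM01 (fun v => (2 * C * (v.2.1 - v.2.2.2) + B * (v.1 - v.2.2.1),
    2 * C * (v.2.1 + v.2.2.2) + B * (v.1 + v.2.2.1) + 2 * E, v.1 - v.2.2.1,
    -Δ * (v.1 + v.2.2.1) + κ)) ?_ ?_
  · rintro ⟨x, y, x', y'⟩ ⟨z, w, z', w'⟩ h
    simp only [Prod.mk.injEq] at h
    obtain ⟨h1, h2, h3, h4⟩ := h
    have h5 : x + x' = z + z' := mul_left_cancel₀ hΔ (by linarith)
    have hx : x = z := by omega
    have hx' : x' = z' := by omega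
    subst hx hx'
    have h6 : y - y' = w - w' := mul_left_cancel₀ (mul_ne_zero two_ne_zero hC) (by linarith)
    have h7 : y + y' = w + w' := mul_left_cancel₀ (mul_ne_zero two_ne_zero hC) (by linarith)
    have hy : y = w := by omega
    have hy' : y' = w' := by omega
    rw [hy, hy']
  · rintro N hN ⟨x, y, x', y'⟩ hv
    rw [mem_en] at hv
    obtain ⟨⟨⟨hx1, hx2⟩, ⟨hy1, hy2⟩, ⟨hx1', hx2'⟩, hy1', hy2'⟩, hq⟩ := hv
    rw [mem_quadZ]
    simp only
    have hN1 : (1 : ℤ) ≤ N := by exact_mod_cast hN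
    have ea : |x - x'| ≤ N := by rw [abs_le]; constructor <;> linarith
    have eb : |y - y'| ≤ N := by rw [abs_le]; constructor <;> linarith
    have es : |x + x'| ≤ 2 * N := by rw [abs_le]; constructor <;> linarith
    have et : |y + y'| ≤ 2 * N := by rw [abs_le]; constructor <;> linarith
    have c1 := abs_nonneg C
    have c2 := abs_nonneg B
    have c3 := abs_nonneg E
    have c4 := abs_nonneg Δ
    have c5 := abs_nonneg κ
    have e1 : |2 * C * (y - y')| ≤ 2 * |C| * N := by
      rw [abs_mul, abs_mul, abs_two]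
      exact mul_le_mul_of_nonneg_left eb (by positivity)
    have e2 : |B * (x - x')| ≤ |B| * N := by
      rw [abs_mul]
      exact mul_le_mul_of_nonneg_left ea (by positivity)
    have e3 : |2 * C * (y + y')| ≤ 2 * |C| * (2 * N) := by
      rw [abs_mul, abs_mul, abs_two]
      exact mul_le_mul_of_nonneg_left et (by positivity)
    have e4 : |B * (x + x')| ≤ |B| * (2 * N) := by
      rw [abs_mul]
      exact mul_le_mul_of_nonneg_left es (by positivity)
    have e5 : |-Δ * (x + x')| ≤ |Δ| * (2 * N) := by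
      rw [abs_mul, abs_neg]
      exact mul_le_mul_of_nonneg_left es (by positivity)
    have e6 : |2 * E| ≤ 2 * |E| * N := by
      rw [abs_mul, abs_two]
      nlinarith
    have e7 : |κ| ≤ |κ| * N := by nlinarith
    push_cast
    rw [hM0']
    refine ⟨⟨?_, ?_, ?_, ?_⟩, ?_⟩
    · refine (abs_add_le _ _).trans ?_
      nlinarith
    · refine (abs_add_le _ _).trans ?_
      have := abs_add_le (2 * C * (y + y')) (B * (x + x'))
      nlinarith
    · nlinarith
    · refine (abs_add_le _ _).trans ?_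
      nlinarith
    · unfold qv at hq
      rw [hΔdef, hκ]
      linear_combination 4 * C * hq

/-- the case of a nonzero coefficient of `y²` and zero discriminant -/
lemma energy_case2 (A B C D E F : ℤ) (hC : C ≠ 0) (hΔ : 4 * A * C - B ^ 2 = 0)
    (hκ0 : 2 * B * E - 4 * C * D ≠ 0) : EnergyBound (qv A B C D E F) := by
  classical
  set κ : ℤ := 2 * B * E - 4 * C * D with hκ
  set M0 : ℕ := (4 * |C| + 2 * |B| + 2 * |E| + |κ| + 1).toNat with hM0
  have hM0' : (M0 : ℤ) = 4 * |C| + 2 * |B| + 2 * |E| + |κ| + 1 := by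
    rw [hM0, Int.toNat_of_nonneg (by positivity)]
  have c1 := abs_nonneg C
  have c2 := abs_nonneg B
  have c3 := abs_nonneg E
  have c5 := abs_nonneg κ
  have hM01 : 1 ≤ M0 := by
    have h1 : (1 : ℤ) ≤ M0 := by
      rw [hM0']
      linarith
    exact_mod_cast h1
  refine ⟨2 * (6 * M0 + 4 * (M0 * (1 + Real.log M0))), fun N hN => ?_⟩
  have hN1 : (1 : ℤ) ≤ N := by exact_mod_cast hN
  have h1 : (en (qv A B C D E F) N).card ≤
      ((Icc (1 : ℤ) (2 * N)) ×ˢ hyp (M0 * N) (M0 * N)).card := by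
    refine Finset.card_le_card_of_injOn (fun v => (v.1 + v.2.2.1,
      (2 * C * (v.2.1 - v.2.2.2) + B * (v.1 - v.2.2.1),
      2 * C * (v.2.1 + v.2.2.2) + B * (v.1 + v.2.2.1) + 2 * E))) ?_ ?_
    · rintro ⟨x, y, x', y'⟩ hv
      rw [mem_coe, mem_en] at hv
      obtain ⟨⟨⟨hx1, hx2⟩, ⟨hy1, hy2⟩, ⟨hx1', hx2'⟩, hy1', hy2'⟩, hq⟩ := hv
      simp only
      rw [mem_coe, mem_product, mem_Icc, hyp, mem_filter, mem_product, mem_Icc, mem_Icc]
      have ea : |x - x'| ≤ N := by rw [abs_le]; constructor <;> linarith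
      have eb : |y - y'| ≤ N := by rw [abs_le]; constructor <;> linarith
      have es : |x + x'| ≤ 2 * N := by rw [abs_le]; constructor <;> linarith
      have et : |y + y'| ≤ 2 * N := by rw [abs_le]; constructor <;> linarith
      have e1 : |2 * C * (y - y')| ≤ 2 * |C| * N := by
        rw [abs_mul, abs_mul, abs_two]
        exact mul_le_mul_of_nonneg_left eb (by positivity)
      have e2 : |B * (x - x')| ≤ |B| * N := by
        rw [abs_mul]
        exact mul_le_mul_of_nonneg_left ea (by positivity)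
      have e3 : |2 * C * (y + y')| ≤ 2 * |C| * (2 * N) := by
        rw [abs_mul, abs_mul, abs_two]
        exact mul_le_mul_of_nonneg_left et (by positivity)
      have e4 : |B * (x + x')| ≤ |B| * (2 * N) := by
        rw [abs_mul]
        exact mul_le_mul_of_nonneg_left es (by positivity)
      have e6 : |2 * E| ≤ 2 * |E| * N := by
        rw [abs_mul, abs_two]
        nlinarith
      have e8 : (2 * C * (y - y') + B * (x - x')) *
          (2 * C * (y + y') + B * (x + x') + 2 * E) = κ * (x - x') := by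
        unfold qv at hq
        rw [hκ]
        linear_combination 4 * C * hq - (x - x') * (x + x') * hΔ
      have g1 : |2 * C * (y - y') + B * (x - x')| ≤ ((M0 * N : ℕ) : ℤ) := by
        push_cast
        rw [hM0']
        refine (abs_add_le _ _).trans ?_
        nlinarith
      have g2 : |2 * C * (y + y') + B * (x + x') + 2 * E| ≤ ((M0 * N : ℕ) : ℤ) := by
        push_cast
        rw [hM0']
        refine (abs_add_le _ _).trans ?_
        have := abs_add_le (2 * C * (y + y')) (B * (x + x'))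
        nlinarith
      refine ⟨⟨by linarith, by linarith⟩, ⟨abs_le.1 g1, abs_le.1 g2⟩, ?_⟩
      simp only
      rw [e8, abs_mul]
      push_cast
      rw [hM0']
      nlinarith
    · rintro ⟨x, y, x', y'⟩ hv ⟨z, w, z', w'⟩ hw h
      rw [mem_coe, mem_en] at hv hw
      simp only [Prod.mk.injEq] at h
      obtain ⟨h1, h2, h3⟩ := h
      have e8 : (2 * C * (y - y') + B * (x - x')) *
          (2 * C * (y + y') + B * (x + x') + 2 * E) = κ * (x - x') := by
        have hq := hv.2
        unfold qv at hq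
        rw [hκ]
        linear_combination 4 * C * hq - (x - x') * (x + x') * hΔ
      have e9 : (2 * C * (w - w') + B * (z - z')) *
          (2 * C * (w + w') + B * (z + z') + 2 * E) = κ * (z - z') := by
        have hq := hw.2
        unfold qv at hq
        rw [hκ]
        linear_combination 4 * C * hq - (z - z') * (z + z') * hΔ
      have h5 : x - x' = z - z' := by
        refine mul_left_cancel₀ hκ0 ?_
        rw [← e8, ← e9, h2, h3]
      have hx : x = z := by omega
      have hx' : x' = z' := by omega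
      subst hx hx'
      have h6 : y - y' = w - w' := mul_left_cancel₀ (mul_ne_zero two_ne_zero hC) (by linarith)
      have h7 : y + y' = w + w' := mul_left_cancel₀ (mul_ne_zero two_ne_zero hC) (by linarith)
      have hy : y = w := by omega
      have hy' : y' = w' := by omega
      rw [hy, hy']
  have h2 : ((Icc (1 : ℤ) (2 * N)) ×ˢ hyp (M0 * N) (M0 * N)).card =
      (2 * N) * (hyp (M0 * N) (M0 * N)).card := by
    rw [Finset.card_product, Int.card_Icc]
    congr 1
    omega
  have h3 := hyp_card (M0 * N) (M0 * N) (Nat.mul_pos hM01 hN)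
  have h4 := log_mul_le M0 N hM01 hN
  have h5 : ((en (qv A B C D E F) N).card : ℝ) ≤ (2 * N) * ((hyp (M0 * N) (M0 * N)).card : ℝ) := by
    rw [h2] at h1
    exact_mod_cast h1
  have hlogN : 0 ≤ Real.log N := Real.log_nonneg (by exact_mod_cast hN)
  have hN0 : (0 : ℝ) < N := by exact_mod_cast hN
  have hM00 : (0 : ℝ) < M0 := by exact_mod_cast hM01
  calc ((en (qv A B C D E F) N).card : ℝ) ≤ (2 * N) * ((hyp (M0 * N) (M0 * N)).card : ℝ) := h5
    _ ≤ (2 * N) * (6 * ((M0 * N : ℕ) : ℝ) + 4 * (((M0 * N : ℕ) : ℝ) *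
        (1 + Real.log ((M0 * N : ℕ) : ℝ)))) := mul_le_mul_of_nonneg_left h3 (by positivity)
    _ ≤ (2 * N) * (6 * ((M0 * N : ℕ) : ℝ) + 4 * (((M0 * N : ℕ) : ℝ) *
        ((1 + Real.log M0) * (1 + Real.log N)))) := by gcongr
    _ ≤ (2 * N) * (6 * ((M0 * N : ℕ) : ℝ) * (1 + Real.log N) + 4 * (((M0 * N : ℕ) : ℝ) *
        ((1 + Real.log M0) * (1 + Real.log N)))) := by
        refine mul_le_mul_of_nonneg_left ?_ (by positivity)
        have : 6 * ((M0 * N : ℕ) : ℝ) ≤ 6 * ((M0 * N : ℕ) : ℝ) * (1 + Real.log N) :=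
          le_mul_of_one_le_right (by positivity) (by linarith)
        linarith
    _ = _ := by push_cast; ring

/-- the case without squares -/
lemma energy_case4 (B D E F : ℤ) (hB : B ≠ 0) : EnergyBound (qv 0 B 0 D E F) := by
  classical
  set M0 : ℕ := (|B| + |D| + |E| + 1).toNat with hM0
  have hM0' : (M0 : ℤ) = |B| + |D| + |E| + 1 := by
    rw [hM0, Int.toNat_of_nonneg (by positivity)]
  have c1 := abs_nonneg B
  have c2 := abs_nonneg D
  have c3 := abs_nonneg E
  have hM01 : 1 ≤ M0 := by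
    have h1 : (1 : ℤ) ≤ M0 := by
      rw [hM0']
      linarith
    exact_mod_cast h1
  refine energyBound_of_inj _ M0 hM01 (fun v => (B * v.1 + E, B * v.2.1 + D, B * v.2.2.1 + E,
    B * v.2.2.2 + D)) ?_ ?_
  · rintro ⟨x, y, x', y'⟩ ⟨z, w, z', w'⟩ h
    simp only [Prod.mk.injEq] at h
    obtain ⟨h1, h2, h3, h4⟩ := h
    have hx : x = z := mul_left_cancel₀ hB (by linarith)
    have hy : y = w := mul_left_cancel₀ hB (by linarith)
    have hx' : x' = z' := mul_left_cancel₀ hB (by linarith)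
    have hy' : y' = w' := mul_left_cancel₀ hB (by linarith)
    rw [hx, hy, hx', hy']
  · rintro N hN ⟨x, y, x', y'⟩ hv
    rw [mem_en] at hv
    obtain ⟨⟨⟨hx1, hx2⟩, ⟨hy1, hy2⟩, ⟨hx1', hx2'⟩, hy1', hy2'⟩, hq⟩ := hv
    rw [mem_quadZ]
    simp only
    have hN1 : (1 : ℤ) ≤ N := by exact_mod_cast hN
    have key : ∀ z G : ℤ, 1 ≤ z → z ≤ N → |G| ≤ |D| + |E| → |B * z + G| ≤ ((M0 * N : ℕ) : ℤ) := by
      intro z G hz1 hz2 hG
      push_cast
      rw [hM0']
      refine (abs_add_le _ _).trans ?_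
      rw [abs_mul, abs_of_pos (by linarith : 0 < z)]
      nlinarith
    refine ⟨⟨key x E hx1 hx2 (by linarith), key y D hy1 hy2 (by linarith),
      key x' E hx1' hx2' (by linarith), key y' D hy1' hy2' (by linarith)⟩, ?_⟩
    unfold qv at hq
    linear_combination B * hq

/-- exchanging the variables -/
lemma EnergyBound.swap {q : ℤ → ℤ → ℤ} (h : EnergyBound q) : EnergyBound (fun x y => q y x) := by
  classical
  obtain ⟨K, hK⟩ := h
  refine ⟨K, fun N hN => ?_⟩
  refine le_trans ?_ (hK N hN)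
  have h1 : (en (fun x y => q y x) N).card ≤ (en q N).card := by
    refine Finset.card_le_card_of_injOn (fun v => (v.2.1, v.1, v.2.2.2, v.2.2.1)) ?_ ?_
    · rintro ⟨x, y, x', y'⟩ hv
      rw [mem_coe, mem_en] at hv
      simp only
      rw [mem_coe, mem_en]
      exact ⟨⟨hv.1.2.1, hv.1.1, hv.1.2.2.2, hv.1.2.2.1⟩, hv.2⟩
    · rintro ⟨x, y, x', y'⟩ _ ⟨z, w, z', w'⟩ _ h
      simp only [Prod.mk.injEq] at h
      obtain ⟨h1, h2, h3, h4⟩ := h
      rw [h1, h2, h3, h4]
  exact_mod_cast h1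

/-- **Energy of quadratic polynomials.** -/
theorem energy_quadratic (A B C D E F : ℤ)
    (h : ∀ a b : ℤ, (∀ x y : ℤ, qv A B C D E F (x + a) (y + b) = qv A B C D E F x y) →
      a = 0 ∧ b = 0) : EnergyBound (qv A B C D E F) := by
  -- the three minors
  have hmin : ¬ (4 * A * C - B ^ 2 = 0 ∧ 2 * A * E - B * D = 0 ∧ B * E - 2 * C * D = 0) := by
    rintro ⟨h1, h2, h3⟩
    have inv : ∀ a b : ℤ, 2 * A * a + B * b = 0 → B * a + 2 * C * b = 0 → D * a + E * b = 0 →
        a = 0 ∧ b = 0 := by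
      intro a b e1 e2 e3
      refine h a b fun x y => ?_
      unfold qv
      have e4 : A * a ^ 2 + B * a * b + C * b ^ 2 = 0 := by
        have : 2 * (A * a ^ 2 + B * a * b + C * b ^ 2) = 0 := by
          linear_combination a * e1 + b * e2
        omega
      linear_combination x * e1 + y * e2 + e3 + e4
    by_cases c1 : 2 * A = 0 ∧ B = 0
    · by_cases c2 : 2 * C = 0
      · by_cases c3 : D = 0 ∧ E = 0
        · have := (inv 1 0 (by linarith [c1.1]) (by linarith [c1.2]) (by linarith [c3.1])).1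
          omega
        · have := inv (-E) D (by rw [c1.1, c1.2]; ring) (by rw [c1.2, c2]; ring) (by ring)
          exact c3 ⟨this.2, by omega⟩
      · have := inv (-(2 * C)) B (by rw [c1.1, c1.2]; ring) (by ring)
          (by linear_combination h3)
        exact c2 (by omega)
    · have := inv (-B) (2 * A) (by ring) (by linear_combination h1) (by linear_combination h2)
      exact c1 ⟨this.2, by omega⟩
  by_cases hC : C = 0
  · by_cases hA : A = 0
    · subst hC hA
      have hB : B ≠ 0 := by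
        rintro rfl
        exact hmin ⟨by ring, by ring, by ring⟩
      exact energy_case4 B D E F hB
    · -- exchange the variables
      have hs : EnergyBound (qv C B A E D F) := by
        by_cases hΔ : 4 * A * C - B ^ 2 = 0
        · refine energy_case2 C B A E D F hA (by linarith) ?_
          intro h0
          have hB : B = 0 := by
            have : B ^ 2 = 0 := by rw [hC] at hΔ; linarith
            exact pow_eq_zero_iff (two_ne_zero) |>.1 this
          refine hmin ⟨hΔ, by linarith, by rw [hB, hC]; ring⟩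
        · exact energy_case1 C B A E D F hA (by intro h0; exact hΔ (by linarith))
      refine (by simpa using hs.swap : EnergyBound (fun x y => qv C B A E D F y x)) |> fun h9 => ?_
      have e : (fun x y => qv C B A E D F y x) = qv A B C D E F := by
        funext x y
        unfold qv
        ring
      rwa [e] at h9
  · by_cases hΔ : 4 * A * C - B ^ 2 = 0
    · refine energy_case2 A B C D E F hC hΔ ?_
      intro h0
      have h3 : B * E - 2 * C * D = 0 := by linarith
      refine hmin ⟨hΔ, ?_, h3⟩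
      have : 2 * C * (2 * A * E - B * D) = 0 := by
        linear_combination E * hΔ + B * h3
      rcases mul_eq_zero.1 this with h4 | h4
      · exact absurd h4 (mul_ne_zero two_ne_zero hC)
      · exact h4
    · exact energy_case1 A B C D E F hC hΔ

end Pool.Agent.SQF2
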