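import Mathlib
import Pool.Agent.Lib.SQF.Cubic
import Pool.Agent.Lib.SQF.Thue

/-!
# SQF2: power saving for the tails of polynomials of degree at most four
-/

set_option autoImplicit false

open Polynomial Filter Topology

namespace Pool.Agent.SQF2

open Pool.Agent.Lib.SQF

/-- power saving for the tail, for every constant `A` -/
def PTail (g : ℤ[X]) : Prop :=
  ∀ A : ℝ, 1 ≤ A → ∃ c : ℝ, 0 < c ∧ ∃ K : ℝ, ∀ X : ℝ, 1 ≤ X →
    ((tset g A X).ncard : ℝ) ≤ K * X ^ (1 - c)

/-- the trivial bound -/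
lemma tset_ncard_le (g : ℤ[X]) (A X : ℝ) (hA : 0 ≤ A) (hX : 0 ≤ X) :
    ((tset g A X).ncard : ℝ) ≤ 2 * (A * X) + 1 := by
  refine le_trans ?_ (ball_ncard (A * X) (by positivity))
  have h0 : (tset g A X).ncard ≤ {n : ℤ | |(n : ℝ)| ≤ A * X}.ncard :=
    Set.ncard_le_ncard (fun n (hn : n ∈ tset g A X) => hn.1) (ball_finite _)
  exact_mod_cast h0

/-- linear polynomials -/
lemma ptail_one (g : ℤ[X]) (hd : g.natDegree = 1) : PTail g := by
  intro A hA
  obtain ⟨B, hB1, hB⟩ := exists_val_bound g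
  have hg0 : g ≠ 0 := by rintro rfl; simp at hd
  have hA0 : 0 < A := by linarith
  set W : ℝ := B * A + 1 + |((g.eval 0 : ℤ) : ℝ)| with hW
  have hW1 : 1 ≤ W := by
    have := abs_nonneg ((g.eval 0 : ℤ) : ℝ)
    have : 0 ≤ B * A := by positivity
    linarith
  refine ⟨1, one_pos, 2 * (A * W) + 1 + 1, fun X hX => ?_⟩
  rw [sub_self, Real.rpow_zero, mul_one]
  by_cases hXW : X < W
  · have h1 := tset_ncard_le g A X (by linarith) (by linarith)
    have h2 : A * X ≤ A * W := mul_le_mul_of_nonneg_left hXW.le (by linarith)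
    linarith
  · push Not at hXW
    have h1 : tset g A X ⊆ (g.roots.toFinset : Finset ℤ) := by
      rintro n ⟨hn, p, hp, hpX, hdv⟩
      rw [Finset.mem_coe, Multiset.mem_toFinset, mem_roots hg0, IsRoot]
      by_contra h0
      have h2 : ((p : ℤ) ^ 2) ≤ |g.eval n| :=
        Int.le_of_dvd (abs_pos.2 h0) ((dvd_abs _ _).2 hdv)
      have h3 : ((p : ℝ)) ^ 2 ≤ |((g.eval n : ℤ) : ℝ)| := by exact_mod_cast h2
      have h4 : |((g.eval n : ℤ) : ℝ)| ≤ W * X := by
        by_cases hn0 : n = 0
        · rw [hn0]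
          have e1 : |((g.eval 0 : ℤ) : ℝ)| ≤ W := by
            have : 0 ≤ B * A := by positivity
            linarith
          have e2 : W ≤ W * X := by nlinarith
          exact e1.trans e2
        · have hn1 : 1 ≤ |(n : ℝ)| := by
            have : 1 ≤ |n| := Int.one_le_abs hn0
            exact_mod_cast this
          have e1 := hB n hn1
          rw [hd, pow_one] at e1
          have e2 : B * |(n : ℝ)| ≤ B * (A * X) := mul_le_mul_of_nonneg_left hn (by linarith)
          have e3 : B * (A * X) ≤ W * X := by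
            have := abs_nonneg ((g.eval 0 : ℤ) : ℝ)
            nlinarith
          linarith
      have h5 : X ^ 2 < (p : ℝ) ^ 2 := pow_lt_pow_left₀ hpX (by linarith) (by norm_num)
      nlinarith
    have h2 : (tset g A X).ncard ≤ 1 := by
      refine (Set.ncard_le_ncard h1 (Finset.finite_toSet _)).trans ?_
      rw [Set.ncard_coe_finset]
      refine (Multiset.toFinset_card_le _).trans ((card_roots' g).trans hd.le)
    have h3 : ((tset g A X).ncard : ℝ) ≤ 1 := by exact_mod_cast h2
    have : 0 ≤ A * W := by positivity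
    linarith

/-- quadratic polynomials -/
lemma ptail_two (g : ℤ[X]) (hirr : Irreducible g) (hd : g.natDegree = 2) : PTail g := by
  classical
  intro A hA
  have hA0 : 0 < A := by linarith
  obtain ⟨B, hB1, hB⟩ := exists_val_bound g
  set a := g.coeff 2 with ha
  set b := g.coeff 1 with hb
  set c := g.coeff 0 with hc
  have hev : ∀ n : ℤ, g.eval n = a * n ^ 2 + b * n + c := by
    intro n
    rw [eval_eq_sum_range, hd, Finset.sum_range_succ, Finset.sum_range_succ,
      Finset.sum_range_succ, Finset.sum_range_zero]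
    simp only [pow_zero, pow_one]
    ring
  have ha0 : a ≠ 0 := by
    have h1 : g.leadingCoeff ≠ 0 := leadingCoeff_ne_zero.2 hirr.ne_zero
    rwa [leadingCoeff, hd] at h1
  have hroot := eval_ne_zero_of_irreducible g hirr (by omega)
  -- the discriminant is not zero
  have hD : b ^ 2 - 4 * a * c ≠ 0 := by
    intro h0
    have hsep := Pool.Agent.SQF4.separable_of_irreducible g hirr (by omega)
    -- a double root over `ℚ`
    have haQ : (a : ℚ) ≠ 0 := by exact_mod_cast ha0
    have h1 : g.map (Int.castRingHom ℚ) = C (a : ℚ) * (X + C ((b : ℚ) / (2 * a))) ^ 2 := by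
      have h2 : g = C a * X ^ 2 + C b * X + C c := by
        apply Polynomial.funext
        intro n
        rw [hev n]
        simp
      rw [h2]
      have hc' : (c : ℚ) = (a : ℚ) * ((b : ℚ) / (2 * a)) ^ 2 := by
        have h3 : (b : ℚ) ^ 2 - 4 * a * c = 0 := by exact_mod_cast h0
        field_simp
        linarith
      have hb' : (b : ℚ) = (a : ℚ) * (2 * ((b : ℚ) / (2 * a))) := by
        field_simp
      rw [Polynomial.map_add, Polynomial.map_add, Polynomial.map_mul, Polynomial.map_mul,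
        Polynomial.map_pow, map_X, map_C, map_C, map_C]
      simp only [eq_intCast]
      rw [hc', hb']
      have hb'' : (a : ℚ) * (2 * ((b : ℚ) / (2 * a))) / (2 * a) = (b : ℚ) / (2 * a) := by
        field_simp
      rw [hb'']
      simp only [C_mul, C_pow]
      have : (C (2 : ℚ) : ℚ[X]) = 2 := map_ofNat C 2
      rw [this]
      ring
    have h2 := hsep.squarefree
    rw [h1] at h2
    have h3 := h2 (X + C ((b : ℚ) / (2 * a))) ⟨C (a : ℚ), by ring⟩
    have h4 := natDegree_eq_zero_of_isUnit h3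
    rw [natDegree_X_add_C] at h4
    omega
  obtain ⟨K, hK0, hK⟩ := thue_coeff 2 1 (ε := 1 / 2) (by norm_num)
  -- the bound for the cofactor
  set M : ℤ := ⌈B * A ^ 2⌉ + |c| with hM
  have hMpos : 0 ≤ M := by
    have h1 : 0 ≤ ⌈B * A ^ 2⌉ := Int.ceil_nonneg (by positivity)
    have := abs_nonneg c
    omega
  have hMR : B * A ^ 2 ≤ (M : ℝ) := by
    have h1 := Int.le_ceil (B * A ^ 2)
    have h2 : (0 : ℝ) ≤ ((|c| : ℤ) : ℝ) := by exact_mod_cast abs_nonneg c
    rw [hM]; push_cast at h2 ⊢
    linarith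
  have hval : ∀ X : ℝ, 1 ≤ X → ∀ n : ℤ, |(n : ℝ)| ≤ A * X →
      |((g.eval n : ℤ) : ℝ)| ≤ M * X ^ 2 := by
    intro X hX n hn
    by_cases hn0 : n = 0
    · rw [hn0, hev]
      have h1 : (|c| : ℝ) ≤ (M : ℝ) := by
        have h2 : 0 ≤ ⌈B * A ^ 2⌉ := Int.ceil_nonneg (by positivity)
        have h3 : |c| ≤ M := by omega
        exact_mod_cast h3
      have h2 : (1 : ℝ) ≤ X ^ 2 := one_le_pow₀ hX
      have h3 : (0 : ℝ) ≤ (M : ℝ) := by exact_mod_cast hMpos
      have h4 : a * 0 ^ 2 + b * 0 + c = c := by ring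
      rw [h4]
      nlinarith
    · have hn1 : 1 ≤ |(n : ℝ)| := by
        have : 1 ≤ |n| := Int.one_le_abs hn0
        exact_mod_cast this
      have e1 := hB n hn1
      rw [hd] at e1
      have e2 : |(n : ℝ)| ^ 2 ≤ (A * X) ^ 2 := pow_le_pow_left₀ (abs_nonneg _) hn 2
      calc |((g.eval n : ℤ) : ℝ)| ≤ B * |(n : ℝ)| ^ 2 := e1
        _ ≤ B * (A * X) ^ 2 := mul_le_mul_of_nonneg_left e2 (by linarith)
        _ = B * A ^ 2 * X ^ 2 := by ring
        _ ≤ M * X ^ 2 := mul_le_mul_of_nonneg_right hMR (by positivity)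
  set W : ℝ := 2 + (M : ℝ) + 2 * |(a : ℝ)| * A + |(b : ℝ)| + 4 * |(a : ℝ)| * M +
    |((b ^ 2 - 4 * a * c : ℤ) : ℝ)| with hW
  have hMR0 : (0 : ℝ) ≤ (M : ℝ) := by exact_mod_cast hMpos
  have w1 : 0 ≤ 2 * |(a : ℝ)| * A := by positivity
  have w2 : 0 ≤ |(b : ℝ)| := abs_nonneg _
  have w3 : 0 ≤ 4 * |(a : ℝ)| * M := by positivity
  have w4 : 0 ≤ |((b ^ 2 - 4 * a * c : ℤ) : ℝ)| := abs_nonneg _
  have hW2 : 2 ≤ W := by rw [hW]; linarith
  refine ⟨1 / 2, by norm_num, (2 * M + 1) * (K * W ^ (1 / 2 : ℝ)), fun X hX => ?_⟩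
  have hX0 : 0 < X := by linarith
  set X' : ℝ := W * X with hX'
  have hX'2 : 2 ≤ X' := by nlinarith
  have hWX : W ≤ X' := by nlinarith
  -- the fibre over `m`
  set T : Finset ℤ := (tset_finite g A X).toFinset with hT
  have hTcard : (tset g A X).ncard = T.card := by
    rw [Set.ncard_eq_toFinset_card _ (tset_finite g A X)]
  have hmem : ∀ n ∈ T, ∃ m ∈ Finset.Icc (-M) M, ∃ p : ℤ, 0 < p ∧ p ^ 2 * m = g.eval n ∧
      (p : ℝ) ≤ X' ∧ m ≠ 0 := by
    intro n hn
    rw [hT, Set.Finite.mem_toFinset] at hn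
    obtain ⟨hn1, p, hp, hpX, m, hm⟩ := hn
    have h1 := hval X hX n hn1
    have h2 : |((g.eval n : ℤ) : ℝ)| = (p : ℝ) ^ 2 * |(m : ℝ)| := by
      rw [hm]; push_cast
      rw [abs_mul, abs_of_nonneg (by positivity : (0 : ℝ) ≤ (p : ℝ) ^ 2)]
    have hm0 : m ≠ 0 := by
      rintro rfl
      exact hroot n (by rw [hm]; ring)
    have hm1 : 1 ≤ |(m : ℝ)| := by
      have : 1 ≤ |m| := Int.one_le_abs hm0
      exact_mod_cast this
    have hX2 : X ^ 2 < (p : ℝ) ^ 2 := pow_lt_pow_left₀ hpX hX0.le (by norm_num)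
    have h3 : |(m : ℝ)| ≤ M := by
      by_contra hcon
      push Not at hcon
      have e1 : (M : ℝ) * X ^ 2 ≤ M * (p : ℝ) ^ 2 := mul_le_mul_of_nonneg_left hX2.le hMR0
      have hp0 : (0 : ℝ) < p := by exact_mod_cast hp.pos
      have e2 : (M : ℝ) * (p : ℝ) ^ 2 < |(m : ℝ)| * (p : ℝ) ^ 2 :=
        mul_lt_mul_of_pos_right hcon (by positivity)
      rw [h2] at h1
      linarith
    have h4 : |m| ≤ M := by exact_mod_cast h3
    refine ⟨m, ?_, p, by exact_mod_cast hp.pos, hm.symm, ?_, hm0⟩
    · rw [Finset.mem_Icc]; exact abs_le.1 h4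
    · have e1 : (p : ℝ) ^ 2 ≤ X' ^ 2 := by
        calc (p : ℝ) ^ 2 ≤ (p : ℝ) ^ 2 * |(m : ℝ)| := le_mul_of_one_le_right (by positivity) hm1
          _ ≤ M * X ^ 2 := by rw [← h2]; exact h1
          _ ≤ W ^ 2 * X ^ 2 := by
            refine mul_le_mul_of_nonneg_right ?_ (by positivity)
            have : (M : ℝ) ≤ W := by rw [hW]; linarith
            nlinarith
          _ = X' ^ 2 := by rw [hX']; ring
      have := (pow_le_pow_iff_left₀ (Nat.cast_nonneg p) (by positivity) (two_ne_zero)).1 e1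
      exact_mod_cast this
  have hcov : T ⊆ (Finset.Icc (-M) M).biUnion (fun m => T.filter (fun n => ∃ p : ℤ, 0 < p ∧
      p ^ 2 * m = g.eval n ∧ (p : ℝ) ≤ X' ∧ m ≠ 0)) := by
    intro n hn
    obtain ⟨m, hm, p, hp⟩ := hmem n hn
    rw [Finset.mem_biUnion]
    exact ⟨m, hm, Finset.mem_filter.2 ⟨hn, p, hp⟩⟩
  have hfib : ∀ m ∈ Finset.Icc (-M) M, ((T.filter (fun n => ∃ p : ℤ, 0 < p ∧
      p ^ 2 * m = g.eval n ∧ (p : ℝ) ≤ X' ∧ m ≠ 0)).card : ℝ) ≤ K * X' ^ (1 / 2 : ℝ) := by
    intro m hm
    rw [Finset.mem_Icc] at hm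
    by_cases hm0 : m = 0
    · have : (T.filter (fun n => ∃ p : ℤ, 0 < p ∧
          p ^ 2 * m = g.eval n ∧ (p : ℝ) ≤ X' ∧ m ≠ 0)) = ∅ := by
        rw [Finset.filter_eq_empty_iff]
        rintro n _ ⟨p, _, _, _, h⟩
        exact h hm0
      rw [this, Finset.card_empty]
      have : 0 ≤ X' ^ (1 / 2 : ℝ) := by positivity
      push_cast
      positivity
    set Tm := T.filter (fun n => ∃ p : ℤ, 0 < p ∧
      p ^ 2 * m = g.eval n ∧ (p : ℝ) ≤ X' ∧ m ≠ 0) with hTm
    have hch : ∀ n : ℤ, ∃ p : ℤ, n ∈ Tm → 0 < p ∧ p ^ 2 * m = g.eval n ∧ (p : ℝ) ≤ X' := by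
      intro n
      by_cases hn : n ∈ Tm
      · obtain ⟨p, h1, h2, h3, _⟩ := (Finset.mem_filter.1 hn).2
        exact ⟨p, fun _ => ⟨h1, h2, h3⟩⟩
      · exact ⟨0, fun h => absurd h hn⟩
    choose pf hpf using hch
    set S : Finset (ℤ × ℤ) := Tm.image (fun n => (2 * a * n + b, pf n)) with hS
    have hScard : S.card = Tm.card := by
      refine Finset.card_image_of_injective _ ?_
      intro n n' h
      have h1 : 2 * a * n + b = 2 * a * n' + b := (Prod.mk.inj h).1
      exact mul_left_cancel₀ (mul_ne_zero two_ne_zero ha0) (by linarith)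
    rw [← hScard]
    have hmabs : |(m : ℝ)| ≤ M := by
      have : |m| ≤ M := abs_le.2 hm
      exact_mod_cast this
    refine hK X' hX'2 (fun i => if i = 0 then -(4 * a * m) else if i = 1 then 0 else 1) ?_ ?_
      (b ^ 2 - 4 * a * c) hD ?_ S ?_
    · intro i _
      rw [pow_one]
      split_ifs
      · push_cast
        rw [abs_neg, abs_mul, abs_mul]
        have : |(4 : ℝ)| = 4 := abs_of_pos (by norm_num)
        rw [this]
        have h1 : 4 * |(a : ℝ)| * |(m : ℝ)| ≤ 4 * |(a : ℝ)| * M :=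
          mul_le_mul_of_nonneg_left hmabs (by positivity)
        refine h1.trans (le_trans ?_ hWX)
        rw [hW]; linarith
      · push_cast; rw [abs_zero]; linarith
      · push_cast; rw [abs_one]; linarith
    · rintro ⟨k, l, μ, h⟩
      have e : ∀ u v : ℂ, ((-(4 * a * m) : ℤ) : ℂ) * v ^ 2 + u ^ 2 = k * (l * u + μ * v) ^ 2 := by
        intro u v
        have := h u v
        rw [Finset.sum_range_succ, Finset.sum_range_succ, Finset.sum_range_succ,
          Finset.sum_range_zero] at this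
        simpa using this
      have e1 := e 1 0
      have e2 := e 0 1
      have e3 := e 1 1
      have e4 := e 1 (-1)
      have f1 : k * l ^ 2 = 1 := by linear_combination -e1
      have f2 : k * μ ^ 2 = ((-(4 * a * m) : ℤ) : ℂ) := by linear_combination -e2
      have f3 : k * l * μ = 0 := by linear_combination (e4 - e3) / 4
      have hk : k ≠ 0 := by rintro rfl; simp at f1
      have hl : l ≠ 0 := by rintro rfl; simp at f1
      have hμ : μ = 0 := by
        rcases mul_eq_zero.1 f3 with h5 | h5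
        · exact absurd h5 (mul_ne_zero hk hl)
        · exact h5
      rw [hμ] at f2
      have f4 : ((-(4 * a * m) : ℤ) : ℂ) = 0 := by rw [← f2]; ring
      have f5 : -(4 * a * m) = 0 := by exact_mod_cast f4
      have : a * m = 0 := by linarith
      rcases mul_eq_zero.1 this with h5 | h5
      · exact ha0 h5
      · exact hm0 h5
    · rw [pow_one]
      refine le_trans ?_ hWX
      rw [hW]; linarith
    · rintro ⟨u, v⟩ huv
      rw [hS, Finset.mem_image] at huv
      obtain ⟨n, hn, h1⟩ := huv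
      obtain ⟨hu, hv⟩ := Prod.mk.inj h1
      obtain ⟨hp1, hp2, hp3⟩ := hpf n hn
      have hnT : n ∈ T := (Finset.mem_filter.1 hn).1
      rw [hT, Set.Finite.mem_toFinset] at hnT
      have hn1 : |(n : ℝ)| ≤ A * X := hnT.1
      simp only [pow_one]
      refine ⟨?_, ?_, ?_⟩
      · rw [← hu]; push_cast
        refine (abs_add_le _ _).trans ?_
        rw [abs_mul, abs_mul, abs_two]
        have e1 : 2 * |(a : ℝ)| * |(n : ℝ)| ≤ 2 * |(a : ℝ)| * (A * X) :=
          mul_le_mul_of_nonneg_left hn1 (by positivity)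
        have e2 : |(b : ℝ)| ≤ |(b : ℝ)| * X := le_mul_of_one_le_right w2 hX
        have e3 : (2 * |(a : ℝ)| * A + |(b : ℝ)|) * X ≤ W * X := by
          refine mul_le_mul_of_nonneg_right ?_ hX0.le
          rw [hW]; linarith
        rw [hX']
        nlinarith
      · rw [← hv, abs_of_pos (by exact_mod_cast hp1)]
        exact hp3
      · rw [Finset.sum_range_succ, Finset.sum_range_succ, Finset.sum_range_succ,
          Finset.sum_range_zero]
        simp only [zero_add, if_true, pow_zero, mul_one, Nat.sub_zero, one_ne_zero, if_false]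
        have e5 := hev n
        rw [← hp2] at e5
        rw [← hu, ← hv]
        norm_num
        linear_combination (-4 * a) * e5
  have hcard : (T.card : ℝ) ≤ (2 * M + 1) * (K * X' ^ (1 / 2 : ℝ)) := by
    have h1 := (Finset.card_le_card hcov).trans Finset.card_biUnion_le
    have h2 : (T.card : ℝ) ≤ ∑ m ∈ Finset.Icc (-M) M, ((T.filter (fun n => ∃ p : ℤ, 0 < p ∧
      p ^ 2 * m = g.eval n ∧ (p : ℝ) ≤ X' ∧ m ≠ 0)).card : ℝ) := by exact_mod_cast h1
    refine h2.trans ((Finset.sum_le_card_nsmul _ _ _ hfib).trans ?_)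
    rw [nsmul_eq_mul, Int.card_Icc]
    have h3 : ((M + 1 - -M).toNat : ℝ) = 2 * M + 1 := by
      have : ((M + 1 - -M).toNat : ℤ) = 2 * M + 1 := by
        rw [Int.toNat_of_nonneg (by omega)]; ring
      exact_mod_cast this
    rw [h3]
  rw [hTcard]
  refine hcard.trans (le_of_eq ?_)
  rw [hX', Real.mul_rpow (by linarith) hX0.le]
  have : (1 - 1 / 2 : ℝ) = 1 / 2 := by norm_num
  rw [this]
  ring

/-- from the monic polynomial -/
lemma ptail_of_normal (f : ℤ[X]) (hf : Irreducible f) (hd : 1 ≤ f.natDegree)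
    (h : PTail f.integralNormalization) : PTail f := by
  intro A hA
  have hlc : f.leadingCoeff ≠ 0 := leadingCoeff_ne_zero.2 hf.ne_zero
  set a : ℤ := f.leadingCoeff with ha
  have ha1 : (1 : ℝ) ≤ |(a : ℝ)| := by
    have : 1 ≤ |a| := Int.one_le_abs hlc
    exact_mod_cast this
  obtain ⟨c, hc, K, hK⟩ := h (|(a : ℝ)| * A) (by nlinarith)
  refine ⟨c, hc, K, fun X hX => ?_⟩
  refine le_trans ?_ (hK X hX)
  have h2 : ((fun n : ℤ => a * n) '' (tset f A X)) ⊆
      tset f.integralNormalization (|(a : ℝ)| * A) X := by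
    rintro _ ⟨n, ⟨hn1, p, hp, hpN, hpn⟩, rfl⟩
    refine ⟨?_, p, hp, hpN, ?_⟩
    · show |((a * n : ℤ) : ℝ)| ≤ |(a : ℝ)| * A * X
      push_cast
      rw [abs_mul, mul_assoc]
      exact mul_le_mul_of_nonneg_left hn1 (by positivity)
    · have h3 := integralNormalization_eval₂_leadingCoeff_mul (p := f) (by omega)
        (RingHom.id ℤ) n
      have h4 : f.integralNormalization.eval (a * n) =
          a ^ (f.natDegree - 1) * f.eval n := h3
      show (p : ℤ) ^ 2 ∣ f.integralNormalization.eval (a * n)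
      rw [h4]
      exact hpn.mul_left _
  have h5 := Set.ncard_le_ncard h2 (tset_finite _ _ _)
  rw [Set.ncard_image_of_injective] at h5
  · exact_mod_cast h5
  · intro x y hxy
    exact mul_left_cancel₀ hlc hxy

/-- from the windows -/
lemma ptail_of_range (f : ℤ[X]) (hf : Irreducible f) (hd : 2 ≤ f.natDegree) (e : ℝ) (he : 0 < e)
    (h : RangeBoundL f.integralNormalization ((f.natDegree : ℝ) / 2 - 1 + e)) : PTail f := by
  have hirr := irreducible_integralNormalization f hf (by omega)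
  have hdeg : f.integralNormalization.natDegree = f.natDegree := natDegree_integralNormalization
  have hroot : ∀ n : ℤ, f.integralNormalization.eval n ≠ 0 :=
    eval_ne_zero_of_irreducible _ hirr (by omega)
  refine ptail_of_normal f hf (by omega) (fun A hA => ?_)
  exact tail_of_rangeL f.integralNormalization hroot e he (by rw [hdeg]; exact h) A hA

/-- cubics -/
lemma ptail_three (f : ℤ[X]) (hf : Irreducible f) (hd : f.natDegree = 3) : PTail f := by
  refine ptail_of_range f hf (by omega) (1 / 100) (by norm_num) ?_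
  have h := cubic_range f.integralNormalization (monic_integralNormalization hf.ne_zero)
    (irreducible_integralNormalization f hf (by omega))
    (natDegree_integralNormalization.trans hd)
  rw [hd]
  norm_num at h ⊢
  exact h

/-- quartics, from the windows of monic quartics -/
lemma ptail_four
    (H4 : ∀ g : ℤ[X], g.Monic → Irreducible g → g.natDegree = 4 → RangeBoundL g (101 / 100))
    (f : ℤ[X]) (hf : Irreducible f) (hd : f.natDegree = 4) : PTail f := by
  refine ptail_of_range f hf (by omega) (1 / 100) (by norm_num) ?_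
  have h := H4 f.integralNormalization (monic_integralNormalization hf.ne_zero)
    (irreducible_integralNormalization f hf (by omega))
    (natDegree_integralNormalization.trans hd)
  rw [hd]
  norm_num at h ⊢
  exact h

/-- all degrees up to four -/
theorem ptail
    (H4 : ∀ g : ℤ[X], g.Monic → Irreducible g → g.natDegree = 4 → RangeBoundL g (101 / 100))
    (f : ℤ[X]) (hf : Irreducible f) (h1 : 1 ≤ f.natDegree) (h4 : f.natDegree ≤ 4) : PTail f := by
  rcases (by omega : f.natDegree = 1 ∨ f.natDegree = 2 ∨ f.natDegree = 3 ∨ f.natDegree = 4) with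
    h | h | h | h
  · exact ptail_one f h
  · exact ptail_two f hf h
  · exact ptail_three f hf h
  · exact ptail_four H4 f hf h

end Pool.Agent.SQF2
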