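import Mathlib
import Pool.Agent.Lib.SQF4.Red

/-!
# The sieve in dimension `h`

For a function `F` on `ℤ ^ h` that is compatible with congruences, if `p ^ 2 ∣ F v` has at most
`K (N ^ h / p ^ 2 + N ^ (h - 1))` solutions in the box of side `N` for the primes `z0 < p ≤ N`, and
if the number of `v` in the box with `p ^ 2 ∣ F v` for some prime `p > N` is `o(N ^ h)`, then the
density of the `v` with `F v / d` squarefree is the Euler product.
-/

set_option autoImplicit false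

open Filter Topology

namespace Pool.Agent.SQF2

/-- compatibility with congruences -/
def Cong {h : ℕ} (F : (Fin h → ℤ) → ℤ) : Prop :=
  ∀ (m : ℤ) (v w : Fin h → ℤ), (∀ i, m ∣ v i - w i) → m ∣ F v - F w

/-- the box -/
def box (h N : ℕ) : Finset (Fin h → ℕ) := Fintype.piFinset (fun _ => Finset.Ioc 0 N)

lemma mem_box {h N : ℕ} {v : Fin h → ℕ} : v ∈ box h N ↔ ∀ i, 1 ≤ v i ∧ v i ≤ N := by
  simp only [box, Fintype.mem_piFinset, Finset.mem_Ioc]
  exact Iff.rfl

lemma card_box (h N : ℕ) : (box h N).card = N ^ h := by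
  simp [box, Fintype.card_piFinset]

/-- number of residue classes -/
noncomputable def rho {h : ℕ} (F : (Fin h → ℤ) → ℤ) (m : ℕ) : ℕ :=
  Nat.card {v : Fin h → Fin m // (m : ℤ) ∣ F (fun i => ((v i : ℕ) : ℤ))}

/-- points of the box with `p ^ 2 ∣ F v` for a prime `p > N` -/
noncomputable def tail {h : ℕ} (F : (Fin h → ℤ) → ℤ) (N : ℕ) : ℕ :=
  Nat.card {v : Fin h → ℕ // (∀ i, 1 ≤ v i ∧ v i ≤ N) ∧
    ∃ p : ℕ, p.Prime ∧ N < p ∧ (p : ℤ) ^ 2 ∣ F (fun i => (v i : ℤ))}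

/-- good points -/
noncomputable def good {h : ℕ} (F : (Fin h → ℤ) → ℤ) (δ N : ℕ) : ℕ :=
  Nat.card {v : Fin h → ℕ // (∀ i, 1 ≤ v i ∧ v i ≤ N) ∧
    Squarefree (F (fun i => (v i : ℤ)) /
      ((∏ p ∈ δ.primeFactors, p ^ (δ.factorization p - 1) : ℕ) : ℤ))}

/-- the local factor -/
noncomputable def loc {h : ℕ} (F : (Fin h → ℤ) → ℤ) (δ p : ℕ) : ℝ :=
  1 - (rho F (p ^ (2 + (δ.factorization p - 1))) : ℝ) /
    ((p : ℝ) ^ (h * (2 + (δ.factorization p - 1))))

/-- the bad residues -/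
def Bd {h : ℕ} (F : (Fin h → ℤ) → ℤ) (m : ℕ) : Set (Fin h → ZMod m) :=
  {x | ∃ v : Fin h → ℤ, (∀ i, ((v i : ℤ) : ZMod m) = x i) ∧ (m : ℤ) ∣ F v}

lemma mem_Bd {h : ℕ} {F : (Fin h → ℤ) → ℤ} (hF : Cong F) (m : ℕ) (v : Fin h → ℤ) :
    (fun i => ((v i : ℤ) : ZMod m)) ∈ Bd F m ↔ (m : ℤ) ∣ F v := by
  constructor
  · rintro ⟨w, hw, hd⟩
    have h1 : (m : ℤ) ∣ F w - F v := by
      apply hF
      intro i
      have := hw i
      exact (ZMod.intCast_eq_intCast_iff_dvd_sub _ _ _).1 this.symm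
    have := dvd_sub hd h1
    simpa using this
  · intro hd
    exact ⟨v, fun i => rfl, hd⟩

lemma card_Bd {h : ℕ} {F : (Fin h → ℤ) → ℤ} (hF : Cong F) (m : ℕ) [NeZero m] :
    Nat.card (Bd F m) = rho F m := by
  obtain ⟨k, rfl⟩ : ∃ k, m = k + 1 := ⟨m - 1, by have := NeZero.pos m; omega⟩
  unfold rho
  refine Nat.card_congr (Equiv.subtypeEquiv (Equiv.arrowCongr (Equiv.refl _)
    (show ZMod (k + 1) ≃ Fin (k + 1) from Equiv.refl _)) ?_)
  intro v
  have h : (fun i => ((((ZMod.val (v i) : ℕ) : ℤ)) : ZMod (k + 1))) = v := by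
    funext i
    rw [Int.cast_natCast, ZMod.natCast_zmod_val]
  have := mem_Bd hF (k + 1) (fun i => ((ZMod.val (v i) : ℕ) : ℤ))
  rw [h] at this
  exact this

/-- the number of points of the box in a residue class -/
lemma card_class (h M : ℕ) [NeZero M] (x : Fin h → ZMod M) (N : ℕ) :
    (((box h N).filter (fun v => (fun i => (v i : ZMod M)) = x)).card : ℝ) =
      ∏ i, (((Finset.Ioc 0 N).filter (fun n : ℕ => (n : ZMod M) = x i)).card : ℝ) := by
  classical
  rw [← Nat.cast_prod]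
  congr 1
  rw [← Fintype.card_piFinset]
  congr 1
  ext v
  simp only [box, Finset.mem_filter, Fintype.mem_piFinset, funext_iff]
  constructor
  · rintro ⟨h1, h2⟩ i; exact ⟨h1 i, h2 i⟩
  · intro h1; exact ⟨fun i => (h1 i).1, fun i => (h1 i).2⟩

lemma tendsto_class1 (M : ℕ) [NeZero M] (x : ZMod M) :
    Tendsto (fun N : ℕ => ((((Finset.Ioc 0 N).filter (fun n : ℕ => (n : ZMod M) = x)).card : ℝ)) / N)
      atTop (𝓝 (1 / (M : ℝ))) := by
  have h0 : Tendsto (fun N : ℕ => (1 : ℝ) / (N : ℝ)) atTop (𝓝 0) :=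
    tendsto_const_div_atTop_nhds_zero_nat (1 : ℝ)
  rw [tendsto_iff_dist_tendsto_zero]
  refine squeeze_zero' (Eventually.of_forall (fun _ => dist_nonneg)) ?_ h0
  filter_upwards [eventually_gt_atTop 0] with N hN
  have hN' : (0 : ℝ) < N := by exact_mod_cast hN
  have hM : (0 : ℝ) < M := by exact_mod_cast NeZero.pos M
  rw [Real.dist_eq]
  have := Pool.Agent.SQF4.card_res M x N
  have e : ((((Finset.Ioc 0 N).filter (fun n : ℕ => (n : ZMod M) = x)).card : ℝ)) / N - 1 / M =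
      (((((Finset.Ioc 0 N).filter (fun n : ℕ => (n : ZMod M) = x)).card : ℝ)) - (N : ℝ) / M) / N := by
    field_simp
  rw [e, abs_div, abs_of_pos hN']
  exact div_le_div_of_nonneg_right this hN'.le

/-- density of a periodic set -/
lemma dens (h M : ℕ) [NeZero M] (S : Set (Fin h → ZMod M)) :
    Tendsto (fun N : ℕ => (Nat.card {v : Fin h → ℕ // (∀ i, 1 ≤ v i ∧ v i ≤ N) ∧
      (fun i => (v i : ZMod M)) ∈ S} : ℝ) / (N : ℝ) ^ h) atTop
      (𝓝 ((Nat.card S : ℝ) / (M : ℝ) ^ h)) := by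
  classical
  have hcard : ∀ N : ℕ, (Nat.card {v : Fin h → ℕ // (∀ i, 1 ≤ v i ∧ v i ≤ N) ∧
      (fun i => (v i : ZMod M)) ∈ S} : ℝ) =
      ∑ x ∈ S.toFinset, (((box h N).filter (fun v => (fun i => (v i : ZMod M)) = x)).card : ℝ) := by
    intro N
    have h1 : Nat.card {v : Fin h → ℕ // (∀ i, 1 ≤ v i ∧ v i ≤ N) ∧
        (fun i => (v i : ZMod M)) ∈ S} =
        ((box h N).filter (fun v => (fun i => (v i : ZMod M)) ∈ S.toFinset)).card := by
      refine Nat.subtype_card _ ?_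
      intro v
      rw [Finset.mem_filter, mem_box, Set.mem_toFinset]
    rw [h1]
    have h2 := Finset.card_eq_sum_card_fiberwise (s := (box h N).filter
      (fun v => (fun i => (v i : ZMod M)) ∈ S.toFinset)) (t := S.toFinset)
      (f := fun v : Fin h → ℕ => (fun i => (v i : ZMod M)))
      (by intro n hn; exact (Finset.mem_filter.1 hn).2)
    rw [h2]
    push_cast
    refine Finset.sum_congr rfl ?_
    intro x hx
    congr 2
    ext n
    simp only [Finset.mem_filter]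
    constructor
    · rintro ⟨⟨h1, h2⟩, h3⟩; exact ⟨h1, h3⟩
    · rintro ⟨h1, h3⟩; exact ⟨⟨h1, by rw [h3]; exact hx⟩, h3⟩
  have e1 : (Nat.card S : ℝ) / (M : ℝ) ^ h = ∑ x ∈ S.toFinset, ∏ _i : Fin h, (1 / (M : ℝ)) := by
    rw [Finset.sum_const, nsmul_eq_mul, Nat.card_eq_fintype_card, Set.toFinset_card,
      Finset.prod_const, Finset.card_univ, Fintype.card_fin, div_pow, one_pow]
    ring
  rw [e1]
  have e2 : ∀ N : ℕ, (Nat.card {v : Fin h → ℕ // (∀ i, 1 ≤ v i ∧ v i ≤ N) ∧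
      (fun i => (v i : ZMod M)) ∈ S} : ℝ) / (N : ℝ) ^ h =
      ∑ x ∈ S.toFinset, ∏ i : Fin h,
        ((((Finset.Ioc 0 N).filter (fun n : ℕ => (n : ZMod M) = x i)).card : ℝ) / N) := by
    intro N
    rw [hcard N, Finset.sum_div]
    refine Finset.sum_congr rfl ?_
    intro x _
    rw [card_class, Finset.prod_div_distrib, Finset.prod_const, Finset.card_univ, Fintype.card_fin]
  refine Tendsto.congr (fun N => (e2 N).symm) ?_
  refine tendsto_finsetSum _ ?_
  intro x _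
  refine tendsto_finsetProd _ ?_
  intro i _
  exact tendsto_class1 M (x i)

/-- the finite sieve -/
lemma finite_sieve {h : ℕ} {F : (Fin h → ℤ) → ℤ} (hF : Cong F) (s : Finset ℕ) (m : ℕ → ℕ)
    (hm : ∀ p ∈ s, 0 < m p)
    (hco : ∀ p ∈ s, ∀ q ∈ s, p ≠ q → (m p).Coprime (m q)) :
    Tendsto (fun N : ℕ => (Nat.card {v : Fin h → ℕ // (∀ i, 1 ≤ v i ∧ v i ≤ N) ∧
      ∀ p ∈ s, ¬ ((m p : ℕ) : ℤ) ∣ F (fun i => (v i : ℤ))} : ℝ) / (N : ℝ) ^ h) atTop
      (𝓝 (∏ p ∈ s, (1 - (rho F (m p) : ℝ) / (m p : ℝ) ^ h))) := by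
  classical
  let a : s → ℕ := fun p => m p
  have ha : Pairwise (Function.onFun Nat.Coprime a) := by
    intro p q hpq
    exact hco p p.2 q q.2 (fun h => hpq (Subtype.ext h))
  have hpos : ∀ i : s, 0 < a i := fun i => hm i i.2
  have : ∀ i : s, NeZero (a i) := fun i => ⟨(hpos i).ne'⟩
  have hM : NeZero (∏ i, a i) := ⟨(Finset.prod_pos (fun i _ => hpos i)).ne'⟩
  let e := ZMod.prodEquivPi a ha
  let S : Set (Fin h → ZMod (∏ i, a i)) := {x | ∀ i : s, (fun j => e (x j) i) ∉ Bd F (a i)}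
  have hmem : ∀ v : Fin h → ℕ, ((fun j => (v j : ZMod (∏ i, a i))) ∈ S ↔
      ∀ p ∈ s, ¬ ((m p : ℕ) : ℤ) ∣ F (fun i => (v i : ℤ))) := by
    intro v
    have h1 : ∀ (n : ℕ) i, e (n : ZMod (∏ i, a i)) i = (n : ZMod (a i)) := by
      intro n i
      rw [map_natCast]; rfl
    have h2 : ∀ i : s, (fun j => e ((v j : ℕ) : ZMod (∏ i, a i)) i) ∈ Bd F (a i) ↔
        ((m i : ℕ) : ℤ) ∣ F (fun i => (v i : ℤ)) := by
      intro i
      have h3 := mem_Bd hF (a i) (fun j => (v j : ℤ))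
      have h4 : (fun j => e ((v j : ℕ) : ZMod (∏ i, a i)) i) =
          (fun j => (((v j : ℕ) : ℤ) : ZMod (a i))) := by
        funext j
        rw [h1, Int.cast_natCast]
      rw [h4]; exact h3
    constructor
    · intro hx p hp hd
      exact hx ⟨p, hp⟩ ((h2 ⟨p, hp⟩).2 hd)
    · intro hx i hd
      exact hx i i.2 ((h2 i).1 hd)
  have hcardS : (Nat.card S : ℝ) / ((∏ i, a i : ℕ) : ℝ) ^ h =
      ∏ p ∈ s, (1 - (rho F (m p) : ℝ) / (m p : ℝ) ^ h) := by
    have h1 : Nat.card S = ∏ i : s, ((a i) ^ h - rho F (a i)) := by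
      have h2 : Nat.card S = Nat.card (∀ i : s, {x : Fin h → ZMod (a i) // x ∉ Bd F (a i)}) := by
        let E : (Fin h → ZMod (∏ i, a i)) ≃ (∀ i : s, Fin h → ZMod (a i)) :=
          (Equiv.arrowCongr (Equiv.refl (Fin h)) e.toEquiv).trans (Equiv.piComm _)
        refine Nat.card_congr ?_
        refine (Equiv.subtypeEquiv E (q := fun g : (∀ i : s, Fin h → ZMod (a i)) =>
          ∀ i, g i ∉ Bd F (a i)) ?_).trans ?_
        · intro x; rfl
        · exact Equiv.subtypePiEquivPi (p := fun (i : s) (x : Fin h → ZMod (a i)) => x ∉ Bd F (a i))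
      rw [h2, Nat.card_pi]
      refine Finset.prod_congr rfl ?_
      intro i _
      have h3 : Nat.card {x : Fin h → ZMod (a i) // x ∉ Bd F (a i)} + Nat.card (Bd F (a i)) =
          (a i) ^ h := by
        have h4 := Set.ncard_add_ncard_compl (Bd F (a i))
        rw [Nat.card_fun, Nat.card_zmod, Nat.card_fin] at h4
        have h5 : Nat.card {x : Fin h → ZMod (a i) // x ∉ Bd F (a i)} = (Bd F (a i))ᶜ.ncard := by
          rw [← Nat.card_coe_set_eq]; rfl
        rw [h5, Nat.card_coe_set_eq]; omega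
      rw [card_Bd hF] at h3
      omega
    have hle : ∀ i : s, rho F (a i) ≤ (a i) ^ h := by
      intro i
      rw [← card_Bd hF]
      calc Nat.card (Bd F (a i)) ≤ Nat.card (Fin h → ZMod (a i)) :=
            Nat.card_le_card_of_injective _ Subtype.val_injective
        _ = (a i) ^ h := by rw [Nat.card_fun, Nat.card_zmod, Nat.card_fin]
    rw [h1]
    push_cast
    rw [← Finset.prod_pow, ← Finset.prod_div_distrib]
    rw [← Finset.prod_coe_sort s (fun p => (1 - (rho F (m p) : ℝ) / (m p : ℝ) ^ h))]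
    refine Finset.prod_congr rfl ?_
    intro i _
    rw [Nat.cast_sub (hle i)]
    have h6 : (0 : ℝ) < (a i : ℝ) ^ h := by
      have : (0 : ℝ) < (a i : ℝ) := by exact_mod_cast hpos i
      positivity
    push_cast
    rw [sub_div, div_self h6.ne']
  rw [← hcardS]
  have := dens h (∏ i, a i) S
  refine this.congr ?_
  intro N
  congr 2
  refine Nat.card_congr (Equiv.subtypeEquivRight ?_)
  intro n
  rw [hmem n]

/-- the bound for the number of solutions modulo `p ^ 2` -/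
def SqBound {h : ℕ} (F : (Fin h → ℤ) → ℤ) (K z0 : ℕ) : Prop :=
  ∀ p : ℕ, p.Prime → z0 ≤ p → ∀ N : ℕ, p ≤ N →
    (Nat.card {v : Fin h → ℕ // (∀ i, 1 ≤ v i ∧ v i ≤ N) ∧
      (p : ℤ) ^ 2 ∣ F (fun i => (v i : ℤ))} : ℝ) ≤
      K * ((N : ℝ) ^ h * (1 / (p : ℝ) ^ 2) + (N : ℝ) ^ (h - 1))

lemma sieve_bounds {h : ℕ} {F : (Fin h → ℤ) → ℤ} (δ : ℕ) (hδ0 : δ ≠ 0)
    (hδ : ∀ v : Fin h → ℤ, (δ : ℤ) ∣ F v)
    (K z0 z : ℕ) (hz : 1 ≤ z) (hz0 : z0 ≤ z) (hk : SqBound F K z0) (N : ℕ) :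
    ((good F δ N : ℝ) ≤ (Nat.card {v : Fin h → ℕ // (∀ i, 1 ≤ v i ∧ v i ≤ N) ∧
      ∀ p ∈ (Finset.range (z + 1)).filter Nat.Prime,
        ¬ ((p ^ (2 + (δ.factorization p - 1)) : ℕ) : ℤ) ∣ F (fun i => (v i : ℤ))} : ℝ)) ∧
    ((Nat.card {v : Fin h → ℕ // (∀ i, 1 ≤ v i ∧ v i ≤ N) ∧
      ∀ p ∈ (Finset.range (z + 1)).filter Nat.Prime,
        ¬ ((p ^ (2 + (δ.factorization p - 1)) : ℕ) : ℤ) ∣ F (fun i => (v i : ℤ))} : ℝ) ≤
      good F δ N + tail F N + K * ((N : ℝ) ^ h / z + (N : ℝ) ^ (h - 1) * Nat.primeCounting N)) := by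
  classical
  set G := (box h N).filter (fun v =>
    ∀ p : ℕ, p.Prime → ¬ (((p ^ (2 + (δ.factorization p - 1)) : ℕ)) : ℤ) ∣ F (fun i => (v i : ℤ)))
    with hG
  set A := (box h N).filter (fun v => ∀ p ∈ (Finset.range (z + 1)).filter Nat.Prime,
        ¬ ((p ^ (2 + (δ.factorization p - 1)) : ℕ) : ℤ) ∣ F (fun i => (v i : ℤ))) with hA
  set T := (box h N).filter (fun v => ∃ p : ℕ, p.Prime ∧ N < p ∧
    (p : ℤ) ^ 2 ∣ F (fun i => (v i : ℤ))) with hT
  have cG : good F δ N = G.card := by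
    refine Nat.subtype_card _ ?_
    intro n
    rw [hG, Finset.mem_filter, mem_box, Pool.Agent.SQF4.sqf_iff δ hδ0 _ (hδ _)]
  have cA : Nat.card {v : Fin h → ℕ // (∀ i, 1 ≤ v i ∧ v i ≤ N) ∧
      ∀ p ∈ (Finset.range (z + 1)).filter Nat.Prime,
        ¬ ((p ^ (2 + (δ.factorization p - 1)) : ℕ) : ℤ) ∣ F (fun i => (v i : ℤ))} = A.card := by
    refine Nat.subtype_card _ ?_
    intro n
    rw [hA, Finset.mem_filter, mem_box]
  have cT : tail F N = T.card := by
    refine Nat.subtype_card _ ?_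
    intro n
    rw [hT, Finset.mem_filter, mem_box]
  rw [cG, cA, cT]
  constructor
  · exact_mod_cast Finset.card_le_card (by
      intro n hn
      simp only [hG, hA, Finset.mem_filter] at hn ⊢
      exact ⟨hn.1, fun p hp => hn.2 p hp.2⟩)
  · set P := (Finset.Ioc z N).filter Nat.Prime with hP
    have hsub : A ⊆ (G ∪ T) ∪ P.biUnion (fun p => (box h N).filter
        (fun v => (p : ℤ) ^ 2 ∣ F (fun i => (v i : ℤ)))) := by
      intro n hn
      by_cases hg : n ∈ G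
      · exact Finset.mem_union_left _ (Finset.mem_union_left _ hg)
      · have hn1 := (Finset.mem_filter.1 hn)
        have : ∃ p : ℕ, p.Prime ∧
            (((p ^ (2 + (δ.factorization p - 1)) : ℕ)) : ℤ) ∣ F (fun i => (n i : ℤ)) := by
          by_contra hcon
          apply hg
          rw [hG, Finset.mem_filter]
          refine ⟨hn1.1, ?_⟩
          intro p hp hd
          exact hcon ⟨p, hp, hd⟩
        obtain ⟨p, hp, hd⟩ := this
        have hzp : z < p := by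
          by_contra hle
          exact hn1.2 p (Finset.mem_filter.2 ⟨Finset.mem_range.2 (by omega), hp⟩) hd
        have hp2 : (p : ℤ) ^ 2 ∣ F (fun i => (n i : ℤ)) := by
          have : ((p ^ 2 : ℕ) : ℤ) ∣ F (fun i => (n i : ℤ)) :=
            dvd_trans (Int.natCast_dvd_natCast.2 (pow_dvd_pow p (Nat.le_add_right 2 _))) hd
          push_cast at this; exact this
        by_cases hpN : p ≤ N
        · refine Finset.mem_union_right _ (Finset.mem_biUnion.2 ⟨p, ?_, ?_⟩)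
          · exact Finset.mem_filter.2 ⟨Finset.mem_Ioc.2 ⟨hzp, hpN⟩, hp⟩
          · exact Finset.mem_filter.2 ⟨hn1.1, hp2⟩
        · refine Finset.mem_union_left _ (Finset.mem_union_right _ ?_)
          exact Finset.mem_filter.2 ⟨hn1.1, p, hp, by omega, hp2⟩
    have h1 : A.card ≤ G.card + T.card + ∑ p ∈ P, ((box h N).filter
        (fun v => (p : ℤ) ^ 2 ∣ F (fun i => (v i : ℤ)))).card := by
      refine (Finset.card_le_card hsub).trans ?_
      refine (Finset.card_union_le _ _).trans ?_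
      exact add_le_add (Finset.card_union_le _ _) Finset.card_biUnion_le
    have h2 : (∑ p ∈ P, (((box h N).filter
        (fun v => (p : ℤ) ^ 2 ∣ F (fun i => (v i : ℤ)))).card : ℝ)) ≤
        ∑ p ∈ P, ((K : ℝ) * ((N : ℝ) ^ h * (1 / (p : ℝ) ^ 2) + (N : ℝ) ^ (h - 1))) := by
      refine Finset.sum_le_sum ?_
      intro p hp
      have hp' := Finset.mem_filter.1 hp
      have hp2 := Finset.mem_Ioc.1 hp'.1
      have h3 := hk p hp'.2 (by omega) N hp2.2
      have h4 : Nat.card {v : Fin h → ℕ // (∀ i, 1 ≤ v i ∧ v i ≤ N) ∧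
          (p : ℤ) ^ 2 ∣ F (fun i => (v i : ℤ))} =
          ((box h N).filter (fun v => (p : ℤ) ^ 2 ∣ F (fun i => (v i : ℤ)))).card := by
        refine Nat.subtype_card _ ?_
        intro n
        rw [Finset.mem_filter, mem_box]
      rw [h4] at h3
      exact h3
    have h7 : ∑ p ∈ P, ((K : ℝ) * ((N : ℝ) ^ h * (1 / (p : ℝ) ^ 2) + (N : ℝ) ^ (h - 1))) ≤
        K * ((N : ℝ) ^ h / z + (N : ℝ) ^ (h - 1) * Nat.primeCounting N) := by
      rw [← Finset.mul_sum, Finset.sum_add_distrib, ← Finset.mul_sum]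
      refine mul_le_mul_of_nonneg_left ?_ (by positivity)
      refine add_le_add ?_ ?_
      · have h8 : ∑ p ∈ P, (1 : ℝ) / (p : ℝ) ^ 2 ≤ ∑ p ∈ Finset.Ioc z N, (1 : ℝ) / (p : ℝ) ^ 2 :=
          Finset.sum_le_sum_of_subset_of_nonneg (Finset.filter_subset _ _) (fun _ _ _ => by positivity)
        have h9 := h8.trans (Pool.Agent.SQF4.sum_inv_sq_le z N hz)
        calc (N : ℝ) ^ h * ∑ p ∈ P, (1 : ℝ) / (p : ℝ) ^ 2 ≤ (N : ℝ) ^ h * (1 / z) :=
              mul_le_mul_of_nonneg_left h9 (by positivity)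
          _ = (N : ℝ) ^ h / z := by ring
      · rw [Finset.sum_const, nsmul_eq_mul]
        have h8 : P.card ≤ Nat.primeCounting N := by
          rw [Nat.primeCounting, Nat.primeCounting', Nat.count_eq_card_filter_range]
          refine Finset.card_le_card ?_
          intro p hp
          have hp' := Finset.mem_filter.1 hp
          have hp2 := Finset.mem_Ioc.1 hp'.1
          exact Finset.mem_filter.2 ⟨Finset.mem_range.2 (by omega), hp'.2⟩
        rw [mul_comm]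
        exact mul_le_mul_of_nonneg_left (by exact_mod_cast h8) (by positivity)
    have h1' : (A.card : ℝ) ≤ G.card + T.card + ∑ p ∈ P, (((box h N).filter
        (fun v => (p : ℤ) ^ 2 ∣ F (fun i => (v i : ℤ)))).card : ℝ) := by exact_mod_cast h1
    linarith

/-- residue classes modulo `p ^ 2` -/
lemma rho_le {h : ℕ} {F : (Fin h → ℤ) → ℤ} (hF : Cong F) (K z0 : ℕ) (hk : SqBound F K z0)
    (p : ℕ) (hp : p.Prime) (hpz : z0 ≤ p) :
    (rho F (p ^ 2) : ℝ) ≤
      K * (((p : ℝ) ^ 2) ^ h * (1 / (p : ℝ) ^ 2) + ((p : ℝ) ^ 2) ^ (h - 1)) := by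
  classical
  have hp0 : (0 : ℝ) < p := by exact_mod_cast hp.pos
  have h1 := hk p hp hpz (p ^ 2) (by nlinarith [hp.two_le])
  have hfin : Finite {v : Fin h → ℕ // (∀ i, 1 ≤ v i ∧ v i ≤ p ^ 2) ∧
      (p : ℤ) ^ 2 ∣ F (fun i => (v i : ℤ))} := by
    refine Set.Finite.subset (s := ((box h (p ^ 2) : Finset (Fin h → ℕ)) : Set (Fin h → ℕ)))
      (Finset.finite_toSet _) ?_
    intro v hv
    exact mem_box.2 hv.1
  set g : ℕ → ℕ := fun n => if n = 0 then p ^ 2 else n with hg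
  have hg1 : ∀ n : ℕ, n < p ^ 2 → 1 ≤ g n ∧ g n ≤ p ^ 2 := by
    intro n hn
    have := pow_pos hp.pos 2
    rcases Nat.eq_zero_or_pos n with h0 | h0
    · simp only [hg, h0, if_true]; omega
    · simp only [hg, h0.ne', if_false]; omega
  have hg2 : ∀ n : ℕ, ((p ^ 2 : ℕ) : ℤ) ∣ (g n : ℤ) - (n : ℤ) := by
    intro n
    rcases Nat.eq_zero_or_pos n with h0 | h0
    · simp only [hg, h0, if_true]; simp
    · simp only [hg, h0.ne', if_false]; simp
  have hg3 : ∀ n m : ℕ, n < p ^ 2 → m < p ^ 2 → g n = g m → n = m := by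
    intro n m hn hm hnm
    simp only [hg] at hnm
    split_ifs at hnm <;> omega
  have h2 : rho F (p ^ 2) ≤ Nat.card {v : Fin h → ℕ // (∀ i, 1 ≤ v i ∧ v i ≤ p ^ 2) ∧
      (p : ℤ) ^ 2 ∣ F (fun i => (v i : ℤ))} := by
    unfold rho
    refine Nat.card_le_card_of_injective
      (fun v => (⟨fun i => g (v.1 i : ℕ), fun i => hg1 _ (v.1 i).2, ?_⟩ : {v : Fin h → ℕ //
        (∀ i, 1 ≤ v i ∧ v i ≤ p ^ 2) ∧ (p : ℤ) ^ 2 ∣ F (fun i => (v i : ℤ))})) ?_
    · have h3 := hF ((p ^ 2 : ℕ) : ℤ) (fun i => ((g (v.1 i : ℕ) : ℕ) : ℤ))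
        (fun i => (((v.1 i : ℕ)) : ℤ)) (fun i => hg2 _)
      have h4 := dvd_add h3 v.2
      rw [sub_add_cancel] at h4
      push_cast at h4
      exact h4
    · intro v w hvw
      apply Subtype.ext
      funext i
      apply Fin.ext
      have h3 := congrArg (fun z : {v : Fin h → ℕ //
        (∀ i, 1 ≤ v i ∧ v i ≤ p ^ 2) ∧ (p : ℤ) ^ 2 ∣ F (fun i => (v i : ℤ))} => z.1 i) hvw
      exact hg3 _ _ (v.1 i).2 (w.1 i).2 h3
  have h3 : (rho F (p ^ 2) : ℝ) ≤ (Nat.card {v : Fin h → ℕ // (∀ i, 1 ≤ v i ∧ v i ≤ p ^ 2) ∧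
      (p : ℤ) ^ 2 ∣ F (fun i => (v i : ℤ))} : ℝ) := by exact_mod_cast h2
  refine h3.trans ?_
  push_cast at h1
  exact h1

/-- convergence of the Euler product -/
lemma loc_multipliable {h : ℕ} (hh : 1 ≤ h) {F : (Fin h → ℤ) → ℤ} (hF : Cong F)
    (δ : ℕ) (hδ0 : δ ≠ 0) (K z0 z : ℕ) (hzδ : δ ≤ z) (hz0 : z0 ≤ z) (hk : SqBound F K z0) :
    Multipliable (fun p : Nat.Primes => loc F δ p) := by
  have hs : Summable (fun p : Nat.Primes =>
      -((rho F ((p : ℕ) ^ (2 + (δ.factorization p - 1))) : ℝ) /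
        (((p : ℕ) : ℝ) ^ (h * (2 + (δ.factorization p - 1)))))) := by
    have h0 : Summable (fun p : Nat.Primes => ((2 * K : ℝ) + z ^ 2) * (1 / (((p : ℕ) : ℝ) ^ 2))) := by
      refine Summable.mul_left _ ?_
      have h1 : Summable (fun n : ℕ => 1 / ((n : ℝ) ^ 2)) :=
        Real.summable_one_div_nat_pow.2 (by norm_num)
      exact h1.comp_injective (i := fun p : Nat.Primes => (p : ℕ)) Subtype.val_injective
    refine Summable.of_norm_bounded h0 ?_
    intro p
    have hp := p.2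
    have hp0 : (0 : ℝ) < ((p : ℕ) : ℝ) := by exact_mod_cast hp.pos
    rw [norm_neg, Real.norm_of_nonneg (by positivity)]
    rcases le_or_gt (p : ℕ) z with hle | hgt
    · have : NeZero ((p : ℕ) ^ (2 + (δ.factorization p - 1))) := ⟨(pow_pos hp.pos _).ne'⟩
      have h1 : rho F ((p : ℕ) ^ (2 + (δ.factorization p - 1))) ≤
          ((p : ℕ) ^ (2 + (δ.factorization p - 1))) ^ h := by
        rw [← card_Bd hF]
        calc Nat.card (Bd F _) ≤ Nat.card (Fin h → ZMod _) :=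
              Nat.card_le_card_of_injective _ Subtype.val_injective
          _ = _ := by rw [Nat.card_fun, Nat.card_zmod, Nat.card_fin]
      have h2 : (rho F ((p : ℕ) ^ (2 + (δ.factorization p - 1))) : ℝ) /
        (((p : ℕ) : ℝ) ^ (h * (2 + (δ.factorization p - 1)))) ≤ 1 := by
        rw [div_le_one (by positivity), mul_comm h, pow_mul]
        exact_mod_cast h1
      refine h2.trans ?_
      rw [mul_one_div, le_div_iff₀ (by positivity), one_mul]
      have h3 : ((p : ℕ) : ℝ) ≤ z := by exact_mod_cast hle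
      have h4 : ((p : ℕ) : ℝ) ^ 2 ≤ (z : ℝ) ^ 2 := pow_le_pow_left₀ hp0.le h3 2
      have : (0 : ℝ) ≤ K := by positivity
      linarith
    · have hf : δ.factorization p = 0 := by
        apply Nat.factorization_eq_zero_of_not_dvd
        intro h
        have := Nat.le_of_dvd (Nat.pos_of_ne_zero hδ0) h
        omega
      rw [hf]
      have h1 := rho_le hF K z0 hk p hp (by omega)
      rw [mul_one_div]
      have e1 : (((p : ℕ) : ℝ) ^ (h * (2 + (0 - 1)))) = (((p : ℕ) : ℝ) ^ 2) ^ h := by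
        rw [← pow_mul]; congr 1; simp [mul_comm]
      have e2 : (p : ℕ) ^ (2 + (0 - 1)) = (p : ℕ) ^ 2 := rfl
      rw [e1, e2, div_le_div_iff₀ (by positivity) (by positivity)]
      obtain ⟨j, rfl⟩ : ∃ j, h = j + 1 := ⟨h - 1, by omega⟩
      have e3 : (j + 1 - 1 : ℕ) = j := by omega
      rw [e3] at h1
      set P : ℝ := ((p : ℕ) : ℝ) ^ 2 with hP
      have hP0 : 0 < P := by positivity
      have h2 : (rho F ((p : ℕ) ^ 2) : ℝ) * P ≤ K * (P ^ (j + 1) * (1 / P) + P ^ j) * P :=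
        mul_le_mul_of_nonneg_right h1 hP0.le
      have e4 : K * (P ^ (j + 1) * (1 / P) + P ^ j) * P = 2 * K * P ^ (j + 1) := by
        field_simp
        ring
      rw [e4] at h2
      refine h2.trans ?_
      refine mul_le_mul_of_nonneg_right ?_ (by positivity)
      have : (0 : ℝ) ≤ (z : ℝ) ^ 2 := by positivity
      linarith
  have := Real.multipliable_one_add_of_summable hs
  refine this.congr ?_
  intro p
  unfold loc
  ring

/-- **Reduction.** The tail bound gives the density. -/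
theorem density_of_tail {h : ℕ} (hh : 1 ≤ h) {F : (Fin h → ℤ) → ℤ} (hF : Cong F)
    (K z1 : ℕ) (hk : SqBound F K z1) (δ : ℕ)
    (hδ : ∀ n : ℤ, (∀ v : Fin h → ℤ, n ∣ F v) ↔ n ∣ (δ : ℤ)) (hF0 : ∃ v, F v ≠ 0)
    (htail : Tendsto (fun N : ℕ => (tail F N : ℝ) / (N : ℝ) ^ h) atTop (𝓝 0)) :
    Tendsto (fun N : ℕ => (good F δ N : ℝ) / (N : ℝ) ^ h) atTop
      (𝓝 (∏' p : Nat.Primes, loc F δ p)) := by
  classical
  have hdvd : ∀ v : Fin h → ℤ, (δ : ℤ) ∣ F v := (hδ δ).2 dvd_rfl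
  have hδ0 : δ ≠ 0 := by
    intro h0
    obtain ⟨v, hv⟩ := hF0
    have := hdvd v
    rw [h0] at this
    apply hv
    simpa using this
  set z0 := max δ z1 + 1 with hz0
  have hmul := loc_multipliable hh hF δ hδ0 K z1 z0 (by omega) (by omega) hk
  have hprod : Tendsto (fun z : ℕ => ∏ p ∈ (Finset.range (z + 1)).filter Nat.Prime, loc F δ p) atTop
      (𝓝 (∏' p : Nat.Primes, loc F δ p)) := by
    have h1 : Tendsto (fun s : Finset Nat.Primes => ∏ p ∈ s, loc F δ p) atTop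
        (𝓝 (∏' p : Nat.Primes, loc F δ p)) := hmul.hasProd
    have h2 : Tendsto (fun z : ℕ => (Finset.range (z + 1)).subtype Nat.Prime) atTop
        (atTop : Filter (Finset {p : ℕ // p.Prime})) := by
      refine tendsto_atTop_finset_of_monotone ?_ ?_
      · intro i j hij x hx
        rw [Finset.mem_subtype, Finset.mem_range] at hx ⊢
        omega
      · intro x
        exact ⟨(x : ℕ), by rw [Finset.mem_subtype, Finset.mem_range]; omega⟩
    have h3 := h1.comp h2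
    refine h3.congr ?_
    intro z
    simp only [Function.comp]
    exact Finset.prod_subtype_eq_prod_filter (s := Finset.range (z + 1)) (fun p => loc F δ p)
  rw [Metric.tendsto_atTop]
  intro ε hε
  obtain ⟨y1, hy1⟩ := (Metric.tendsto_atTop.1 hprod) (ε / 4) (by linarith)
  obtain ⟨y2, hy2⟩ := exists_nat_gt ((K : ℝ) / (ε / 4))
  set z := max (max z0 y1) (y2 + 1) with hz
  have hzz0 : z0 ≤ z := (le_max_left _ _).trans (le_max_left _ _)
  have hzz1 : y1 ≤ z := (le_max_right _ _).trans (le_max_left _ _)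
  have hzz2 : y2 + 1 ≤ z := le_max_right _ _
  have hzpos : (0 : ℝ) < z := by
    have : 0 < z := by omega
    exact_mod_cast this
  have hkz : (K : ℝ) / z < ε / 4 := by
    rw [div_lt_iff₀ hzpos]
    have h1 : (y2 : ℝ) ≤ z := by
      have : y2 ≤ z := by omega
      exact_mod_cast this
    have h2 := (div_lt_iff₀ (by linarith : (0 : ℝ) < ε / 4)).1 hy2
    nlinarith
  have hfs := finite_sieve hF ((Finset.range (z + 1)).filter Nat.Prime)
    (fun p => p ^ (2 + (δ.factorization p - 1)))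
    (fun p hp => pow_pos (Finset.mem_filter.1 hp).2.pos _)
    (fun p hp q hq hpq => Nat.Coprime.pow _ _
      ((Nat.coprime_primes (Finset.mem_filter.1 hp).2 (Finset.mem_filter.1 hq).2).2 hpq))
  have hPz : ∏ p ∈ (Finset.range (z + 1)).filter Nat.Prime,
      (1 - (rho F (p ^ (2 + (δ.factorization p - 1))) : ℝ) /
        ((p ^ (2 + (δ.factorization p - 1)) : ℕ) : ℝ) ^ h) =
      ∏ p ∈ (Finset.range (z + 1)).filter Nat.Prime, loc F δ p := by
    refine Finset.prod_congr rfl ?_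
    intro p _
    unfold loc
    push_cast
    rw [← pow_mul, mul_comm h]
  rw [hPz] at hfs
  have herr : Tendsto (fun N : ℕ => (tail F N : ℝ) / (N : ℝ) ^ h +
      K * ((Nat.primeCounting N : ℝ) / N)) atTop (𝓝 0) := by
    simpa using htail.add (Pool.Agent.SQF4.pi_div_tendsto.const_mul (K : ℝ))
  obtain ⟨N1, hN1⟩ := (Metric.tendsto_atTop.1 hfs) (ε / 4) (by linarith)
  obtain ⟨N2, hN2⟩ := (Metric.tendsto_atTop.1 herr) (ε / 4) (by linarith)
  refine ⟨max (max N1 N2) 1, ?_⟩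
  intro N hN
  have hNN1 : N1 ≤ N := ((le_max_left _ _).trans (le_max_left _ _)).trans hN
  have hNN2 : N2 ≤ N := ((le_max_right _ _).trans (le_max_left _ _)).trans hN
  have hN0 : 0 < N := lt_of_lt_of_le one_pos ((le_max_right _ _).trans hN)
  have hN0' : (0 : ℝ) < N := by exact_mod_cast hN0
  have e1 := hN1 N hNN1
  have e2 := hN2 N hNN2
  have e3 := hy1 z hzz1
  obtain ⟨e4, e5⟩ := sieve_bounds δ hδ0 hdvd K z1 z (by omega) (by omega) hk N
  rw [Real.dist_eq] at e1 e2 e3 ⊢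
  rw [abs_lt] at e1 e3 ⊢
  have e2' := (abs_lt.1 e2).2
  rw [sub_zero] at e2'
  set A : ℝ := (Nat.card {v : Fin h → ℕ // (∀ i, 1 ≤ v i ∧ v i ≤ N) ∧
      ∀ p ∈ (Finset.range (z + 1)).filter Nat.Prime,
        ¬ ((p ^ (2 + (δ.factorization p - 1)) : ℕ) : ℤ) ∣ F (fun i => (v i : ℤ))} : ℝ)
  set P : ℝ := ∏ p ∈ (Finset.range (z + 1)).filter Nat.Prime, loc F δ p
  set L : ℝ := ∏' p : Nat.Primes, loc F δ p
  have hNh : (0 : ℝ) < (N : ℝ) ^ h := by positivity
  have e6 : (good F δ N : ℝ) / (N : ℝ) ^ h ≤ A / (N : ℝ) ^ h :=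
    div_le_div_of_nonneg_right e4 hNh.le
  have e7 : A / (N : ℝ) ^ h ≤ (good F δ N : ℝ) / (N : ℝ) ^ h + ((tail F N : ℝ) / (N : ℝ) ^ h +
      K * ((Nat.primeCounting N : ℝ) / N)) + K / z := by
    have := div_le_div_of_nonneg_right e5 hNh.le
    refine this.trans (le_of_eq ?_)
    obtain ⟨j, rfl⟩ : ∃ j, h = j + 1 := ⟨h - 1, by omega⟩
    have e3 : (j + 1 - 1 : ℕ) = j := by omega
    rw [e3]
    field_simp
    ring
  constructor
  · linarith [e1.1, e3.1]
  · linarith [e1.2, e3.2]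

end Pool.Agent.SQF2
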