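import Mathlib
import Pool.Agent.Lib.SQF2.EnergyQ
import Pool.Agent.Lib.SQF2.PTail
import Pool.Agent.Lib.SQF2.Sieve

/-!
# SQF2: tails of composed polynomials

`ts_energy`: if `q` takes values of size `O(N²)` on the box, has energy `O(N² log N)`, and the tail
of `g` has a power saving, then the tail of `g(q(x, y))` is small.
`ts_linear`: the same for `q` linear.
-/

set_option autoImplicit false

open Polynomial Filter Topology

namespace Pool.Agent.SQF2

open Pool.Agent.Lib.SQF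

/-- the box in `ℤ × ℤ` -/
noncomputable def bx (N : ℕ) : Finset (ℤ × ℤ) := (Finset.Icc 1 (N : ℤ)) ×ˢ (Finset.Icc 1 (N : ℤ))

lemma mem_bx {N : ℕ} {x y : ℤ} : (x, y) ∈ bx N ↔ (1 ≤ x ∧ x ≤ N) ∧ (1 ≤ y ∧ y ≤ N) := by
  rw [bx, Finset.mem_product, Finset.mem_Icc, Finset.mem_Icc]

/-- the tail is bounded by any finite set which contains it -/
lemma tail_le_card (F : (Fin 2 → ℤ) → ℤ) (N : ℕ) (S : Finset (ℤ × ℤ))
    (h : ∀ v : Fin 2 → ℤ, (∀ i, 1 ≤ v i ∧ v i ≤ N) →
      (∃ p : ℕ, p.Prime ∧ N < p ∧ (p : ℤ) ^ 2 ∣ F v) → (v 0, v 1) ∈ S) :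
    tail F N ≤ S.card := by
  classical
  unfold tail
  have h1 : Nat.card S = S.card := by rw [Nat.card_eq_fintype_card, Fintype.card_coe]
  rw [← h1]
  refine Nat.card_le_card_of_injective (fun v => ⟨(((v.1 0 : ℕ) : ℤ), ((v.1 1 : ℕ) : ℤ)),
    h (fun i => ((v.1 i : ℕ) : ℤ)) (fun i => ?_) v.2.2⟩) ?_
  · have := v.2.1 i
    exact ⟨by exact_mod_cast this.1, by exact_mod_cast this.2⟩
  · intro v w hvw
    have h2 := congrArg (fun z : S => z.1) hvw
    simp only [Prod.mk.injEq] at h2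
    apply Subtype.ext
    funext i
    fin_cases i
    · exact_mod_cast h2.1
    · exact_mod_cast h2.2

/-- **Cauchy**: points with values in a finite set -/
lemma card_values (q : ℤ → ℤ → ℤ) (N : ℕ) (S : Finset ℤ) :
    (((bx N).filter (fun v => q v.1 v.2 ∈ S)).card : ℝ) ^ 2 ≤ (S.card : ℝ) * ((en q N).card : ℝ) := by
  classical
  set r : ℤ → Finset (ℤ × ℤ) := fun n => (bx N).filter (fun v => q v.1 v.2 = n) with hr
  have h1 : ((bx N).filter (fun v => q v.1 v.2 ∈ S)).card = ∑ n ∈ S, (r n).card := by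
    rw [Finset.card_eq_sum_card_fiberwise (f := fun v : ℤ × ℤ => q v.1 v.2) (t := S)
      (by intro v hv; exact (Finset.mem_filter.1 hv).2)]
    refine Finset.sum_congr rfl fun n hn => ?_
    congr 1
    ext v
    simp only [hr, Finset.mem_filter]
    constructor
    · rintro ⟨⟨h2, _⟩, h3⟩
      exact ⟨h2, h3⟩
    · rintro ⟨h2, h3⟩
      exact ⟨⟨h2, by rw [h3]; exact hn⟩, h3⟩
  have h2 : ∑ n ∈ S, ((r n).card) ^ 2 ≤ (en q N).card := by
    have h3 : ∑ n ∈ S, ((r n).card) ^ 2 = (S.sigma (fun n => (r n) ×ˢ (r n))).card := by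
      rw [Finset.card_sigma]
      refine Finset.sum_congr rfl fun n _ => ?_
      rw [Finset.card_product, sq]
    rw [h3]
    refine Finset.card_le_card_of_injOn (fun z => (z.2.1.1, z.2.1.2, z.2.2.1, z.2.2.2)) ?_ ?_
    · rintro ⟨n, ⟨x, y⟩, ⟨x', y'⟩⟩ hz
      rw [Finset.mem_coe, Finset.mem_sigma, Finset.mem_product] at hz
      obtain ⟨_, hz1, hz2⟩ := hz
      simp only [hr, Finset.mem_filter] at hz1 hz2
      rw [mem_bx] at hz1 hz2
      simp only
      rw [Finset.mem_coe, mem_en]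
      exact ⟨⟨hz1.1.1, hz1.1.2, hz2.1.1, hz2.1.2⟩, hz1.2.trans hz2.2.symm⟩
    · rintro ⟨n, ⟨x, y⟩, ⟨x', y'⟩⟩ hz ⟨m, ⟨z, w⟩, ⟨z', w'⟩⟩ hw h
      rw [Finset.mem_coe, Finset.mem_sigma, Finset.mem_product] at hz hw
      simp only [Prod.mk.injEq] at h
      obtain ⟨e1, e2, e3, e4⟩ := h
      subst e1 e2 e3 e4
      have hz1 := (Finset.mem_filter.1 hz.2.1).2
      have hw1 := (Finset.mem_filter.1 hw.2.1).2
      have : n = m := by
        simp only at hz1 hw1
        rw [← hz1, ← hw1]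
      subst this
      rfl
  rw [h1]
  push_cast
  refine (sq_sum_le_card_mul_sum_sq).trans ?_
  refine mul_le_mul_of_nonneg_left ?_ (Nat.cast_nonneg _)
  exact_mod_cast h2

/-- integers in `[-T, T]` with `p² ∣ g(n)` -/
lemma count_int (g a b : ℤ[X]) (R : ℤ) (h : a * g + b * derivative g = C R) (p : ℕ)
    (hp : p.Prime) (hpR : ¬ (p : ℤ) ∣ R) (T : ℕ) :
    (((Finset.Icc (-(T : ℤ)) T).filter (fun n => (p : ℤ) ^ 2 ∣ g.eval n)).card : ℝ) ≤
      g.natDegree * (((2 * T + 1 : ℕ) : ℝ) / (p : ℝ) ^ 2 + 1) := by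
  classical
  set s : ℤ[X] := X - C ((T : ℤ) + 1) with hs
  set f : ℤ[X] := g.comp s with hf
  have hfd : f.natDegree = g.natDegree := by
    rw [hf, natDegree_comp, hs, natDegree_X_sub_C, mul_one]
  have hB : (a.comp s) * f + (b.comp s) * derivative f = C R := by
    have h1 : derivative f = (derivative g).comp s := by
      rw [hf, derivative_comp, hs]
      simp
    rw [h1, hf, ← mul_comp, ← mul_comp, ← add_comp, h, C_comp]
  have h1 := Pool.Agent.SQF4.rho_sq_le f (a.comp s) (b.comp s) R hB p hp hpR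
  have h2 := Pool.Agent.SQF4.count_le f (p ^ 2) (pow_pos hp.pos 2) (2 * T + 1)
  have h3 : ((Finset.Icc (-(T : ℤ)) T).filter (fun n => (p : ℤ) ^ 2 ∣ g.eval n)).card ≤
      Nat.card {n : ℕ // 1 ≤ n ∧ n ≤ 2 * T + 1 ∧ ((p ^ 2 : ℕ) : ℤ) ∣ f.eval (n : ℤ)} := by
    have h4 : Nat.card ((Finset.Icc (-(T : ℤ)) T).filter (fun n => (p : ℤ) ^ 2 ∣ g.eval n)) =
        ((Finset.Icc (-(T : ℤ)) T).filter (fun n => (p : ℤ) ^ 2 ∣ g.eval n)).card := by
      rw [Nat.card_eq_fintype_card, Fintype.card_coe]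
    rw [← h4]
    have hfin : Finite {n : ℕ // 1 ≤ n ∧ n ≤ 2 * T + 1 ∧ ((p ^ 2 : ℕ) : ℤ) ∣ f.eval (n : ℤ)} :=
      Set.Finite.to_subtype ((Set.finite_Icc 1 (2 * T + 1)).subset (fun n hn => ⟨hn.1, hn.2.1⟩))
    refine Nat.card_le_card_of_injective (fun n => ⟨(n.1 + T + 1).toNat, ?_⟩) ?_
    · have hn := Finset.mem_filter.1 n.2
      have hn1 := Finset.mem_Icc.1 hn.1
      have e : (((n.1 + T + 1).toNat : ℕ) : ℤ) = n.1 + T + 1 := Int.toNat_of_nonneg (by omega)
      refine ⟨by omega, by omega, ?_⟩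
      rw [e, hf, eval_comp, hs]
      simp only [eval_sub, eval_X, eval_C]
      have e2 : n.1 + (T : ℤ) + 1 - ((T : ℤ) + 1) = n.1 := by ring
      rw [e2]
      push_cast
      exact hn.2
    · intro n m hnm
      have hn1 := Finset.mem_Icc.1 (Finset.mem_filter.1 n.2).1
      have hm1 := Finset.mem_Icc.1 (Finset.mem_filter.1 m.2).1
      have e := congrArg (fun z => z.1) hnm
      simp only at e
      apply Subtype.ext
      omega
  have h5 : (((Finset.Icc (-(T : ℤ)) T).filter (fun n => (p : ℤ) ^ 2 ∣ g.eval n)).card : ℝ) ≤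
      (Nat.card {n : ℕ // 1 ≤ n ∧ n ≤ 2 * T + 1 ∧ ((p ^ 2 : ℕ) : ℤ) ∣ f.eval (n : ℤ)} : ℝ) := by
    exact_mod_cast h3
  refine (h5.trans h2).trans ?_
  have h6 : (Pool.Agent.SQF4.rho f (p ^ 2) : ℝ) ≤ g.natDegree := by
    rw [← hfd]; exact_mod_cast h1
  push_cast
  refine mul_le_mul_of_nonneg_right h6 (by positivity)

lemma log_decay (s : ℝ) (hs : 0 < s) :
    Tendsto (fun N : ℕ => (1 + Real.log N) * (N : ℝ) ^ (-s)) atTop (𝓝 0) := by
  have h1 : Tendsto (fun x : ℝ => Real.log x / x ^ s) atTop (𝓝 0) :=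
    (isLittleO_log_rpow_atTop hs).tendsto_div_nhds_zero
  have h2 : Tendsto (fun x : ℝ => x ^ (-s)) atTop (𝓝 0) := tendsto_rpow_neg_atTop hs
  have h3 := (h2.add h1).comp (tendsto_natCast_atTop_atTop (R := ℝ))
  rw [add_zero] at h3
  refine h3.congr fun N => ?_
  simp only [Function.comp]
  rw [Real.rpow_neg (Nat.cast_nonneg N)]
  ring

/-- small primes -/
lemma S1_bound (g a b : ℤ[X]) (R : ℤ) (hR : R ≠ 0) (h : a * g + b * derivative g = C R)
    (N T z : ℕ) (hN : 1 ≤ N) (hNR : R.natAbs ≤ N) (S : Finset ℤ)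
    (hS : ∀ n ∈ S, (-(T : ℤ) ≤ n ∧ n ≤ T) ∧ ∃ p : ℕ, p.Prime ∧ N < p ∧ p ≤ z ∧
      (p : ℤ) ^ 2 ∣ g.eval n) :
    (S.card : ℝ) ≤ g.natDegree * (((2 * T + 1 : ℕ) : ℝ) / (N : ℝ) + Nat.primeCounting z) := by
  classical
  set P := (Finset.Ioc N z).filter Nat.Prime with hP
  have hsub : S ⊆ P.biUnion (fun p => (Finset.Icc (-(T : ℤ)) T).filter
        (fun n => (p : ℤ) ^ 2 ∣ g.eval n)) := by
    intro n hn
    obtain ⟨h1, p, hp, h2, h3, h4⟩ := hS n hn
    rw [Finset.mem_biUnion]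
    exact ⟨p, Finset.mem_filter.2 ⟨Finset.mem_Ioc.2 ⟨h2, h3⟩, hp⟩,
      Finset.mem_filter.2 ⟨Finset.mem_Icc.2 h1, h4⟩⟩
  have h1 := (Finset.card_le_card hsub).trans Finset.card_biUnion_le
  have h2 : ∀ p ∈ P, (((Finset.Icc (-(T : ℤ)) T).filter
        (fun n => (p : ℤ) ^ 2 ∣ g.eval n)).card : ℝ) ≤
      g.natDegree * (((2 * T + 1 : ℕ) : ℝ) * (1 / (p : ℝ) ^ 2) + 1) := by
    intro p hp
    rw [hP, Finset.mem_filter, Finset.mem_Ioc] at hp
    have hpR : ¬ (p : ℤ) ∣ R := by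
      intro hd
      have := Nat.le_of_dvd (Int.natAbs_pos.2 hR) (Int.natCast_dvd.1 hd)
      omega
    refine (count_int g a b R h p hp.2 hpR T).trans (le_of_eq ?_)
    ring
  have h4 : (S.card : ℝ) ≤ ∑ p ∈ P, (((Finset.Icc (-(T : ℤ)) T).filter
        (fun n => (p : ℤ) ^ 2 ∣ g.eval n)).card : ℝ) := by exact_mod_cast h1
  refine h4.trans ((Finset.sum_le_sum h2).trans ?_)
  rw [← Finset.mul_sum, Finset.sum_add_distrib, ← Finset.mul_sum]
  refine mul_le_mul_of_nonneg_left ?_ (Nat.cast_nonneg _)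
  refine add_le_add ?_ ?_
  · rw [div_eq_mul_one_div]
    refine mul_le_mul_of_nonneg_left ?_ (Nat.cast_nonneg _)
    refine le_trans ?_ (Pool.Agent.SQF4.sum_inv_sq_le N z hN)
    refine Finset.sum_le_sum_of_subset_of_nonneg (Finset.filter_subset _ _) ?_
    intro i _ _
    positivity
  · rw [Finset.sum_const, nsmul_eq_mul, mul_one]
    have : P.card ≤ Nat.primeCounting z := by
      rw [← Nat.primesLE_card_eq_primeCounting]
      refine Finset.card_le_card ?_
      intro p hp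
      rw [hP, Finset.mem_filter, Finset.mem_Ioc] at hp
      rw [Nat.mem_primesLE]
      exact ⟨hp.1.2, hp.2⟩
    exact_mod_cast this

/-- the number of primes up to `N² / L` -/
lemma pi_bound (N L : ℕ) (hN : 2 ≤ N) (hL : 1 ≤ L) (hLN : L ≤ N) :
    (Nat.primeCounting (N ^ 2 / L) : ℝ) ≤
      2 * Real.log 4 * ((N : ℝ) ^ 2 / L) / Real.log N + N := by
  have hN0 : (0 : ℝ) < N := by positivity
  have hL0 : (0 : ℝ) < L := by exact_mod_cast hL
  have hLN' : (L : ℝ) ≤ N := by exact_mod_cast hLN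
  have hx : (N : ℝ) ≤ (N : ℝ) ^ 2 / L := by
    rw [le_div_iff₀ hL0]
    nlinarith
  have hN2 : (2 : ℝ) ≤ N := by exact_mod_cast hN
  have hx1 : 1 < (N : ℝ) ^ 2 / L := by linarith
  have h1 := Chebyshev.pi_le_log4_mul_div hx1
  have h2 : ⌊(N : ℝ) ^ 2 / L⌋₊ = N ^ 2 / L := by
    have : (N : ℝ) ^ 2 / L = ((N ^ 2 : ℕ) : ℝ) / ((L : ℕ) : ℝ) := by push_cast; rfl
    rw [this, Nat.floor_div_eq_div]
  rw [h2] at h1
  have hlogN : 0 < Real.log N := Real.log_pos (by linarith)
  have h3 : Real.log N / 2 ≤ Real.log √((N : ℝ) ^ 2 / L) := by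
    rw [Real.log_sqrt (by positivity)]
    have := Real.log_le_log hN0 hx
    linarith
  have h4 : √((N : ℝ) ^ 2 / L) ≤ N := by
    rw [Real.sqrt_le_left hN0.le, div_le_iff₀ hL0]
    have : (1 : ℝ) ≤ L := by exact_mod_cast hL
    nlinarith
  have hlog4 : 0 < Real.log 4 := Real.log_pos (by norm_num)
  have h5 : Real.log 4 * ((N : ℝ) ^ 2 / L) / Real.log √((N : ℝ) ^ 2 / L) ≤
      Real.log 4 * ((N : ℝ) ^ 2 / L) / (Real.log N / 2) :=
    div_le_div_of_nonneg_left (by positivity) (by positivity) h3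
  have h6 : Real.log 4 * ((N : ℝ) ^ 2 / L) / (Real.log N / 2) =
      2 * Real.log 4 * ((N : ℝ) ^ 2 / L) / Real.log N := by
    field_simp
  linarith

/-- **Tails of composed polynomials**, small energy. -/
theorem ts_energy (g a b : ℤ[X]) (R : ℤ) (hR : R ≠ 0) (hab : a * g + b * derivative g = C R)
    (hg : PTail g) (q : ℤ → ℤ → ℤ) (C0 : ℕ) (hC0 : 1 ≤ C0)
    (hq : ∀ N : ℕ, ∀ x y : ℤ, 1 ≤ x → x ≤ N → 1 ≤ y → y ≤ N → |q x y| ≤ (C0 : ℤ) * (N : ℤ) ^ 2)
    (hE : EnergyBound q) :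
    Tendsto (fun N : ℕ => (tail (fun v : Fin 2 → ℤ => g.eval (q (v 0) (v 1))) N : ℝ) /
      (N : ℝ) ^ 2) atTop (𝓝 0) := by
  classical
  obtain ⟨KE', hKE'⟩ := hE
  set KE : ℝ := max KE' 1 with hKEdef
  have hKE1 : 1 ≤ KE := le_max_right _ _
  have hKE : ∀ N : ℕ, 1 ≤ N → ((en q N).card : ℝ) ≤ KE * (N : ℝ) ^ 2 * (1 + Real.log N) := by
    intro N hN
    refine (hKE' N hN).trans ?_
    have : 0 ≤ Real.log N := Real.log_nonneg (by exact_mod_cast hN)
    have : KE' ≤ KE := le_max_left _ _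
    gcongr
  set F : (Fin 2 → ℤ) → ℤ := fun v => g.eval (q (v 0) (v 1)) with hF
  set d : ℝ := (g.natDegree : ℝ) with hd
  have hd0 : 0 ≤ d := Nat.cast_nonneg _
  have hlog4 : 0 < Real.log 4 := Real.log_pos (by norm_num)
  -- it is enough to bound the squares
  suffices hsq : Tendsto (fun N : ℕ => ((tail F N : ℝ) / (N : ℝ) ^ 2) ^ 2) atTop (𝓝 0) by
    have h1 := (Real.continuous_sqrt.tendsto 0).comp hsq
    rw [Real.sqrt_zero] at h1
    refine h1.congr fun N => ?_
    simp only [Function.comp]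
    rw [Real.sqrt_sq (by positivity)]
  rw [Metric.tendsto_atTop]
  intro ε hε
  -- choice of `L`
  obtain ⟨L, hL⟩ := exists_nat_gt (max 1 (4 * (KE * (d * (2 * Real.log 4) * 2)) / ε))
  have hL1 : 1 ≤ L := by
    have : (1 : ℝ) < L := (le_max_left _ _).trans_lt hL
    exact_mod_cast this.le
  have hL2 : 4 * (KE * (d * (2 * Real.log 4) * 2)) / ε < L := (le_max_right _ _).trans_lt hL
  have hL0 : (0 : ℝ) < L := by exact_mod_cast hL1
  obtain ⟨c', hc', K', hK'⟩ := hg (2 * L * C0) (by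
    have h1 : (1 : ℝ) ≤ L := by exact_mod_cast hL1
    have h2 : (1 : ℝ) ≤ C0 := by exact_mod_cast hC0
    nlinarith)
  set c : ℝ := min c' 1 with hcdef
  have hc : 0 < c := lt_min hc' one_pos
  have hc1 : c ≤ 1 := min_le_right _ _
  set K2 : ℝ := |K'| with hK2def
  have hK20 : 0 ≤ K2 := abs_nonneg _
  have hK2 : ∀ X : ℝ, 1 ≤ X → ((tset g (2 * L * C0) X).ncard : ℝ) ≤ K2 * X ^ (1 - c) :=
    fun X hX => (hK' X hX).trans (rpow_weaken hX (min_le_left _ _) le_rfl)
  -- the main inequality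
  have main : ∀ N : ℕ, 3 ≤ N → R.natAbs ≤ N → 2 * L ≤ N →
      ((tail F N : ℝ) / (N : ℝ) ^ 2) ^ 2 ≤ KE * (d * (2 * C0 + 2) + K2) *
        ((1 + Real.log N) * (N : ℝ) ^ (-c)) + KE * (d * (2 * Real.log 4) * 2) / L := by
    intro N hN3 hNR hNL
    have hN0 : (0 : ℝ) < N := by positivity
    have hN1 : (1 : ℝ) ≤ N := by exact_mod_cast (by omega : 1 ≤ N)
    set T : ℕ := C0 * N ^ 2 with hT
    set z : ℕ := N ^ 2 / L with hz
    set S : Finset ℤ := (Finset.Icc (-(T : ℤ)) T).filter (fun n => ∃ p : ℕ, p.Prime ∧ N < p ∧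
      (p : ℤ) ^ 2 ∣ g.eval n) with hS
    set S1 : Finset ℤ := (Finset.Icc (-(T : ℤ)) T).filter (fun n => ∃ p : ℕ, p.Prime ∧ N < p ∧
      p ≤ z ∧ (p : ℤ) ^ 2 ∣ g.eval n) with hS1
    set S2 : Finset ℤ := (Finset.Icc (-(T : ℤ)) T).filter (fun n => ∃ p : ℕ, p.Prime ∧ z < p ∧
      (p : ℤ) ^ 2 ∣ g.eval n) with hS2
    have hSsub : S ⊆ S1 ∪ S2 := by
      intro n hn
      rw [hS, Finset.mem_filter] at hn
      obtain ⟨h1, p, hp, h2, h3⟩ := hn
      rw [Finset.mem_union, hS1, hS2, Finset.mem_filter, Finset.mem_filter]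
      rcases le_or_gt p z with h4 | h4
      · exact Or.inl ⟨h1, p, hp, h2, h4, h3⟩
      · exact Or.inr ⟨h1, p, hp, h4, h3⟩
    have hScard : (S.card : ℝ) ≤ (S1.card : ℝ) + (S2.card : ℝ) := by
      exact_mod_cast (Finset.card_le_card hSsub).trans (Finset.card_union_le _ _)
    -- the tail
    have htail : tail F N ≤ ((bx N).filter (fun v => q v.1 v.2 ∈ S)).card := by
      refine tail_le_card F N _ ?_
      intro v hv hp
      rw [Finset.mem_filter]
      refine ⟨mem_bx.2 ⟨hv 0, hv 1⟩, ?_⟩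
      rw [hS, Finset.mem_filter, Finset.mem_Icc]
      refine ⟨?_, hp⟩
      have h1 := hq N (v 0) (v 1) (hv 0).1 (hv 0).2 (hv 1).1 (hv 1).2
      have h2 := abs_le.1 h1
      rw [hT]
      push_cast
      exact h2
    have hcs := card_values q N S
    have htail2 : (tail F N : ℝ) ^ 2 ≤ (S.card : ℝ) * ((en q N).card : ℝ) := by
      refine le_trans ?_ hcs
      refine pow_le_pow_left₀ (Nat.cast_nonneg _) ?_ 2
      exact_mod_cast htail
    -- `S1`
    have hS1b := S1_bound g a b R hR hab N T z (by omega) hNR S1 (by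
      intro n hn
      rw [hS1, Finset.mem_filter, Finset.mem_Icc] at hn
      exact hn)
    have hpi := pi_bound N L (by omega) hL1 (by omega)
    -- `S2`
    have hS2b : (S2.card : ℝ) ≤ K2 * ((N : ℝ) ^ 2) ^ (1 - c) := by
      have hX1 : 1 ≤ (N : ℝ) ^ 2 / (2 * L) := by
        rw [le_div_iff₀ (by positivity)]
        have : (2 * L : ℝ) ≤ N := by exact_mod_cast hNL
        nlinarith
      have hsub : (S2 : Set ℤ) ⊆ tset g (2 * L * C0) ((N : ℝ) ^ 2 / (2 * L)) := by
        intro n hn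
        rw [Finset.mem_coe, hS2, Finset.mem_filter, Finset.mem_Icc] at hn
        obtain ⟨⟨h1, h2⟩, p, hp, h3, h4⟩ := hn
        refine ⟨?_, p, hp, ?_, h4⟩
        · have h5 : |n| ≤ (T : ℤ) := abs_le.2 ⟨h1, h2⟩
          have h6 : |(n : ℝ)| ≤ (T : ℝ) := by exact_mod_cast h5
          refine h6.trans (le_of_eq ?_)
          rw [hT]
          push_cast
          field_simp
        · have h5 : (N : ℝ) ^ 2 < L * p := by
            have : N ^ 2 < p * L := by
              have h6 : N ^ 2 / L < p := h3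
              exact (Nat.div_lt_iff_lt_mul (by omega)).1 h6
            have h7 : ((N ^ 2 : ℕ) : ℝ) < ((p * L : ℕ) : ℝ) := by exact_mod_cast this
            push_cast at h7
            linarith
          rw [div_lt_iff₀ (by positivity)]
          have hp0 : (0 : ℝ) < p := by exact_mod_cast hp.pos
          nlinarith
      have h1 := Set.ncard_le_ncard hsub (tset_finite _ _ _)
      rw [Set.ncard_coe_finset] at h1
      have h2 : (S2.card : ℝ) ≤ ((tset g (2 * L * C0) ((N : ℝ) ^ 2 / (2 * L))).ncard : ℝ) := by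
        exact_mod_cast h1
      refine h2.trans ((hK2 _ hX1).trans ?_)
      refine mul_le_mul_of_nonneg_left ?_ hK20
      refine Real.rpow_le_rpow (by positivity) ?_ (by linarith)
      rw [div_le_iff₀ (by positivity)]
      have : (1 : ℝ) ≤ L := by exact_mod_cast hL1
      have : 0 ≤ (N : ℝ) ^ 2 := by positivity
      nlinarith
    have hlogN : 1 ≤ Real.log N := by
      rw [Real.le_log_iff_exp_le hN0]
      have h1 : Real.exp 1 < 3 := by
        have := Real.exp_one_lt_d9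
        linarith
      have h2 : (3 : ℝ) ≤ N := by exact_mod_cast hN3
      linarith
    have hEN := hKE N (by omega)
    -- powers
    have hp1 : (1 : ℝ) / N ≤ (N : ℝ) ^ (-c) := by
      rw [one_div, ← Real.rpow_neg_one]
      exact Real.rpow_le_rpow_of_exponent_le hN1 (by linarith)
    have hp2 : ((N : ℝ) ^ 2) ^ (1 - c) ≤ (N : ℝ) ^ 2 * (N : ℝ) ^ (-c) := by
      rw [← Real.rpow_natCast (N : ℝ) 2, ← Real.rpow_mul hN0.le, ← Real.rpow_add hN0]
      refine Real.rpow_le_rpow_of_exponent_le hN1 ?_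
      push_cast
      linarith
    have hc0 : 0 < (N : ℝ) ^ (-c) := by positivity
    have hS1c : (S1.card : ℝ) ≤ d * ((2 * C0 + 2) * ((N : ℝ) ^ 2 * (N : ℝ) ^ (-c)) +
        2 * Real.log 4 * ((N : ℝ) ^ 2 / L) / Real.log N) := by
      refine hS1b.trans ?_
      refine mul_le_mul_of_nonneg_left ?_ hd0
      have e1 : ((2 * T + 1 : ℕ) : ℝ) / N ≤ (2 * C0 + 1) * ((N : ℝ) ^ 2 * (N : ℝ) ^ (-c)) := by
        rw [hT]
        push_cast
        have e2 : (2 * ((C0 : ℝ) * (N : ℝ) ^ 2) + 1) / N ≤ (2 * C0 + 1) * (N : ℝ) ^ 2 * (1 / N) := by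
          rw [div_eq_mul_one_div]
          refine mul_le_mul_of_nonneg_right ?_ (by positivity)
          have : (1 : ℝ) ≤ (N : ℝ) ^ 2 := one_le_pow₀ hN1
          nlinarith
        refine e2.trans ?_
        rw [mul_assoc]
        refine mul_le_mul_of_nonneg_left ?_ (by positivity)
        exact mul_le_mul_of_nonneg_left hp1 (by positivity)
      have e3 : (N : ℝ) ≤ (N : ℝ) ^ 2 * (N : ℝ) ^ (-c) := by
        calc (N : ℝ) = (N : ℝ) ^ 2 * (1 / N) := by field_simp
          _ ≤ _ := mul_le_mul_of_nonneg_left hp1 (by positivity)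
      linarith
    -- conclusion
    have hx : (S.card : ℝ) ≤ (d * (2 * C0 + 2) + K2) * ((N : ℝ) ^ 2 * (N : ℝ) ^ (-c)) +
        d * (2 * Real.log 4) * ((N : ℝ) ^ 2 / L) / Real.log N := by
      refine hScard.trans ((add_le_add hS1c (hS2b.trans (mul_le_mul_of_nonneg_left hp2 hK20))).trans
        (le_of_eq ?_))
      ring
    have hN4 : (0 : ℝ) < ((N : ℝ) ^ 2) ^ 2 := by positivity
    rw [div_pow, div_le_iff₀ hN4]
    have hlogN0 : 0 < Real.log N := by linarith
    have hfin : (1 + Real.log N) / Real.log N ≤ 2 := by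
      rw [div_le_iff₀ hlogN0]
      linarith
    have hxx0 : 0 ≤ (d * (2 * C0 + 2) + K2) * ((N : ℝ) ^ 2 * (N : ℝ) ^ (-c)) +
        d * (2 * Real.log 4) * ((N : ℝ) ^ 2 / L) / Real.log N := by positivity
    calc (tail F N : ℝ) ^ 2 ≤ (S.card : ℝ) * ((en q N).card : ℝ) := htail2
      _ ≤ ((d * (2 * C0 + 2) + K2) * ((N : ℝ) ^ 2 * (N : ℝ) ^ (-c)) +
        d * (2 * Real.log 4) * ((N : ℝ) ^ 2 / L) / Real.log N) *
          (KE * (N : ℝ) ^ 2 * (1 + Real.log N)) :=
        mul_le_mul hx hEN (Nat.cast_nonneg _) hxx0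
      _ = (KE * (d * (2 * C0 + 2) + K2) * ((1 + Real.log N) * (N : ℝ) ^ (-c)) +
          KE * (d * (2 * Real.log 4) * ((1 + Real.log N) / Real.log N)) / L) *
            ((N : ℝ) ^ 2) ^ 2 := by
        field_simp
      _ ≤ _ := by
        refine mul_le_mul_of_nonneg_right ?_ hN4.le
        gcongr
  -- the limit
  have hlim := (log_decay c hc).const_mul (KE * (d * (2 * C0 + 2) + K2))
  rw [mul_zero] at hlim
  obtain ⟨N1, hN1⟩ := (Metric.tendsto_atTop.1 hlim) (ε / 2) (by linarith)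
  refine ⟨max (max 3 N1) (max R.natAbs (2 * L)), fun N hN => ?_⟩
  have h1 : 3 ≤ N := (le_max_left _ _).trans ((le_max_left _ _).trans hN)
  have h2 : N1 ≤ N := (le_max_right _ _).trans ((le_max_left _ _).trans hN)
  have h3 : R.natAbs ≤ N := (le_max_left _ _).trans ((le_max_right _ _).trans hN)
  have h4 : 2 * L ≤ N := (le_max_right _ _).trans ((le_max_right _ _).trans hN)
  have h5 := main N h1 h3 h4
  have h6 := hN1 N h2
  rw [Real.dist_eq, sub_zero] at h6 ⊢
  have h7 := (le_abs_self _).trans h6.le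
  have h8 : KE * (d * (2 * Real.log 4) * 2) / L ≤ ε / 4 := by
    rw [div_le_iff₀ hL0]
    rw [div_lt_iff₀ hε] at hL2
    linarith
  rw [abs_of_nonneg (by positivity)]
  have h9 : KE * (d * (2 * C0 + 2) + K2) * ((1 + Real.log N) * (N : ℝ) ^ (-c)) < ε / 2 :=
    (le_abs_self _).trans_lt h6
  linarith

/-- **Tails of composed polynomials**, linear inner polynomial. -/
theorem ts_linear (g : ℤ[X]) (hg : PTail g) (A B D : ℤ) (hAB : ¬ (A = 0 ∧ B = 0)) :
    Tendsto (fun N : ℕ => (tail (fun v : Fin 2 → ℤ => g.eval (A * v 0 + B * v 1 + D)) N : ℝ) /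
      (N : ℝ) ^ 2) atTop (𝓝 0) := by
  classical
  set C0 : ℤ := |A| + |B| + |D| + 1 with hC0
  have c1 := abs_nonneg A
  have c2 := abs_nonneg B
  have c3 := abs_nonneg D
  obtain ⟨c', hc', K', hK'⟩ := hg C0 (by rw [hC0]; push_cast; exact_mod_cast (by linarith :
    (1 : ℤ) ≤ |A| + |B| + |D| + 1))
  set F : (Fin 2 → ℤ) → ℤ := fun v => g.eval (A * v 0 + B * v 1 + D) with hF
  have hmain : ∀ N : ℕ, 1 ≤ N → (tail F N : ℝ) ≤ N * (K' * (N : ℝ) ^ (1 - c')) := by
    intro N hN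
    have hN1 : (1 : ℤ) ≤ N := by exact_mod_cast hN
    set S : Finset ℤ := (tset_finite g C0 N).toFinset with hS
    have htail : tail F N ≤ ((bx N).filter (fun v => A * v.1 + B * v.2 + D ∈ S)).card := by
      refine tail_le_card F N _ ?_
      intro v hv hp
      rw [Finset.mem_filter]
      refine ⟨mem_bx.2 ⟨hv 0, hv 1⟩, ?_⟩
      rw [hS, Set.Finite.mem_toFinset]
      obtain ⟨p, hp1, hp2, hp3⟩ := hp
      refine ⟨?_, p, hp1, by exact_mod_cast hp2, hp3⟩
      simp only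
      have h1 : |A * v 0 + B * v 1 + D| ≤ C0 * N := by
        have e0 := hv 0
        have e1 := hv 1
        have a1 : |A * v 0| ≤ |A| * N := by
          rw [abs_mul, abs_of_pos (by linarith [e0.1] : 0 < v 0)]
          exact mul_le_mul_of_nonneg_left e0.2 c1
        have a2 : |B * v 1| ≤ |B| * N := by
          rw [abs_mul, abs_of_pos (by linarith [e1.1] : 0 < v 1)]
          exact mul_le_mul_of_nonneg_left e1.2 c2
        have a3 := abs_add_le (A * v 0 + B * v 1) D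
        have a4 := abs_add_le (A * v 0) (B * v 1)
        have a5 : |D| ≤ |D| * N := by nlinarith
        rw [hC0]
        nlinarith
      exact_mod_cast h1
    have hfib : ((bx N).filter (fun v => A * v.1 + B * v.2 + D ∈ S)).card ≤ N * S.card := by
      refine Finset.card_le_mul_card_image_of_maps_to (f := fun v : ℤ × ℤ => A * v.1 + B * v.2 + D)
        (by intro v hv; exact (Finset.mem_filter.1 hv).2) N ?_
      intro n _
      by_cases hB : B = 0
      · have hA : A ≠ 0 := fun h => hAB ⟨h, hB⟩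
        refine (Finset.card_le_card_of_injOn (t := Finset.Icc 1 (N : ℤ)) (fun v => v.2) ?_ ?_).trans
          (by simp)
        · rintro ⟨x, y⟩ hv
          rw [Finset.mem_coe, Finset.mem_filter, Finset.mem_filter, mem_bx] at hv
          exact Finset.mem_coe.2 (Finset.mem_Icc.2 hv.1.1.2)
        · rintro ⟨x, y⟩ hv ⟨x', y'⟩ hw h
          rw [Finset.mem_coe, Finset.mem_filter] at hv hw
          have h1 := hv.2
          have h2 := hw.2
          simp only at h h1 h2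
          have : x = x' := mul_left_cancel₀ hA (by rw [hB] at h1 h2; linarith)
          rw [this, h]
      · refine (Finset.card_le_card_of_injOn (t := Finset.Icc 1 (N : ℤ)) (fun v => v.1) ?_ ?_).trans
          (by simp)
        · rintro ⟨x, y⟩ hv
          rw [Finset.mem_coe, Finset.mem_filter, Finset.mem_filter, mem_bx] at hv
          exact Finset.mem_coe.2 (Finset.mem_Icc.2 hv.1.1.1)
        · rintro ⟨x, y⟩ hv ⟨x', y'⟩ hw h
          rw [Finset.mem_coe, Finset.mem_filter] at hv hw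
          have h1 := hv.2
          have h2 := hw.2
          simp only at h h1 h2
          have : y = y' := mul_left_cancel₀ hB (by rw [h] at h1; linarith)
          rw [this, h]
    have h1 : (tail F N : ℝ) ≤ N * (S.card : ℝ) := by exact_mod_cast htail.trans hfib
    refine h1.trans (mul_le_mul_of_nonneg_left ?_ (Nat.cast_nonneg _))
    have h2 := hK' N (by exact_mod_cast hN)
    rwa [Set.ncard_eq_toFinset_card _ (tset_finite g C0 N)] at h2
  have hlim : Tendsto (fun N : ℕ => |K'| * (N : ℝ) ^ (-c')) atTop (𝓝 0) := by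
    have h1 : Tendsto (fun x : ℝ => x ^ (-c')) atTop (𝓝 0) := tendsto_rpow_neg_atTop hc'
    have h2 := (h1.comp tendsto_natCast_atTop_atTop).const_mul |K'|
    simpa using h2
  refine squeeze_zero' (Eventually.of_forall (fun N => by positivity)) ?_ hlim
  filter_upwards [eventually_ge_atTop 1] with N hN
  have hN0 : (0 : ℝ) < N := by exact_mod_cast hN
  rw [div_le_iff₀ (by positivity)]
  refine (hmain N hN).trans ?_
  have h1 : (N : ℝ) ^ (1 - c') = (N : ℝ) ^ (-c') * N := by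
    rw [show (1 - c') = -c' + 1 by ring, Real.rpow_add_one hN0.ne']
  rw [h1]
  have h2 : K' * ((N : ℝ) ^ (-c') * N) ≤ |K'| * ((N : ℝ) ^ (-c') * N) :=
    mul_le_mul_of_nonneg_right (le_abs_self K') (by positivity)
  calc (N : ℝ) * (K' * ((N : ℝ) ^ (-c') * N)) ≤ N * (|K'| * ((N : ℝ) ^ (-c') * N)) :=
        mul_le_mul_of_nonneg_left h2 hN0.le
    _ = _ := by ring

end Pool.Agent.SQF2
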