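import Mathlib
import Pool.Agent.Lib.SQF2.Sieve
import Pool.Agent.Lib.SQF2.Alg

/-!
# Counting in the box `[1, N] ^ 2`

`cnt N Φ` is the number of `(x, y)` in `[1, N] ^ 2` with `Φ x y`. For `P : ℤ[X][X]` the outer
variable is `y`, the inner one is `x`.
-/

set_option autoImplicit false

open Polynomial Filter Topology

namespace Pool.Agent.SQF2

/-- number of `(x, y)` in the box with `Φ x y` -/
noncomputable def cnt (N : ℕ) (Φ : ℕ → ℕ → Prop) : ℕ := by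
  classical
  exact ∑ x ∈ Finset.Ioc 0 N, ((Finset.Ioc 0 N).filter (fun y => Φ x y)).card

lemma cnt_def (N : ℕ) (Φ : ℕ → ℕ → Prop) [∀ x, DecidablePred (Φ x)] :
    cnt N Φ = ∑ x ∈ Finset.Ioc 0 N, ((Finset.Ioc 0 N).filter (fun y => Φ x y)).card := by
  unfold cnt
  refine Finset.sum_congr rfl ?_
  intro x _
  congr

lemma card_eq_cnt (N : ℕ) (Φ : ℕ → ℕ → Prop) :
    Nat.card {v : Fin 2 → ℕ // (∀ i, 1 ≤ v i ∧ v i ≤ N) ∧ Φ (v 1) (v 0)} = cnt N Φ := by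
  classical
  rw [cnt_def, ← Finset.card_sigma]
  set S := (Finset.Ioc 0 N).sigma (fun x => (Finset.Ioc 0 N).filter (fun y => Φ x y)) with hS
  let e : (Fin 2 → ℕ) ≃ (Σ _ : ℕ, ℕ) :=
    { toFun := fun v => ⟨v 1, v 0⟩
      invFun := fun a => ![a.2, a.1]
      left_inv := by
        intro v
        funext i
        fin_cases i <;> rfl
      right_inv := by
        rintro ⟨a, b⟩
        rfl }
  have h1 : Nat.card {a : (Σ _ : ℕ, ℕ) // a ∈ S} = S.card := by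
    rw [Nat.card_eq_fintype_card, Fintype.card_coe]
  rw [← h1]
  refine Nat.card_congr (Equiv.subtypeEquiv e ?_)
  intro v
  show _ ↔ (⟨v 1, v 0⟩ : (Σ _ : ℕ, ℕ)) ∈ S
  rw [hS, Finset.mem_sigma, Finset.mem_filter, Finset.mem_Ioc, Finset.mem_Ioc]
  constructor
  · rintro ⟨h2, h3⟩
    exact ⟨h2 1, h2 0, h3⟩
  · rintro ⟨h2, h3, h4⟩
    refine ⟨?_, h4⟩
    intro i
    fin_cases i
    · exact h3
    · exact h2

lemma cnt_mono (N : ℕ) (Φ Ψ : ℕ → ℕ → Prop) (h : ∀ x y, 1 ≤ x → x ≤ N → 1 ≤ y → y ≤ N →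
    Φ x y → Ψ x y) : cnt N Φ ≤ cnt N Ψ := by
  classical
  rw [cnt_def, cnt_def]
  refine Finset.sum_le_sum ?_
  intro x hx
  refine Finset.card_le_card ?_
  intro y hy
  rw [Finset.mem_filter] at hy ⊢
  have h1 := Finset.mem_Ioc.1 hx
  have h2 := Finset.mem_Ioc.1 hy.1
  exact ⟨hy.1, h x y h1.1 h1.2 h2.1 h2.2 hy.2⟩

lemma cnt_or (N : ℕ) (Φ Ψ : ℕ → ℕ → Prop) :
    cnt N (fun x y => Φ x y ∨ Ψ x y) ≤ cnt N Φ + cnt N Ψ := by
  classical
  rw [cnt_def, cnt_def, cnt_def, ← Finset.sum_add_distrib]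
  refine Finset.sum_le_sum ?_
  intro x _
  rw [Finset.filter_or]
  exact Finset.card_union_le _ _

lemma cnt_le_sq (N : ℕ) (Φ : ℕ → ℕ → Prop) : cnt N Φ ≤ N ^ 2 := by
  classical
  rw [cnt_def]
  refine (Finset.sum_le_card_nsmul _ _ N ?_).trans ?_
  · intro x _
    exact (Finset.card_filter_le _ _).trans (by simp)
  · simp [sq]

/-- splitting according to `x` -/
lemma cnt_split (N : ℕ) (Φ : ℕ → ℕ → Prop) (B : ℕ → Prop) [DecidablePred B]
    [∀ x, DecidablePred (Φ x)] (b1 b2 X : ℝ) (hb2 : 0 ≤ b2) (hb1 : 0 ≤ b1)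
    (hX : ((((Finset.Ioc 0 N).filter B).card : ℕ) : ℝ) ≤ X)
    (h1 : ∀ x, 1 ≤ x → x ≤ N → B x → ((((Finset.Ioc 0 N).filter (fun y => Φ x y)).card : ℕ) : ℝ) ≤ b1)
    (h2 : ∀ x, 1 ≤ x → x ≤ N → ¬ B x →
      ((((Finset.Ioc 0 N).filter (fun y => Φ x y)).card : ℕ) : ℝ) ≤ b2) :
    (cnt N Φ : ℝ) ≤ X * b1 + N * b2 := by
  classical
  rw [cnt_def]
  push_cast
  rw [← Finset.sum_filter_add_sum_filter_not (Finset.Ioc 0 N) B]
  refine add_le_add ?_ ?_
  · refine (Finset.sum_le_card_nsmul _ _ b1 ?_).trans ?_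
    · intro x hx
      have := Finset.mem_filter.1 hx
      have h3 := Finset.mem_Ioc.1 this.1
      exact h1 x h3.1 h3.2 this.2
    · rw [nsmul_eq_mul]
      exact mul_le_mul_of_nonneg_right hX hb1
  · refine (Finset.sum_le_card_nsmul _ _ b2 ?_).trans ?_
    · intro x hx
      have := Finset.mem_filter.1 hx
      have h3 := Finset.mem_Ioc.1 this.1
      exact h2 x h3.1 h3.2 this.2
    · rw [nsmul_eq_mul]
      refine mul_le_mul_of_nonneg_right ?_ hb2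
      have : ((Finset.Ioc 0 N).filter (fun x => ¬ B x)).card ≤ N :=
        (Finset.card_filter_le _ _).trans (by simp)
      exact_mod_cast this

/-- one variable, modulus `m` -/
lemma one_le (f : ℤ[X]) (m : ℕ) (hm : 0 < m) (N d : ℕ) (hd : Pool.Agent.SQF4.rho f m ≤ d) :
    ((((Finset.Ioc 0 N).filter (fun n : ℕ => (m : ℤ) ∣ f.eval (n : ℤ))).card : ℕ) : ℝ) ≤
      d * ((N : ℝ) / m + 1) := by
  classical
  have h := Pool.Agent.SQF4.count_le f m hm N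
  have h1 : Nat.card {n : ℕ // 1 ≤ n ∧ n ≤ N ∧ (m : ℤ) ∣ f.eval (n : ℤ)} =
      ((Finset.Ioc 0 N).filter (fun n : ℕ => (m : ℤ) ∣ f.eval (n : ℤ))).card := by
    refine Nat.subtype_card _ ?_
    intro n
    simp only [Finset.mem_filter, Finset.mem_Ioc]
    constructor
    · rintro ⟨⟨h3, h4⟩, h5⟩; exact ⟨h3, h4, h5⟩
    · rintro ⟨h3, h4, h5⟩; exact ⟨⟨h3, h4⟩, h5⟩
  rw [h1] at h
  refine h.trans ?_
  have : (Pool.Agent.SQF4.rho f m : ℝ) ≤ d := by exact_mod_cast hd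
  exact mul_le_mul_of_nonneg_right this (by positivity)

lemma y_le_p (P : ℤ[X][X]) (p : ℕ) (hp : p.Prime) (x : ℤ)
    (h : ∃ i, ¬ (p : ℤ) ∣ (P.coeff i).eval x) (N : ℕ) :
    ((((Finset.Ioc 0 N).filter (fun n : ℕ => (p : ℤ) ∣ P.evalEval x (n : ℤ))).card : ℕ) : ℝ) ≤
      P.natDegree * ((N : ℝ) / p + 1) := by
  have h1 := one_le (fib P x) p hp.pos N P.natDegree
    ((rho_p_le (fib P x) p hp (by
      obtain ⟨i, hi⟩ := h
      exact ⟨i, by rw [fib_coeff]; exact hi⟩)).trans (fib_natDegree P x))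
  simp only [fib_eval] at h1
  exact h1

lemma y_le_p2 (P a b : ℤ[X][X]) (D : ℤ[X]) (hab : a * P + b * derivative P = C D)
    (p : ℕ) (hp : p.Prime) (x : ℤ) (hD : ¬ (p : ℤ) ∣ D.eval x) (N : ℕ) :
    ((((Finset.Ioc 0 N).filter (fun n : ℕ => (p : ℤ) ^ 2 ∣ P.evalEval x (n : ℤ))).card : ℕ) : ℝ) ≤
      P.natDegree * ((N : ℝ) / (p : ℝ) ^ 2 + 1) := by
  have h0 : fib a x * fib P x + fib b x * derivative (fib P x) = C (D.eval x) := by
    have := congrArg (fun q => q.map (evalRingHom x)) hab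
    simp only [Polynomial.map_add, Polynomial.map_mul, map_C, ← derivative_map, coe_evalRingHom]
      at this
    exact this
  have h1 := one_le (fib P x) (p ^ 2) (pow_pos hp.pos 2) N P.natDegree
    ((Pool.Agent.SQF4.rho_sq_le (fib P x) _ _ _ h0 p hp hD).trans (fib_natDegree P x))
  simp only [fib_eval] at h1
  push_cast at h1
  exact h1

lemma x_le_p (D : ℤ[X]) (p : ℕ) (hp : p.Prime) (h : ∃ i, ¬ (p : ℤ) ∣ D.coeff i) (N : ℕ) :
    ((((Finset.Ioc 0 N).filter (fun n : ℕ => (p : ℤ) ∣ D.eval (n : ℤ))).card : ℕ) : ℝ) ≤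
      D.natDegree * ((N : ℝ) / p + 1) :=
  one_le D p hp.pos N D.natDegree (rho_p_le D p hp h)

/-- evaluation as a function on `ℤ ^ 2` -/
noncomputable def fn (P : ℤ[X][X]) : (Fin 2 → ℤ) → ℤ := fun v => P.evalEval (v 1) (v 0)

lemma fn_cong (P : ℤ[X][X]) : Cong (fn P) := by
  intro m v w h
  unfold fn
  have h1 : m ∣ P.evalEval (v 1) (v 0) - P.evalEval (v 1) (w 0) := by
    rw [← fib_eval, ← fib_eval]
    exact (h 0).trans (sub_dvd_eval_sub _ _ _)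
  have h2 : m ∣ P.evalEval (v 1) (w 0) - P.evalEval (w 1) (w 0) := by
    unfold evalEval
    exact (h 1).trans (sub_dvd_eval_sub _ _ _)
  have := dvd_add h1 h2
  simpa using this

lemma natAbs_lt_not_dvd {p : ℕ} {r : ℤ} (hr : r ≠ 0) (h : r.natAbs < p) : ¬ (p : ℤ) ∣ r := by
  intro hd
  have h1 : p ∣ r.natAbs := Int.natCast_dvd.1 hd
  have := Nat.le_of_dvd (Int.natAbs_pos.2 hr) h1
  omega

/-- data of a coprime pair -/
def XData (P g : ℤ[X][X]) : Prop :=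
  ∃ (D : ℤ[X]) (r : ℤ), D ≠ 0 ∧ r ≠ 0 ∧ ∀ p : ℕ, p.Prime → ¬ (p : ℤ) ∣ r → ∀ x : ℤ,
    (∀ y : ℤ, (p : ℤ) ∣ P.evalEval x y → (p : ℤ) ∣ g.evalEval x y → (p : ℤ) ∣ D.eval x) ∧
    ((p : ℤ) ∣ D.eval x → (∃ i, ¬ (p : ℤ) ∣ (P.coeff i).eval x) ∨
      ∃ i, ¬ (p : ℤ) ∣ (g.coeff i).eval x)

lemma evalEval_C_C (c : ℤ) (x y : ℤ) : (C (C c) : ℤ[X][X]).evalEval x y = c := by
  simp [evalEval]

lemma xdata (P g : ℤ[X][X]) (hP : Irreducible P) (hg : ¬ P ∣ g) : XData P g := by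
  by_cases hd : P.natDegree = 0
  · obtain ⟨c, rfl⟩ := natDegree_eq_zero.1 hd
    have hc : Irreducible c := by
      refine ⟨fun h => hP.not_isUnit (isUnit_C.2 h), ?_⟩
      intro a b hab
      have := hP.isUnit_or_isUnit (show C c = C a * C b by rw [hab, C_mul])
      simpa [isUnit_C] using this
    rw [C_dvd_iff_dvd_coeff] at hg
    push Not at hg
    obtain ⟨i, hi⟩ := hg
    obtain ⟨r, hr, h⟩ := bezout_int c (g.coeff i) hc hi
    refine ⟨c, r, hc.ne_zero, hr, ?_⟩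
    intro p hp hpr x
    constructor
    · intro y h1 _
      rwa [evalEval_C] at h1
    · intro h1
      right
      exact ⟨i, h p hp hpr x h1⟩
  · obtain ⟨a, b, D, hD, hab⟩ := bezout_pair P g hP hd hg
    obtain ⟨r, hr, h⟩ := nonvan P hP.ne_zero (fun π hπ => not_C_dvd P hP hd π hπ)
    refine ⟨D, r, hD, hr, ?_⟩
    intro p hp hpr x
    constructor
    · intro y h1 h2
      have h3 : D.eval x = a.evalEval x y * P.evalEval x y + b.evalEval x y * g.evalEval x y := by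
        have := congrArg (fun q : ℤ[X][X] => q.evalEval x y) hab
        simp only [evalEval_add, evalEval_mul, evalEval_C] at this
        exact this.symm
      rw [h3]
      exact dvd_add (Dvd.dvd.mul_left h1 _) (Dvd.dvd.mul_left h2 _)
    · intro _
      left
      exact h p hp hpr x

/-- a large prime does not divide all coefficients -/
lemma exists_coeff (D : ℤ[X]) (hD : D ≠ 0) (p : ℕ) (h : D.leadingCoeff.natAbs < p) :
    ∃ i, ¬ (p : ℤ) ∣ D.coeff i :=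
  ⟨D.natDegree, natAbs_lt_not_dvd (leadingCoeff_ne_zero.2 hD) h⟩

/-- the number of `y` -/
lemma XData.y_le {P g : ℤ[X][X]} {D : ℤ[X]} {r : ℤ}
    (h : ∀ p : ℕ, p.Prime → ¬ (p : ℤ) ∣ r → ∀ x : ℤ,
    (∀ y : ℤ, (p : ℤ) ∣ P.evalEval x y → (p : ℤ) ∣ g.evalEval x y → (p : ℤ) ∣ D.eval x) ∧
    ((p : ℤ) ∣ D.eval x → (∃ i, ¬ (p : ℤ) ∣ (P.coeff i).eval x) ∨
      ∃ i, ¬ (p : ℤ) ∣ (g.coeff i).eval x)) (p : ℕ) (hp : p.Prime) (hpr : ¬ (p : ℤ) ∣ r)
    (x : ℤ) (N : ℕ) :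
    ((((Finset.Ioc 0 N).filter (fun n : ℕ => (p : ℤ) ∣ P.evalEval x (n : ℤ) ∧
      (p : ℤ) ∣ g.evalEval x (n : ℤ))).card : ℕ) : ℝ) ≤
      (P.natDegree + g.natDegree : ℕ) * ((N : ℝ) / p + 1) := by
  classical
  have hpos : (0 : ℝ) ≤ (N : ℝ) / p + 1 := by positivity
  by_cases hx : (p : ℤ) ∣ D.eval x
  · rcases (h p hp hpr x).2 hx with h1 | h1
    · refine le_trans ?_ ((y_le_p P p hp x h1 N).trans ?_)
      · exact_mod_cast Finset.card_le_card (by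
          intro y hy
          rw [Finset.mem_filter] at hy ⊢
          exact ⟨hy.1, hy.2.1⟩)
      · refine mul_le_mul_of_nonneg_right ?_ hpos
        push_cast
        have : (0 : ℝ) ≤ (g.natDegree : ℝ) := by positivity
        linarith
    · refine le_trans ?_ ((y_le_p g p hp x h1 N).trans ?_)
      · exact_mod_cast Finset.card_le_card (by
          intro y hy
          rw [Finset.mem_filter] at hy ⊢
          exact ⟨hy.1, hy.2.2⟩)
      · refine mul_le_mul_of_nonneg_right ?_ hpos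
        push_cast
        have : (0 : ℝ) ≤ (P.natDegree : ℝ) := by positivity
        linarith
  · have : (Finset.Ioc 0 N).filter (fun n : ℕ => (p : ℤ) ∣ P.evalEval x (n : ℤ) ∧
      (p : ℤ) ∣ g.evalEval x (n : ℤ)) = ∅ := by
      rw [Finset.filter_eq_empty_iff]
      rintro y _ ⟨h1, h2⟩
      exact hx ((h p hp hpr x).1 y h1 h2)
    rw [this]
    simp only [Finset.card_empty, Nat.cast_zero]
    positivity

/-- coprime pair, modulo `p` -/
lemma xbound (P g : ℤ[X][X]) (hX : XData P g) :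
    ∃ K z0 : ℕ, ∀ p : ℕ, p.Prime → z0 ≤ p → ∀ N : ℕ, p ≤ N →
      (cnt N (fun x y => (p : ℤ) ∣ P.evalEval (x : ℤ) (y : ℤ) ∧
        (p : ℤ) ∣ g.evalEval (x : ℤ) (y : ℤ)) : ℝ) ≤ K * ((N : ℝ) ^ 2 * (1 / (p : ℝ) ^ 2)) := by
  classical
  obtain ⟨D, r, hD, hr, h⟩ := hX
  refine ⟨4 * (D.natDegree * (P.natDegree + g.natDegree)),
    r.natAbs + D.leadingCoeff.natAbs + 1, ?_⟩
  intro p hp hpz N hpN
  have hpr : ¬ (p : ℤ) ∣ r := natAbs_lt_not_dvd hr (by omega)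
  have hpD := exists_coeff D hD p (by omega)
  have hp0 : (0 : ℝ) < p := by exact_mod_cast hp.pos
  have h1 := cnt_split N (fun x y => (p : ℤ) ∣ P.evalEval (x : ℤ) (y : ℤ) ∧
        (p : ℤ) ∣ g.evalEval (x : ℤ) (y : ℤ)) (fun x => (p : ℤ) ∣ D.eval (x : ℤ))
    ((P.natDegree + g.natDegree : ℕ) * ((N : ℝ) / p + 1)) 0 (D.natDegree * ((N : ℝ) / p + 1))
    le_rfl (by positivity) (x_le_p D p hp hpD N)
    (fun x _ _ _ => XData.y_le h p hp hpr x N)
    (by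
      intro x _ _ hx
      have : (Finset.Ioc 0 N).filter (fun n : ℕ => (p : ℤ) ∣ P.evalEval (x : ℤ) (n : ℤ) ∧
        (p : ℤ) ∣ g.evalEval (x : ℤ) (n : ℤ)) = ∅ := by
        rw [Finset.filter_eq_empty_iff]
        rintro y _ ⟨h1, h2⟩
        exact hx ((h p hp hpr x).1 y h1 h2)
      rw [this]
      simp)
  refine h1.trans ?_
  rw [mul_zero, add_zero]
  have h2 : (1 : ℝ) ≤ (N : ℝ) / p := by
    rw [le_div_iff₀ hp0, one_mul]
    exact_mod_cast hpN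
  have h3 : ((N : ℝ) / p + 1) ^ 2 ≤ 4 * ((N : ℝ) ^ 2 * (1 / (p : ℝ) ^ 2)) := by
    have : (N : ℝ) ^ 2 * (1 / (p : ℝ) ^ 2) = ((N : ℝ) / p) ^ 2 := by
      rw [div_pow]; ring
    rw [this]
    nlinarith
  calc (D.natDegree : ℝ) * ((N : ℝ) / p + 1) *
        ((P.natDegree + g.natDegree : ℕ) * ((N : ℝ) / p + 1)) =
        (D.natDegree : ℝ) * ((P.natDegree + g.natDegree : ℕ) : ℝ) * ((N : ℝ) / p + 1) ^ 2 := by ring
    _ ≤ (D.natDegree : ℝ) * ((P.natDegree + g.natDegree : ℕ) : ℝ) *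
        (4 * ((N : ℝ) ^ 2 * (1 / (p : ℝ) ^ 2))) :=
        mul_le_mul_of_nonneg_left h3 (by positivity)
    _ = _ := by push_cast; ring

end Pool.Agent.SQF2
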