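import Mathlib
import Pool.Agent.Lib.SQF2.Count

/-!
# Squarefree polynomials in two variables: the bound modulo `p ^ 2` and the tail of a product
-/

set_option autoImplicit false

open Polynomial Filter Topology

namespace Pool.Agent.SQF2

/-- size of an integer polynomial -/
noncomputable def siz (D : ℤ[X]) : ℕ := ∑ i ∈ Finset.range (D.natDegree + 1), (D.coeff i).natAbs

lemma eval_natAbs_le (D : ℤ[X]) (x N : ℕ) (hx : x ≤ N) :
    (D.eval (x : ℤ)).natAbs ≤ siz D * (N + 1) ^ D.natDegree := by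
  rw [eval_eq_sum_range, siz, Finset.sum_mul]
  refine (Int.natAbs_sum_le _ _).trans ?_
  refine Finset.sum_le_sum ?_
  intro i hi
  rw [Int.natAbs_mul, Int.natAbs_pow, Int.natAbs_natCast]
  refine Nat.mul_le_mul le_rfl ?_
  have hi' : i ≤ D.natDegree := by
    have := Finset.mem_range.1 hi; omega
  exact (Nat.pow_le_pow_left (by omega) i).trans (Nat.pow_le_pow_right (by omega) hi')

/-- number of large prime factors -/
lemma card_primes (m N E : ℕ) (hm : m ≠ 0) (hN : 1 ≤ N) (hmE : m ≤ (N + 1) ^ E) :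
    (m.primeFactors.filter (fun p => N < p)).card ≤ E := by
  set S := m.primeFactors.filter (fun p => N < p)
  have h1 : ∏ p ∈ S, p ∣ m :=
    (Finset.prod_dvd_prod_of_subset S m.primeFactors (fun p => p) (Finset.filter_subset _ _)).trans
      (Nat.prod_primeFactors_dvd m)
  have h2 : (N + 1) ^ S.card ≤ ∏ p ∈ S, p := by
    refine Finset.pow_card_le_prod _ _ _ ?_
    intro p hp
    exact (Finset.mem_filter.1 hp).2
  have h3 : (N + 1) ^ S.card ≤ (N + 1) ^ E := h2.trans ((Nat.le_of_dvd (Nat.pos_of_ne_zero hm) h1).trans hmE)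
  exact (Nat.pow_le_pow_iff_right (by omega)).1 h3

/-- coprime pair: points with a common prime factor larger than the side -/
lemma xtail (P g : ℤ[X][X]) (hX : XData P g) :
    ∃ K : ℕ, ∀ N : ℕ, (cnt N (fun x y => ∃ p : ℕ, p.Prime ∧ N < p ∧
      (p : ℤ) ∣ P.evalEval (x : ℤ) (y : ℤ) ∧ (p : ℤ) ∣ g.evalEval (x : ℤ) (y : ℤ)) : ℝ) ≤ K * N := by
  classical
  obtain ⟨D, r, hD, hr, h⟩ := hX
  set z0 := r.natAbs + D.leadingCoeff.natAbs + 1 with hz0
  set d := P.natDegree + g.natDegree with hd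
  set E := D.natDegree + siz D with hE
  refine ⟨z0 + D.natDegree + E * (d * 2), ?_⟩
  intro N
  rcases Nat.lt_or_ge N z0 with hN | hN
  · have h1 := cnt_le_sq N (fun x y => ∃ p : ℕ, p.Prime ∧ N < p ∧
      (p : ℤ) ∣ P.evalEval (x : ℤ) (y : ℤ) ∧ (p : ℤ) ∣ g.evalEval (x : ℤ) (y : ℤ))
    have h2 : N ^ 2 ≤ (z0 + D.natDegree + E * (d * 2)) * N := by
      rw [sq]
      exact Nat.mul_le_mul (by omega) le_rfl
    exact_mod_cast h1.trans h2
  · have hN1 : 1 ≤ N := by omega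
    have hN0 : (0 : ℝ) < N := by exact_mod_cast hN1
    have key : ∀ x : ℕ, x ≤ N → D.eval (x : ℤ) ≠ 0 →
        ((((Finset.Ioc 0 N).filter (fun y : ℕ => ∃ p : ℕ, p.Prime ∧ N < p ∧
      (p : ℤ) ∣ P.evalEval (x : ℤ) (y : ℤ) ∧ (p : ℤ) ∣ g.evalEval (x : ℤ) (y : ℤ))).card : ℕ) : ℝ) ≤
        (E : ℝ) * (d * 2) := by
      intro x hx hDx
      set m := (D.eval (x : ℤ)).natAbs with hm
      have hm0 : m ≠ 0 := Int.natAbs_ne_zero.2 hDx
      have hmE : m ≤ (N + 1) ^ E := by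
        refine (eval_natAbs_le D x N hx).trans ?_
        rw [hE, pow_add, mul_comm]
        refine Nat.mul_le_mul le_rfl ?_
        exact (Nat.lt_two_pow_self (n := siz D)).le.trans (Nat.pow_le_pow_left (by omega) _)
      set S := m.primeFactors.filter (fun p => N < p) with hS
      have hSc : S.card ≤ E := card_primes m N E hm0 hN1 hmE
      have hsub : (Finset.Ioc 0 N).filter (fun y : ℕ => ∃ p : ℕ, p.Prime ∧ N < p ∧
          (p : ℤ) ∣ P.evalEval (x : ℤ) (y : ℤ) ∧ (p : ℤ) ∣ g.evalEval (x : ℤ) (y : ℤ)) ⊆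
          S.biUnion (fun p => (Finset.Ioc 0 N).filter (fun y : ℕ =>
            (p : ℤ) ∣ P.evalEval (x : ℤ) (y : ℤ) ∧ (p : ℤ) ∣ g.evalEval (x : ℤ) (y : ℤ))) := by
        intro y hy
        rw [Finset.mem_filter] at hy
        obtain ⟨hy1, p, hp, hpN, h1, h2⟩ := hy
        have hpr : ¬ (p : ℤ) ∣ r := natAbs_lt_not_dvd hr (by omega)
        have h3 := (h p hp hpr x).1 y h1 h2
        refine Finset.mem_biUnion.2 ⟨p, ?_, Finset.mem_filter.2 ⟨hy1, h1, h2⟩⟩
        exact Finset.mem_filter.2 ⟨Nat.mem_primeFactors.2 ⟨hp, Int.natCast_dvd.1 h3, hm0⟩, hpN⟩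
      have h4 : ((((Finset.Ioc 0 N).filter (fun y : ℕ => ∃ p : ℕ, p.Prime ∧ N < p ∧
          (p : ℤ) ∣ P.evalEval (x : ℤ) (y : ℤ) ∧ (p : ℤ) ∣ g.evalEval (x : ℤ) (y : ℤ))).card : ℕ) : ℝ) ≤
          ∑ p ∈ S, ((((Finset.Ioc 0 N).filter (fun y : ℕ =>
            (p : ℤ) ∣ P.evalEval (x : ℤ) (y : ℤ) ∧
              (p : ℤ) ∣ g.evalEval (x : ℤ) (y : ℤ))).card : ℕ) : ℝ) := by
        exact_mod_cast (Finset.card_le_card hsub).trans Finset.card_biUnion_le
      refine h4.trans ((Finset.sum_le_card_nsmul _ _ ((d : ℝ) * 2) ?_).trans ?_)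
      · intro p hp
        have hp1 := Finset.mem_filter.1 hp
        have hp2 := (Nat.mem_primeFactors.1 hp1.1).1
        have hpr : ¬ (p : ℤ) ∣ r := natAbs_lt_not_dvd hr (by omega)
        refine (XData.y_le h p hp2 hpr x N).trans ?_
        refine mul_le_mul_of_nonneg_left ?_ (by positivity)
        have : (N : ℝ) / p ≤ 1 := by
          rw [div_le_one (by exact_mod_cast hp2.pos)]
          exact_mod_cast hp1.2.le
        linarith
      · rw [nsmul_eq_mul]
        refine mul_le_mul_of_nonneg_right ?_ (by positivity)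
        exact_mod_cast hSc
    have hroots : ((((Finset.Ioc 0 N).filter (fun x : ℕ => D.eval (x : ℤ) = 0)).card : ℕ) : ℝ) ≤
        D.natDegree := by
      have h1 : ((Finset.Ioc 0 N).filter (fun x : ℕ => D.eval (x : ℤ) = 0)).card ≤
          D.roots.toFinset.card := by
        refine Finset.card_le_card_of_injOn (fun x : ℕ => (x : ℤ)) ?_ ?_
        · intro x hx
          rw [Finset.mem_coe, Finset.mem_filter] at hx
          rw [Finset.mem_coe, Multiset.mem_toFinset, mem_roots hD]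
          exact hx.2
        · intro a _ b _ hab
          have hab' : (a : ℤ) = (b : ℤ) := hab
          exact_mod_cast hab'
      exact_mod_cast h1.trans ((Multiset.toFinset_card_le _).trans (card_roots' D))
    have h1 := cnt_split N (fun x y => ∃ p : ℕ, p.Prime ∧ N < p ∧
      (p : ℤ) ∣ P.evalEval (x : ℤ) (y : ℤ) ∧ (p : ℤ) ∣ g.evalEval (x : ℤ) (y : ℤ))
      (fun x => D.eval (x : ℤ) = 0) (N : ℝ) ((E : ℝ) * (d * 2)) D.natDegree
      (by positivity) hN0.le hroots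
      (fun x _ _ _ => by
        have : ((Finset.Ioc 0 N).filter (fun y : ℕ => ∃ p : ℕ, p.Prime ∧ N < p ∧
          (p : ℤ) ∣ P.evalEval (x : ℤ) (y : ℤ) ∧ (p : ℤ) ∣ g.evalEval (x : ℤ) (y : ℤ))).card ≤ N :=
          (Finset.card_filter_le _ _).trans (by simp)
        exact_mod_cast this)
      (fun x _ hx hx0 => key x hx hx0)
    refine h1.trans ?_
    push_cast
    have : (0 : ℝ) ≤ (z0 : ℝ) * N := by positivity
    nlinarith

lemma fn_natCast (P : ℤ[X][X]) (v : Fin 2 → ℕ) :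
    fn P (fun i => (v i : ℤ)) = P.evalEval ((v 1 : ℕ) : ℤ) ((v 0 : ℕ) : ℤ) := rfl

/-- the bound modulo `p ^ 2` in terms of `cnt` -/
lemma sqBound_iff (P : ℤ[X][X]) (K z0 : ℕ) :
    SqBound (fn P) K z0 ↔ ∀ p : ℕ, p.Prime → z0 ≤ p → ∀ N : ℕ, p ≤ N →
      (cnt N (fun x y => (p : ℤ) ^ 2 ∣ P.evalEval (x : ℤ) (y : ℤ)) : ℝ) ≤
        K * ((N : ℝ) ^ 2 * (1 / (p : ℝ) ^ 2) + N) := by
  unfold SqBound
  refine forall_congr' fun p => forall_congr' fun _ => forall_congr' fun _ => forall_congr' fun N =>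
    forall_congr' fun _ => ?_
  have h := card_eq_cnt N (fun x y => (p : ℤ) ^ 2 ∣ P.evalEval (x : ℤ) (y : ℤ))
  simp only [fn_natCast]
  rw [h]
  norm_num

/-- irreducible polynomials -/
lemma sqBound_irreducible (P : ℤ[X][X]) (hP : Irreducible P) : ∃ K z0 : ℕ, SqBound (fn P) K z0 := by
  classical
  by_cases hd : P.natDegree = 0
  · obtain ⟨c, rfl⟩ := natDegree_eq_zero.1 hd
    have hc : Irreducible c := by
      refine ⟨fun h => hP.not_isUnit (isUnit_C.2 h), ?_⟩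
      intro a b hab
      have := hP.isUnit_or_isUnit (show C c = C a * C b by rw [hab, C_mul])
      simpa [isUnit_C] using this
    by_cases hd' : c.natDegree = 0
    · obtain ⟨l, rfl⟩ := natDegree_eq_zero.1 hd'
      have hl : l ≠ 0 := by
        rintro rfl
        exact hc.ne_zero (by simp)
      refine ⟨0, l.natAbs + 1, ?_⟩
      rw [sqBound_iff]
      intro p hp hpz N hpN
      have h1 : cnt N (fun x y => (p : ℤ) ^ 2 ∣ (C (C l) : ℤ[X][X]).evalEval (x : ℤ) (y : ℤ)) = 0 := by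
        rw [cnt_def]
        refine Finset.sum_eq_zero ?_
        intro x _
        rw [Finset.card_eq_zero, Finset.filter_eq_empty_iff]
        intro y _ h2
        rw [evalEval_C_C] at h2
        exact natAbs_lt_not_dvd hl (by omega) ((Dvd.intro_left _ (by ring : (p : ℤ) * p = p ^ 2)).trans h2)
      rw [h1]
      simp
    · obtain ⟨a, b, r, hr, hab⟩ := bezout_deriv c hc hd'
      refine ⟨c.natDegree, r.natAbs + 1, ?_⟩
      rw [sqBound_iff]
      intro p hp hpz N hpN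
      have hpr : ¬ (p : ℤ) ∣ r := natAbs_lt_not_dvd hr (by omega)
      have hp0 : (0 : ℝ) < p := by exact_mod_cast hp.pos
      have h0 := one_le c (p ^ 2) (pow_pos hp.pos 2) N c.natDegree
        (Pool.Agent.SQF4.rho_sq_le c a b r hab p hp hpr)
      push_cast at h0
      have h1 := cnt_split N (fun x y => (p : ℤ) ^ 2 ∣ (C c : ℤ[X][X]).evalEval (x : ℤ) (y : ℤ))
        (fun x => (p : ℤ) ^ 2 ∣ c.eval (x : ℤ)) (N : ℝ) 0 _ le_rfl (by positivity) h0
        (fun x _ _ _ => by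
          have : ((Finset.Ioc 0 N).filter (fun y : ℕ =>
            (p : ℤ) ^ 2 ∣ (C c : ℤ[X][X]).evalEval (x : ℤ) (y : ℤ))).card ≤ N :=
            (Finset.card_filter_le _ _).trans (by simp)
          exact_mod_cast this)
        (by
          intro x _ _ hx
          have : (Finset.Ioc 0 N).filter (fun y : ℕ =>
            (p : ℤ) ^ 2 ∣ (C c : ℤ[X][X]).evalEval (x : ℤ) (y : ℤ)) = ∅ := by
            rw [Finset.filter_eq_empty_iff]
            intro y _ h2
            rw [evalEval_C] at h2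
            exact hx h2
          rw [this]
          simp)
      refine h1.trans (le_of_eq ?_)
      field_simp
      ring
  · obtain ⟨a, b, D, hD, hab⟩ := bezout_deriv P hP hd
    obtain ⟨r, hr, h⟩ := nonvan P hP.ne_zero (fun π hπ => not_C_dvd P hP hd π hπ)
    refine ⟨4 * D.natDegree * P.natDegree + P.natDegree, r.natAbs + D.leadingCoeff.natAbs + 1, ?_⟩
    rw [sqBound_iff]
    intro p hp hpz N hpN
    have hpr : ¬ (p : ℤ) ∣ r := natAbs_lt_not_dvd hr (by omega)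
    have hpD := exists_coeff D hD p (by omega)
    have hp0 : (0 : ℝ) < p := by exact_mod_cast hp.pos
    have h1 := cnt_split N (fun x y => (p : ℤ) ^ 2 ∣ P.evalEval (x : ℤ) (y : ℤ))
      (fun x => (p : ℤ) ∣ D.eval (x : ℤ)) (P.natDegree * ((N : ℝ) / p + 1))
      (P.natDegree * ((N : ℝ) / (p : ℝ) ^ 2 + 1)) (D.natDegree * ((N : ℝ) / p + 1))
      (by positivity) (by positivity) (x_le_p D p hp hpD N)
      (fun x _ _ _ => by
        refine le_trans ?_ (y_le_p P p hp x (h p hp hpr x) N)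
        exact_mod_cast Finset.card_le_card (by
          intro y hy
          rw [Finset.mem_filter] at hy ⊢
          exact ⟨hy.1, (Dvd.intro_left _ (by ring : (p : ℤ) * p = p ^ 2)).trans hy.2⟩))
      (fun x _ _ hx => y_le_p2 P a b D hab p hp x hx N)
    refine h1.trans ?_
    have h2 : (1 : ℝ) ≤ (N : ℝ) / p := by
      rw [le_div_iff₀ hp0, one_mul]
      exact_mod_cast hpN
    have e1 : (N : ℝ) ^ 2 * (1 / (p : ℝ) ^ 2) = ((N : ℝ) / p) ^ 2 := by
      rw [div_pow]; ring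
    have h3 : ((N : ℝ) / p + 1) ^ 2 ≤ 4 * ((N : ℝ) ^ 2 * (1 / (p : ℝ) ^ 2)) := by
      rw [e1]
      nlinarith
    have e2 : (N : ℝ) * (P.natDegree * ((N : ℝ) / (p : ℝ) ^ 2 + 1)) =
        P.natDegree * ((N : ℝ) ^ 2 * (1 / (p : ℝ) ^ 2) + N) := by
      field_simp
    have e3 : (D.natDegree : ℝ) * ((N : ℝ) / p + 1) * (P.natDegree * ((N : ℝ) / p + 1)) =
        (D.natDegree : ℝ) * P.natDegree * ((N : ℝ) / p + 1) ^ 2 := by ring
    rw [e2, e3]
    have h4 : (D.natDegree : ℝ) * P.natDegree * ((N : ℝ) / p + 1) ^ 2 ≤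
        (D.natDegree : ℝ) * P.natDegree * (4 * ((N : ℝ) ^ 2 * (1 / (p : ℝ) ^ 2))) :=
      mul_le_mul_of_nonneg_left h3 (by positivity)
    push_cast
    have h5 : (0 : ℝ) ≤ (D.natDegree : ℝ) * P.natDegree * N := by positivity
    nlinarith

/-- a prime square dividing a product -/
lemma sq_dvd_mul {p : ℕ} (hp : p.Prime) (a b : ℤ) (h : (p : ℤ) ^ 2 ∣ a * b) :
    (p : ℤ) ^ 2 ∣ a ∨ (p : ℤ) ^ 2 ∣ b ∨ ((p : ℤ) ∣ a ∧ (p : ℤ) ∣ b) := by
  have hp' := Nat.prime_iff_prime_int.1 hp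
  by_cases ha : (p : ℤ) ∣ a
  · by_cases hb : (p : ℤ) ∣ b
    · exact Or.inr (Or.inr ⟨ha, hb⟩)
    · left
      have hc : IsCoprime ((p : ℤ) ^ 2) b :=
        IsCoprime.pow_left ((Prime.coprime_iff_not_dvd hp').2 hb)
      exact hc.dvd_of_dvd_mul_right h
  · right; left
    have hc : IsCoprime ((p : ℤ) ^ 2) a :=
      IsCoprime.pow_left ((Prime.coprime_iff_not_dvd hp').2 ha)
    exact hc.dvd_of_dvd_mul_left h

lemma sqBound_mul (P g : ℤ[X][X]) (hX : XData P g) (h1 : ∃ K z0 : ℕ, SqBound (fn P) K z0)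
    (h2 : ∃ K z0 : ℕ, SqBound (fn g) K z0) : ∃ K z0 : ℕ, SqBound (fn (P * g)) K z0 := by
  classical
  obtain ⟨K1, z1, h1⟩ := h1
  obtain ⟨K2, z2, h2⟩ := h2
  obtain ⟨K3, z3, h3⟩ := xbound P g hX
  rw [sqBound_iff] at h1 h2
  refine ⟨K1 + K2 + K3, z1 + z2 + z3, ?_⟩
  rw [sqBound_iff]
  intro p hp hpz N hpN
  have e1 := h1 p hp (by omega) N hpN
  have e2 := h2 p hp (by omega) N hpN
  have e3 := h3 p hp (by omega) N hpN
  have e4 : cnt N (fun x y => (p : ℤ) ^ 2 ∣ (P * g).evalEval (x : ℤ) (y : ℤ)) ≤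
      cnt N (fun x y => (p : ℤ) ^ 2 ∣ P.evalEval (x : ℤ) (y : ℤ)) +
      (cnt N (fun x y => (p : ℤ) ^ 2 ∣ g.evalEval (x : ℤ) (y : ℤ)) +
      cnt N (fun x y => (p : ℤ) ∣ P.evalEval (x : ℤ) (y : ℤ) ∧
        (p : ℤ) ∣ g.evalEval (x : ℤ) (y : ℤ))) := by
    refine (cnt_mono N _ _ ?_).trans ((cnt_or N _ _).trans (Nat.add_le_add le_rfl (cnt_or N _ _)))
    intro x y _ _ _ _ h
    rw [evalEval_mul] at h
    exact sq_dvd_mul hp _ _ h
  have e5 : (cnt N (fun x y => (p : ℤ) ^ 2 ∣ (P * g).evalEval (x : ℤ) (y : ℤ)) : ℝ) ≤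
      cnt N (fun x y => (p : ℤ) ^ 2 ∣ P.evalEval (x : ℤ) (y : ℤ)) +
      (cnt N (fun x y => (p : ℤ) ^ 2 ∣ g.evalEval (x : ℤ) (y : ℤ)) +
      cnt N (fun x y => (p : ℤ) ∣ P.evalEval (x : ℤ) (y : ℤ) ∧
        (p : ℤ) ∣ g.evalEval (x : ℤ) (y : ℤ))) := by exact_mod_cast e4
  refine e5.trans ?_
  push_cast
  have : (0 : ℝ) ≤ (K3 : ℝ) * N := by positivity
  nlinarith

/-- induction over the irreducible factors of a squarefree polynomial -/
lemma squarefree_induction (Φ : ℤ[X][X] → Prop) (hunit : ∀ u, IsUnit u → Φ u)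
    (hmul : ∀ P g : ℤ[X][X], Irreducible P → ¬ P ∣ g → g ≠ 0 → Φ g → Φ (P * g)) :
    ∀ f : ℤ[X][X], Squarefree f → Φ f := by
  intro f
  induction f using UniqueFactorizationMonoid.induction_on_prime with
  | h₁ => intro h; exact absurd h not_squarefree_zero
  | h₂ u hu => intro _; exact hunit u hu
  | h₃ c π hc hπ ih =>
    intro h
    refine hmul π c hπ.irreducible ?_ hc (ih (h.squarefree_of_dvd (Dvd.intro_left _ rfl)))
    rintro ⟨e, he⟩
    apply hπ.not_isUnit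
    apply h
    exact ⟨e, by rw [he]; ring⟩

lemma isUnit_evalEval {u : ℤ[X][X]} (hu : IsUnit u) (x y : ℤ) : IsUnit (u.evalEval x y) := by
  have := hu.map (evalEvalRingHom x y)
  exact this

lemma prime_not_dvd_unit {p : ℕ} (hp : p.Prime) {a : ℤ} (ha : IsUnit a) : ¬ (p : ℤ) ∣ a := by
  intro h
  have := (Nat.prime_iff_prime_int.1 hp).not_isUnit
  exact this (isUnit_of_dvd_unit h ha)

/-- **The bound modulo `p ^ 2`** for squarefree polynomials. -/
theorem sqBound_squarefree (f : ℤ[X][X]) (hf : Squarefree f) : ∃ K z0 : ℕ, SqBound (fn f) K z0 := by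
  classical
  refine squarefree_induction (fun f => ∃ K z0 : ℕ, SqBound (fn f) K z0) ?_ ?_ f hf
  · intro u hu
    refine ⟨0, 0, ?_⟩
    rw [sqBound_iff]
    intro p hp _ N _
    have h1 : cnt N (fun x y => (p : ℤ) ^ 2 ∣ u.evalEval (x : ℤ) (y : ℤ)) = 0 := by
      rw [cnt_def]
      refine Finset.sum_eq_zero ?_
      intro x _
      rw [Finset.card_eq_zero, Finset.filter_eq_empty_iff]
      intro y _ h2
      exact prime_not_dvd_unit hp (isUnit_evalEval hu x y)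
        ((Dvd.intro_left _ (by ring : (p : ℤ) * p = p ^ 2)).trans h2)
    rw [h1]
    simp
  · intro P g hP hPg _ ih
    exact sqBound_mul P g (xdata P g hP hPg) (sqBound_irreducible P hP) ih

/-- tail in terms of `cnt` -/
lemma tail_eq (P : ℤ[X][X]) (N : ℕ) : tail (fn P) N = cnt N (fun x y => ∃ p : ℕ, p.Prime ∧ N < p ∧
    (p : ℤ) ^ 2 ∣ P.evalEval (x : ℤ) (y : ℤ)) :=
  card_eq_cnt N (fun x y => ∃ p : ℕ, p.Prime ∧ N < p ∧
    (p : ℤ) ^ 2 ∣ P.evalEval (x : ℤ) (y : ℤ))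

/-- the tail is `o(N ^ 2)` -/
def TailSmall2 (P : ℤ[X][X]) : Prop :=
  Tendsto (fun N : ℕ => (tail (fn P) N : ℝ) / (N : ℝ) ^ 2) atTop (𝓝 0)

lemma tailSmall2_unit {u : ℤ[X][X]} (hu : IsUnit u) : TailSmall2 u := by
  classical
  have h : ∀ N, tail (fn u) N = 0 := by
    intro N
    rw [tail_eq, cnt_def]
    refine Finset.sum_eq_zero ?_
    intro x _
    rw [Finset.card_eq_zero, Finset.filter_eq_empty_iff]
    rintro y _ ⟨p, hp, _, h2⟩
    exact prime_not_dvd_unit hp (isUnit_evalEval hu x y)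
      ((Dvd.intro_left _ (by ring : (p : ℤ) * p = p ^ 2)).trans h2)
  unfold TailSmall2
  simp only [h]
  simp

lemma tailSmall2_mul (P g : ℤ[X][X]) (hX : XData P g) (h1 : TailSmall2 P) (h2 : TailSmall2 g) :
    TailSmall2 (P * g) := by
  classical
  obtain ⟨K, hK⟩ := xtail P g hX
  have h3 : Tendsto (fun N : ℕ => (K : ℝ) / (N : ℝ)) atTop (𝓝 0) :=
    tendsto_const_div_atTop_nhds_zero_nat (K : ℝ)
  have h4 := (h1.add h2).add h3
  simp only [add_zero] at h4
  refine squeeze_zero' (Eventually.of_forall fun N => by positivity) ?_ h4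
  filter_upwards [eventually_gt_atTop 0] with N hN
  have hN0 : (0 : ℝ) < N := by exact_mod_cast hN
  have e4 : tail (fn (P * g)) N ≤ tail (fn P) N + (tail (fn g) N +
      cnt N (fun x y => ∃ p : ℕ, p.Prime ∧ N < p ∧
      (p : ℤ) ∣ P.evalEval (x : ℤ) (y : ℤ) ∧ (p : ℤ) ∣ g.evalEval (x : ℤ) (y : ℤ))) := by
    rw [tail_eq, tail_eq, tail_eq]
    refine (cnt_mono N _ _ ?_).trans ((cnt_or N _ _).trans (Nat.add_le_add le_rfl (cnt_or N _ _)))
    rintro x y _ _ _ _ ⟨p, hp, hpN, h⟩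
    rw [evalEval_mul] at h
    rcases sq_dvd_mul hp _ _ h with h5 | h5 | h5
    · exact Or.inl ⟨p, hp, hpN, h5⟩
    · exact Or.inr (Or.inl ⟨p, hp, hpN, h5⟩)
    · exact Or.inr (Or.inr ⟨p, hp, hpN, h5⟩)
  have e5 : (tail (fn (P * g)) N : ℝ) ≤ tail (fn P) N + (tail (fn g) N +
      cnt N (fun x y => ∃ p : ℕ, p.Prime ∧ N < p ∧
      (p : ℤ) ∣ P.evalEval (x : ℤ) (y : ℤ) ∧ (p : ℤ) ∣ g.evalEval (x : ℤ) (y : ℤ))) := by
    exact_mod_cast e4
  have e6 := hK N
  have e7 : (tail (fn (P * g)) N : ℝ) / (N : ℝ) ^ 2 ≤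
      ((tail (fn P) N : ℝ) + (tail (fn g) N + K * N)) / (N : ℝ) ^ 2 :=
    div_le_div_of_nonneg_right (by linarith) (by positivity)
  refine e7.trans (le_of_eq ?_)
  field_simp
  ring

/-- **Tails of squarefree polynomials** from the tails of the irreducible factors. -/
theorem tailSmall2_of_factors (f : ℤ[X][X]) (hf : Squarefree f)
    (h : ∀ P : ℤ[X][X], Irreducible P → P ∣ f → TailSmall2 P) : TailSmall2 f := by
  refine squarefree_induction (fun f => (∀ P : ℤ[X][X], Irreducible P → P ∣ f → TailSmall2 P) →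
    TailSmall2 f) ?_ ?_ f hf h
  · intro u hu _
    exact tailSmall2_unit hu
  · intro P g hP hPg _ ih hfac
    exact tailSmall2_mul P g (xdata P g hP hPg) (hfac P hP (Dvd.intro _ rfl))
      (ih (fun Q hQ hQg => hfac Q hQ (Dvd.dvd.mul_left hQg _)))

end Pool.Agent.SQF2
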