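import Mathlib
import Pool.Agent.Lib.SQF2.SqB
import Pool.Agent.Lib.SQF2.Comp

/-!
# SQF2: the density theorem in two variables
-/

set_option autoImplicit false

open Polynomial Filter Topology

namespace Pool.Agent.SQF2

open Pool.Agent.Lib.SQF

/-- polynomials in two variables as iterated polynomials -/
noncomputable def toXY : MvPolynomial (Fin 2) ℤ ≃+* ℤ[X][X] :=
  ((MvPolynomial.finSuccEquiv ℤ 1).toRingEquiv).trans
    (Polynomial.mapEquiv (MvPolynomial.uniqueAlgEquiv ℤ (Fin 1)).toRingEquiv)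

lemma fn_toXY (f : MvPolynomial (Fin 2) ℤ) (v : Fin 2 → ℤ) :
    fn (toXY f) v = MvPolynomial.eval v f := by
  have h : ((evalEvalRingHom (v 1) (v 0)).comp (toXY : MvPolynomial (Fin 2) ℤ →+* ℤ[X][X])) =
      MvPolynomial.eval v := by
    refine MvPolynomial.ringHom_ext ?_ ?_
    · intro r
      simp [toXY]
    · intro i
      fin_cases i
      · simp [toXY, MvPolynomial.finSuccEquiv_X_zero]
      · have h2 : (MvPolynomial.finSuccEquiv ℤ 1) (MvPolynomial.X 1) = C (MvPolynomial.X 0) :=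
          MvPolynomial.finSuccEquiv_X_succ (R := ℤ) (j := (0 : Fin 1))
        simp [toXY, h2]
  have h1 := congrArg (fun ψ : MvPolynomial (Fin 2) ℤ →+* ℤ => ψ f) h
  exact h1

/-- the exponent `(i, j)` -/
noncomputable def expo (i j : ℕ) : Fin 2 →₀ ℕ := Finsupp.equivFunOnFinite.symm ![i, j]

lemma expo_zero (i j : ℕ) : expo i j 0 = i := by simp [expo]
lemma expo_one (i j : ℕ) : expo i j 1 = j := by simp [expo]

lemma eq_expo (d : Fin 2 →₀ ℕ) : d = expo (d 0) (d 1) := by
  ext i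
  fin_cases i
  · simp [expo]
  · simp [expo]

lemma coeff_zero_of_lt (Q : MvPolynomial (Fin 2) ℤ) (i j : ℕ) (h : Q.totalDegree < i + j) :
    Q.coeff (expo i j) = 0 := by
  by_contra h0
  have h1 : expo i j ∈ Q.support := MvPolynomial.mem_support_iff.2 h0
  have h2 := MvPolynomial.le_totalDegree h1
  rw [Finsupp.sum_fintype _ _ (fun _ => rfl), Fin.sum_univ_two, expo_zero, expo_one] at h2
  omega

lemma eval_expand (Q : MvPolynomial (Fin 2) ℤ) (D : ℕ) (hD : Q.totalDegree ≤ D) (v : Fin 2 → ℤ) :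
    MvPolynomial.eval v Q = ∑ i ∈ Finset.range (D + 1), ∑ j ∈ Finset.range (D + 1),
      Q.coeff (expo i j) * (v 0 ^ i * v 1 ^ j) := by
  classical
  rw [MvPolynomial.eval_eq']
  set S : Finset (Fin 2 →₀ ℕ) := ((Finset.range (D + 1)) ×ˢ (Finset.range (D + 1))).image
    (fun z => expo z.1 z.2) with hS
  have hsub : Q.support ⊆ S := by
    intro d hd
    have h1 := MvPolynomial.le_totalDegree hd
    rw [Finsupp.sum_fintype _ _ (fun _ => rfl), Fin.sum_univ_two] at h1
    rw [hS, Finset.mem_image]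
    exact ⟨(d 0, d 1), by
      rw [Finset.mem_product, Finset.mem_range, Finset.mem_range]
      simp only
      omega, (eq_expo d).symm⟩
  rw [Finset.sum_subset hsub (by
    intro d _ hd
    rw [MvPolynomial.notMem_support_iff.1 hd, zero_mul]), hS, Finset.sum_image (by
    rintro ⟨a, b⟩ _ ⟨c, d⟩ _ h
    simp only at h
    have h1 := congrArg (fun e : Fin 2 →₀ ℕ => e 0) h
    have h2 := congrArg (fun e : Fin 2 →₀ ℕ => e 1) h
    simp only [expo_zero, expo_one] at h1 h2
    rw [h1, h2]), Finset.sum_product]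
  refine Finset.sum_congr rfl fun i _ => Finset.sum_congr rfl fun j _ => ?_
  rw [Fin.prod_univ_two, expo_zero, expo_one]

lemma exists_quadratic (Q : MvPolynomial (Fin 2) ℤ) (hD : Q.totalDegree ≤ 2) :
    ∃ A B C D E F : ℤ, ∀ v : Fin 2 → ℤ, MvPolynomial.eval v Q = qv A B C D E F (v 0) (v 1) := by
  refine ⟨Q.coeff (expo 2 0), Q.coeff (expo 1 1), Q.coeff (expo 0 2), Q.coeff (expo 1 0),
    Q.coeff (expo 0 1), Q.coeff (expo 0 0), fun v => ?_⟩
  rw [eval_expand Q 2 hD v]
  simp only [Finset.sum_range_succ, Finset.sum_range_zero]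
  rw [coeff_zero_of_lt Q 1 2 (by omega), coeff_zero_of_lt Q 2 1 (by omega),
    coeff_zero_of_lt Q 2 2 (by omega)]
  unfold qv
  ring

lemma exists_linear (Q : MvPolynomial (Fin 2) ℤ) (hD : Q.totalDegree = 1) :
    ∃ A B D : ℤ, ¬ (A = 0 ∧ B = 0) ∧
      ∀ v : Fin 2 → ℤ, MvPolynomial.eval v Q = A * v 0 + B * v 1 + D := by
  have h : ∀ v : Fin 2 → ℤ, MvPolynomial.eval v Q =
      Q.coeff (expo 1 0) * v 0 + Q.coeff (expo 0 1) * v 1 + Q.coeff (expo 0 0) := by
    intro v
    rw [eval_expand Q 1 hD.le v]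
    simp only [Finset.sum_range_succ, Finset.sum_range_zero]
    rw [coeff_zero_of_lt Q 1 1 (by omega)]
    ring
  refine ⟨_, _, _, ?_, h⟩
  rintro ⟨h1, h2⟩
  have h3 : Q = MvPolynomial.C (Q.coeff (expo 0 0)) := by
    apply MvPolynomial.funext
    intro v
    rw [h v, h1, h2, MvPolynomial.eval_C]
    ring
  rw [h3, MvPolynomial.totalDegree_C] at hD
  omega

lemma tail_mono {h : ℕ} (F G : (Fin h → ℤ) → ℤ) (hFG : ∀ v, F v ∣ G v) (N : ℕ) :
    tail F N ≤ tail G N := by
  classical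
  unfold tail
  have hfin : Finite {v : Fin h → ℕ // (∀ i, 1 ≤ v i ∧ v i ≤ N) ∧
      ∃ p : ℕ, p.Prime ∧ N < p ∧ (p : ℤ) ^ 2 ∣ G (fun i => (v i : ℤ))} := by
    refine Set.Finite.to_subtype ((Finset.finite_toSet (box h N)).subset ?_)
    intro v hv
    exact Finset.mem_coe.2 (mem_box.2 hv.1)
  refine Nat.card_le_card_of_injective (fun v => ⟨v.1, v.2.1, ?_⟩) ?_
  · obtain ⟨p, hp, h1, h2⟩ := v.2.2
    exact ⟨p, hp, h1, h2.trans (hFG _)⟩
  · intro v w hvw
    have := congrArg (fun z => z.1) hvw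
    exact Subtype.ext this

lemma qv_bound (A B C D E F : ℤ) : ∃ C0 : ℕ, 1 ≤ C0 ∧ ∀ N : ℕ, ∀ x y : ℤ, 1 ≤ x → x ≤ N →
    1 ≤ y → y ≤ N → |qv A B C D E F x y| ≤ (C0 : ℤ) * (N : ℤ) ^ 2 := by
  have c1 := abs_nonneg A
  have c2 := abs_nonneg B
  have c3 := abs_nonneg C
  have c4 := abs_nonneg D
  have c5 := abs_nonneg E
  have c6 := abs_nonneg F
  refine ⟨(|A| + |B| + |C| + |D| + |E| + |F| + 1).toNat, by omega, ?_⟩
  intro N x y hx1 hx2 hy1 hy2
  rw [Int.toNat_of_nonneg (by positivity)]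
  have hN1 : (1 : ℤ) ≤ N := by linarith
  have hx0 : (0 : ℤ) ≤ x := by linarith
  have hy0 : (0 : ℤ) ≤ y := by linarith
  have hNN : (N : ℤ) ≤ (N : ℤ) ^ 2 := by nlinarith
  have e1 : |A * x ^ 2| ≤ |A| * (N : ℤ) ^ 2 := by
    rw [abs_mul, abs_of_nonneg (by positivity : (0 : ℤ) ≤ x ^ 2)]
    exact mul_le_mul_of_nonneg_left (pow_le_pow_left₀ hx0 hx2 2) c1
  have e2 : |B * x * y| ≤ |B| * (N : ℤ) ^ 2 := by
    rw [mul_assoc, abs_mul, abs_of_nonneg (by positivity : (0 : ℤ) ≤ x * y)]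
    refine mul_le_mul_of_nonneg_left ?_ c2
    nlinarith
  have e3 : |C * y ^ 2| ≤ |C| * (N : ℤ) ^ 2 := by
    rw [abs_mul, abs_of_nonneg (by positivity : (0 : ℤ) ≤ y ^ 2)]
    exact mul_le_mul_of_nonneg_left (pow_le_pow_left₀ hy0 hy2 2) c3
  have e4 : |D * x| ≤ |D| * (N : ℤ) ^ 2 := by
    rw [abs_mul, abs_of_nonneg hx0]
    exact mul_le_mul_of_nonneg_left (hx2.trans hNN) c4
  have e5 : |E * y| ≤ |E| * (N : ℤ) ^ 2 := by
    rw [abs_mul, abs_of_nonneg hy0]
    exact mul_le_mul_of_nonneg_left (hy2.trans hNN) c5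
  have e6 : |F| ≤ |F| * (N : ℤ) ^ 2 := le_mul_of_one_le_right c6 (hN1.trans hNN)
  have hN2 : (0 : ℤ) ≤ (N : ℤ) ^ 2 := by positivity
  unfold qv
  have f1 := abs_add_le (A * x ^ 2 + B * x * y + C * y ^ 2 + D * x + E * y) F
  have f2 := abs_add_le (A * x ^ 2 + B * x * y + C * y ^ 2 + D * x) (E * y)
  have f3 := abs_add_le (A * x ^ 2 + B * x * y + C * y ^ 2) (D * x)
  have f4 := abs_add_le (A * x ^ 2 + B * x * y) (C * y ^ 2)
  have f5 := abs_add_le (A * x ^ 2) (B * x * y)
  have f6 : (|A| + |B| + |C| + |D| + |E| + |F| + 1) * (N : ℤ) ^ 2 =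
      |A| * (N : ℤ) ^ 2 + |B| * (N : ℤ) ^ 2 + |C| * (N : ℤ) ^ 2 + |D| * (N : ℤ) ^ 2 +
        |E| * (N : ℤ) ^ 2 + |F| * (N : ℤ) ^ 2 + (N : ℤ) ^ 2 := by ring
  rw [f6]
  linarith

/-- the inner polynomials: of degree one, or of degree at most two and not invariant under a nonzero
translation -/
def Inner (Q : MvPolynomial (Fin 2) ℤ) : Prop :=
  Q.totalDegree = 1 ∨ (Q.totalDegree ≤ 2 ∧
    ∀ w : Fin 2 → ℤ, (∀ v : Fin 2 → ℤ, MvPolynomial.eval (v + w) Q = MvPolynomial.eval v Q) → w = 0)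

/-- the tail of a factor of `g(Q)` -/
lemma tailSmall2_factor (g : ℤ[X]) (hg : Irreducible g) (ht : 1 ≤ g.natDegree → PTail g)
    (Q : MvPolynomial (Fin 2) ℤ) (hQ : Inner Q) (P : ℤ[X][X])
    (hP : ∀ v : Fin 2 → ℤ, fn P v ∣ g.eval (MvPolynomial.eval v Q)) : TailSmall2 P := by
  unfold TailSmall2
  rcases Nat.eq_zero_or_pos g.natDegree with h0 | h0
  · -- constants
    have h1 : g = C (g.coeff 0) := eq_C_of_natDegree_eq_zero h0
    have hc : g.coeff 0 ≠ 0 := by
      intro h2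
      rw [h2, C_0] at h1
      exact hg.ne_zero h1
    refine tendsto_const_nhds.congr' ?_
    filter_upwards [eventually_ge_atTop (g.coeff 0).natAbs] with N hN
    have : tail (fn P) N = 0 := by
      unfold tail
      rw [Nat.card_eq_zero]
      left
      refine ⟨?_⟩
      rintro ⟨v, -, p, hp, hNp, hpv⟩
      have h3 := hpv.trans (hP _)
      rw [h1, eval_C] at h3
      have h4 : (p : ℤ) ∣ g.coeff 0 := (Dvd.intro_left _ (by ring : (p : ℤ) * p = p ^ 2)).trans h3
      have := Nat.le_of_dvd (Int.natAbs_pos.2 hc) (Int.natCast_dvd.1 h4)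
      omega
    rw [this]
    simp
  · have hT := ht h0
    have hsep := Pool.Agent.SQF4.separable_of_irreducible g hg (by omega)
    obtain ⟨a, b, R, hR, hab⟩ := Pool.Agent.SQF4.exists_bezout g hsep
    have key : Tendsto (fun N : ℕ => (tail (fun v : Fin 2 → ℤ => g.eval (MvPolynomial.eval v Q)) N :
        ℝ) / (N : ℝ) ^ 2) atTop (𝓝 0) := by
      rcases hQ with hQ | ⟨hQ1, hQ2⟩
      · obtain ⟨A, B, D, hAB, hv⟩ := exists_linear Q hQ
        have := ts_linear g hT A B D hAB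
        simp only [hv]
        exact this
      · obtain ⟨A, B, C', D, E, F, hv⟩ := exists_quadratic Q hQ1
        have hE : EnergyBound (qv A B C' D E F) := by
          refine energy_quadratic A B C' D E F fun s t hst => ?_
          have h1 := hQ2 ![s, t] (by
            intro v
            rw [hv, hv]
            simpa using hst (v 0) (v 1))
          have h2 := congrFun h1 0
          have h3 := congrFun h1 1
          exact ⟨by simpa using h2, by simpa using h3⟩
        obtain ⟨C0, hC0, hb⟩ := qv_bound A B C' D E F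
        have := ts_energy g a b R hR hab hT (qv A B C' D E F) C0 hC0 hb hE
        simp only [hv]
        exact this
    refine squeeze_zero' (Eventually.of_forall (fun N => by positivity)) ?_ key
    refine Eventually.of_forall fun N => ?_
    refine div_le_div_of_nonneg_right ?_ (by positivity)
    exact_mod_cast tail_mono _ _ hP N

/-- **The density theorem in two variables**, from the windows of monic irreducible quartics. -/
theorem density_two
    (H4 : ∀ g : ℤ[X], g.Monic → Irreducible g → g.natDegree = 4 → RangeBoundL g (101 / 100))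
    (f : MvPolynomial (Fin 2) ℤ) (hsq : Squarefree f)
    (hfac : ∀ P : MvPolynomial (Fin 2) ℤ, Irreducible P → P ∣ f →
      ∃ (g : ℤ[X]) (Q : MvPolynomial (Fin 2) ℤ), Irreducible g ∧ g.natDegree ≤ 4 ∧ Inner Q ∧
        P ∣ Polynomial.aeval Q g)
    (δ : ℕ) (hδ : ∀ n : ℤ, (∀ v : Fin 2 → ℤ, n ∣ MvPolynomial.eval v f) ↔ n ∣ (δ : ℤ)) :
    Filter.Tendsto
      (fun N : ℕ => (Nat.card {v : Fin 2 → ℕ // (∀ i, 1 ≤ v i ∧ v i ≤ N) ∧
          Squarefree (MvPolynomial.eval (fun i => (v i : ℤ)) f /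
            ((∏ p ∈ δ.primeFactors, p ^ (δ.factorization p - 1) : ℕ) : ℤ))} : ℝ) / (N : ℝ) ^ 2)
      Filter.atTop
      (nhds (∏' p : Nat.Primes,
        (1 - (Nat.card {v : Fin 2 → Fin ((p : ℕ) ^ (2 + (δ.factorization (p : ℕ) - 1))) //
              (((p : ℕ) ^ (2 + (δ.factorization (p : ℕ) - 1)) : ℕ) : ℤ) ∣
                MvPolynomial.eval (fun i => ((v i : ℕ) : ℤ)) f} : ℝ) /
          (((p : ℕ) : ℝ) ^ (2 * (2 + (δ.factorization (p : ℕ) - 1))))))) := by
  have hf0 : f ≠ 0 := by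
    rintro rfl
    exact not_squarefree_zero hsq
  have hfn : fn (toXY f) = fun v => MvPolynomial.eval v f := by
    funext v
    exact fn_toXY f v
  have hsq' : Squarefree (toXY f) := by
    intro x hx
    have h1 : toXY.symm x * toXY.symm x ∣ f := by
      rw [← map_mul]
      obtain ⟨y, hy⟩ := hx
      refine ⟨toXY.symm y, ?_⟩
      rw [← map_mul, ← hy, RingEquiv.symm_apply_apply]
    have h2 := (hsq _ h1).map toXY
    rwa [RingEquiv.apply_symm_apply] at h2
  have htail : TailSmall2 (toXY f) := by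
    refine tailSmall2_of_factors (toXY f) hsq' ?_
    intro P hP hPf
    have hP1 : Irreducible (toXY.symm P) := (MulEquiv.irreducible_iff toXY.symm).2 hP
    have hP2 : toXY.symm P ∣ f := by
      obtain ⟨y, hy⟩ := hPf
      refine ⟨toXY.symm y, ?_⟩
      rw [← map_mul, ← hy, RingEquiv.symm_apply_apply]
    obtain ⟨g, Q, hg, hgd, hQ, hdv⟩ := hfac _ hP1 hP2
    refine tailSmall2_factor g hg (fun h1 => ptail H4 g hg h1 hgd) Q hQ P ?_
    intro v
    have h1 : fn P v = MvPolynomial.eval v (toXY.symm P) := by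
      rw [← fn_toXY, RingEquiv.apply_symm_apply]
    have h2 : MvPolynomial.eval v (Polynomial.aeval Q g) = g.eval (MvPolynomial.eval v Q) := by
      rw [Polynomial.aeval_def, Polynomial.hom_eval₂, Polynomial.eval, Polynomial.eval₂_eq_eval_map,
        Polynomial.eval₂_eq_eval_map]
      congr 2
      ext n
      simp
    rw [h1, ← h2]
    exact map_dvd (MvPolynomial.eval v) hdv
  obtain ⟨K, z1, hk⟩ := sqBound_squarefree (toXY f) hsq'
  have hmain := density_of_tail (h := 2) (by norm_num) (fn_cong (toXY f)) K z1 hk δ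
    (by rw [hfn]; exact hδ) (by
      by_contra hcon
      push Not at hcon
      apply hf0
      apply MvPolynomial.funext
      intro v
      rw [map_zero, ← fn_toXY]
      exact hcon v) htail
  rw [hfn] at hmain
  exact hmain

end Pool.Agent.SQF2
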